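import Pool.Agent.Lib.MP_6fca61_gt.AveS

/-!
# MP_6fca61_gt (project PW): continuity of the vector of O Neill along a fibre
-/

set_option autoImplicit false
set_option maxSynthPendingDepth 3

open scoped Manifold ContDiff Topology

namespace Pool.Agent.Lib.MP_6fca61_gt

variable {E : Type*} [NormedAddCommGroup E] [NormedSpace ℝ E] [FiniteDimensional ℝ E]
variable {E' : Type*} [NormedAddCommGroup E'] [NormedSpace ℝ E'] [FiniteDimensional ℝ E']
variable {M : Type*} [TopologicalSpace M] [ChartedSpace E M] [IsManifold 𝓘(ℝ, E) ∞ M]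
variable {B : Type*} [TopologicalSpace B] [ChartedSpace E' B] [IsManifold 𝓘(ℝ, E') ∞ B]
variable {g : Fam E M} {h : Fam E' B} {π : M → B}
variable {e : OpenPartialHomeomorph M E} {e' : OpenPartialHomeomorph B E'} {pl : E →L[ℝ] E'}
  {p : M}

omit [FiniteDimensional ℝ E] [IsManifold 𝓘(ℝ, E) ∞ M] in
private theorem AveC_pair {p q : M} (hq : q = p) {v w : E} (hvw : v = w) :
    (⟨p, v⟩ : TangentBundle 𝓘(ℝ, E) M) = ⟨q, w⟩ := by
  subst hq
  subst hvw
  rfl

private theorem AveC_cont {U : Set E} {G : E → E →L[ℝ] E →L[ℝ] ℝ} {V : Set E'}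
    {H : E' → E' →L[ℝ] E' →L[ℝ] ℝ} {pl : E →L[ℝ] E'} (h : LS U G V H pl) (X Y : E') :
    ContinuousOn (fun z => avec G H pl z X Y) U := by
  have h1 : ContinuousOn (hor G H pl) U := (hor_smooth h).continuousOn
  have h2 : ContinuousOn (fderiv ℝ (hor G H pl)) U :=
    (hor_smooth h).continuousOn_fderiv_of_isOpen h.metG.isOpen (by simp)
  have h3 : ∀ A B : E', ContinuousOn
      (fun z => fderiv ℝ (hor G H pl) z (hor G H pl z A) B) U := fun A B =>
    (h2.clm_apply (h1.clm_apply continuousOn_const)).clm_apply continuousOn_const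
  unfold avec
  exact ((h3 X Y).sub (h3 Y X)).const_smul (1 / 2 : ℝ)

/-- Proof. Near `p₀ ∈ π ⁻¹' {b}` use one product chart `(e, e', pl)`: for `p ∈ e.source` in the
fibre `avecM p x y = dsy e (e p) (avec .. (e p) X Y)`, `X = dch e' b x`, `Y = dch e' b y`
constant (`avecM_eq`, `dsy_dch`); `avec .. z X Y` is continuous on `e.target` (`hor_smooth`), and
`(z, a) ↦ ⟨e.symm z, mfderiv e.symm z a⟩` is the tangent map of `e.symm`, continuous on
`e.target × E` (`ContMDiffOn.continuousOn_tangentMapWithin`). -/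
theorem avecM_cont (hg : GF g) (hh : GF h) (hπ : IsRiemSubm g h π) (b : B) (x y : E') :
    ContinuousOn (fun p => (⟨p, (avecM g h π p x y : E)⟩ : TangentBundle 𝓘(ℝ, E) M))
      (π ⁻¹' {b}) := by
  intro p₀ hp₀
  obtain ⟨e, e', pl, hc, hpe⟩ := pc_ex hπ.subm p₀
  have ls := PC.ls hg hh hπ hc
  have ha := AveC_cont ls (dch e' b x) (dch e' b y)
  obtain ⟨a, hadef⟩ : ∃ a : E → E, a = fun z =>
      avec (locG g e) (locG h e') pl z (dch e' b x) (dch e' b y) := ⟨_, rfl⟩
  rw [← hadef] at ha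
  have hF : ContinuousOn (fun z : E => (⟨z, a z⟩ : TangentBundle 𝓘(ℝ, E) E)) e.target := by
    have h1 : ContinuousOn (fun z : E => ((z, a z) : ModelProd E E)) e.target :=
      continuousOn_id.prodMk ha
    exact (tangentBundleModelSpaceHomeomorph 𝓘(ℝ, E)).symm.continuous.comp_continuousOn h1
  have hT := (contMDiffOn_symm_of_mem_maximalAtlas hc.he).continuousOn_tangentMapWithin
    (by simp) e.open_target.uniqueMDiffOn
  have h2 : ContinuousOn (fun p : M => tangentMapWithin 𝓘(ℝ, E) 𝓘(ℝ, E) e.symm e.target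
      (⟨e p, a (e p)⟩ : TangentBundle 𝓘(ℝ, E) E)) e.source :=
    (hT.comp hF fun z hz => hz).comp e.continuousOn fun p hp => e.map_source hp
  rw [← continuousWithinAt_inter (e.open_source.mem_nhds hpe)]
  refine ((h2 p₀ hpe).mono Set.inter_subset_right).congr (fun p hp => ?_) ?_
  · have hp2 : π p = b := hp.1
    refine AveC_pair (e.left_inv hp.2) ?_
    have h3 := avecM_eq hg hh hπ hc hp.2 x y
    rw [hp2] at h3
    have h4 := dsy_dch hc.he hp.2 (avecM g h π p x y)
    rw [h3] at h4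
    rw [← h4, mfderivWithin_of_isOpen e.open_target (e.map_source hp.2), hadef]
    rfl
  · have hp2 : π p₀ = b := hp₀
    refine AveC_pair (e.left_inv hpe) ?_
    have h3 := avecM_eq hg hh hπ hc hpe x y
    rw [hp2] at h3
    have h4 := dsy_dch hc.he hpe (avecM g h π p₀ x y)
    rw [h3] at h4
    rw [← h4, mfderivWithin_of_isOpen e.open_target (e.map_source hpe), hadef]
    rfl

end Pool.Agent.Lib.MP_6fca61_gt
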