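import Pool.Agent.Lib.MP_6fca61_gt.TrC

/-!
# MP_6fca61_gt (project PW): change of coordinates, curvature
-/

set_option autoImplicit false
set_option maxSynthPendingDepth 3

open scoped Manifold ContDiff Topology

namespace Pool.Agent.Lib.MP_6fca61_gt

variable {E : Type*} [NormedAddCommGroup E] [NormedSpace ℝ E] [FiniteDimensional ℝ E]
variable {U U' : Set E} {G G' : E → E →L[ℝ] E →L[ℝ] ℝ} {Ψ : E → E} {z : E}

omit [FiniteDimensional ℝ E] in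
private theorem TrR_cd {F : Type*} [NormedAddCommGroup F] [NormedSpace ℝ F] {f : E → F}
    (hU : IsOpen U) (hf : ContDiffOn ℝ ∞ f U) : ContDiffOn ℝ ∞ (fderiv ℝ f) U :=
  hf.fderiv_of_isOpen hU (by simp)

omit [FiniteDimensional ℝ E] in
private theorem TrR_da {F : Type*} [NormedAddCommGroup F] [NormedSpace ℝ F] {f : E → F}
    (hU : IsOpen U) (hf : ContDiffOn ℝ ∞ f U) (hz : z ∈ U) : HasFDerivAt f (fderiv ℝ f z) z :=
  (((hf z hz).contDiffAt (hU.mem_nhds hz)).differentiableAt (by simp)).hasFDerivAt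

omit [FiniteDimensional ℝ E] in
private theorem TrR_line {F : Type*} [NormedAddCommGroup F] [NormedSpace ℝ F] {f : E → F}
    {L : E →L[ℝ] F} (hf : HasFDerivAt f L z) (a : E) :
    HasDerivAt (fun t : ℝ => f (z + t • a)) (L a) 0 := hf.hasLineDerivAt a

private theorem TrR_two : minSmoothness ℝ 2 ≤ (∞ : WithTop ℕ∞) := by
  rw [minSmoothness_of_isRCLikeNormedField]
  exact WithTop.coe_le_coe.2 (le_top : (2:ℕ∞) ≤ ⊤)

/-- the derivative of `Tr.fd` -/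
private theorem TrR_dd (h : Tr U G U' G' Ψ) (hz : z ∈ U) (a b u v : E) :
    fderiv ℝ (fderiv ℝ G) z a b u v =
      fderiv ℝ (fderiv ℝ G') (Ψ z) (fderiv ℝ Ψ z a) (fderiv ℝ Ψ z b) (fderiv ℝ Ψ z u)
        (fderiv ℝ Ψ z v) +
      fderiv ℝ G' (Ψ z) (fderiv ℝ (fderiv ℝ Ψ) z a b) (fderiv ℝ Ψ z u) (fderiv ℝ Ψ z v) +
      fderiv ℝ G' (Ψ z) (fderiv ℝ Ψ z b) (fderiv ℝ (fderiv ℝ Ψ) z a u) (fderiv ℝ Ψ z v) +
      fderiv ℝ G' (Ψ z) (fderiv ℝ Ψ z b) (fderiv ℝ Ψ z u) (fderiv ℝ (fderiv ℝ Ψ) z a v) +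
      (fderiv ℝ G' (Ψ z) (fderiv ℝ Ψ z a) (fderiv ℝ (fderiv ℝ Ψ) z b u) (fderiv ℝ Ψ z v) +
      G' (Ψ z) (fderiv ℝ (fderiv ℝ (fderiv ℝ Ψ)) z a b u) (fderiv ℝ Ψ z v) +
      G' (Ψ z) (fderiv ℝ (fderiv ℝ Ψ) z b u) (fderiv ℝ (fderiv ℝ Ψ) z a v)) +
      (fderiv ℝ G' (Ψ z) (fderiv ℝ Ψ z a) (fderiv ℝ Ψ z u) (fderiv ℝ (fderiv ℝ Ψ) z b v) +
      G' (Ψ z) (fderiv ℝ (fderiv ℝ Ψ) z a u) (fderiv ℝ (fderiv ℝ Ψ) z b v) +
      G' (Ψ z) (fderiv ℝ Ψ z u) (fderiv ℝ (fderiv ℝ (fderiv ℝ Ψ)) z a b v)) := by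
  have hU := h.metG.isOpen
  have hU' := h.metG'.isOpen
  have hz' := h.maps z hz
  have hG1 := TrR_line (TrR_da hU (TrR_cd hU h.metG.smooth) hz) a
  have hΨ := TrR_da hU h.smooth hz
  have hΨ1 := TrR_line (TrR_da hU (TrR_cd hU h.smooth) hz) a
  have hΨ2 := TrR_line (TrR_da hU (TrR_cd hU (TrR_cd hU h.smooth)) hz) a
  have hG' := TrR_line ((TrR_da hU' h.metG'.smooth hz').comp z hΨ) a
  have hG1' := TrR_line ((TrR_da hU' (TrR_cd hU' h.metG'.smooth) hz').comp z hΨ) a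
  have c : ∀ x : E, HasDerivAt (fun _ : ℝ => x) 0 0 := fun x => hasDerivAt_const 0 x
  have L := ((hG1.clm_apply (c b)).clm_apply (c u)).clm_apply (c v)
  have hΨb := hΨ1.clm_apply (c b)
  have hΨu := hΨ1.clm_apply (c u)
  have hΨv := hΨ1.clm_apply (c v)
  have hΨbu := (hΨ2.clm_apply (c b)).clm_apply (c u)
  have hΨbv := (hΨ2.clm_apply (c b)).clm_apply (c v)
  have R := ((((hG1'.clm_apply hΨb).clm_apply hΨu).clm_apply hΨv).add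
    ((hG'.clm_apply hΨbu).clm_apply hΨv)).add ((hG'.clm_apply hΨu).clm_apply hΨbv)
  have hev : ∀ᶠ t : ℝ in 𝓝 0, z + t • a ∈ U := by
    have hc : ContinuousAt (fun t : ℝ => z + t • a) 0 := by fun_prop
    have : U ∈ 𝓝 (z + (0:ℝ) • a) := by
      rw [zero_smul, add_zero]
      exact hU.mem_nhds hz
    exact hc.preimage_mem_nhds this
  have L' := L.congr_of_eventuallyEq (f₁ := _) (hev.mono fun t ht => (Tr.fd h ht b u v).symm)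
  have key := L'.unique R
  simp only [Function.comp_apply, zero_smul, add_zero, map_zero, _root_.add_apply,
    ContinuousLinearMap.comp_apply] at key
  rw [key]

/-- The curvature does not depend on the coordinates.
Proof. Write `u_ = DΨ u`, `uv_ = D²Ψ(u, v)`, `uuv_ = D³Ψ(u, u, v)` (all symmetric), `G'` etc. at
`Ψ z`. Differentiating `Tr.fd` once more (it holds on the open set `U`):
`D²G(a, b)(u, v) = D²G'(a_, b_)(u_, v_) + DG'(ab_)(u_, v_) + DG'(b_)(au_, v_) + DG'(b_)(u_, av_)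
 + DG'(a_)(bu_, v_) + G'(abu_, v_) + G'(bu_, av_) + DG'(a_)(u_, bv_) + G'(au_, bv_) + G'(u_, abv_)`.
Hence `2 D²G(u,v)(u,v) - D²G(u,u)(v,v) - D²G(v,v)(u,u)` is the same expression for `G'` and `u_`,
`v_`, plus (the third derivatives cancel)
`2 DG'(uv_)(u_, v_) - DG'(uu_)(v_, v_) - DG'(vv_)(u_, u_)`
`+ 2 [DG'(v_)(uu_, v_) + DG'(v_)(u_, uv_) + DG'(u_)(uv_, v_) + DG'(u_)(u_, vv_)]`
`- 4 DG'(u_)(uv_, v_) - 4 DG'(v_)(uv_, u_) + 2 G'(uv_, uv_) + 2 G'(uu_, vv_) - 4 G'(uv_, uv_)`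
`= - 4 chr'(u_, v_)(uv_) + 2 chr'(u_, u_)(vv_) + 2 chr'(v_, v_)(uu_) - 2 G'(uv_, uv_)
+ 2 G'(uu_, vv_)`, and by `Tr.gam_tr`, `Tr.chr_tr`, `gam_spec`:
`G(Γuv, Γuv) = G'(Γ'uv + uv_, Γ'uv + uv_) = G'(Γ'uv, Γ'uv) + 2 chr'(u_, v_)(uv_) + G'(uv_, uv_)`,
`G(Γuu, Γvv) = G'(Γ'uu, Γ'vv) + chr'(u_, u_)(vv_) + chr'(v_, v_)(uu_) + G'(uu_, vv_)`. Sum up.
(Alternatively use the identity `sv` of the file SV in both coordinates.) -/
theorem Tr.rm_tr (h : Tr U G U' G' Ψ) (hz : z ∈ U) (u v : E) :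
    Rm G z u v = Rm G' (Ψ z) (fderiv ℝ Ψ z u) (fderiv ℝ Ψ z v) := by
  have hU := h.metG.isOpen
  have hz' := h.maps z hz
  have s1 : ∀ z ∈ U, ∀ a b, fderiv ℝ (fderiv ℝ Ψ) z a b = fderiv ℝ (fderiv ℝ Ψ) z b a :=
    fun z hz a b => (((h.smooth z hz).contDiffAt (hU.mem_nhds hz)).isSymmSndFDerivAt
      TrR_two) a b
  have s2 : ∀ a b c, fderiv ℝ (fderiv ℝ (fderiv ℝ Ψ)) z a b c =
      fderiv ℝ (fderiv ℝ (fderiv ℝ Ψ)) z b a c := fun a b c => by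
    have h1 := ((((TrR_cd hU h.smooth) z hz).contDiffAt (hU.mem_nhds hz)).isSymmSndFDerivAt
      TrR_two) a b
    rw [h1]
  have s3 : ∀ a b c, fderiv ℝ (fderiv ℝ (fderiv ℝ Ψ)) z a b c =
      fderiv ℝ (fderiv ℝ (fderiv ℝ Ψ)) z a c b := fun a b c => by
    have hΨ2 := TrR_line (TrR_da hU (TrR_cd hU (TrR_cd hU h.smooth)) hz) a
    have cc : ∀ x : E, HasDerivAt (fun _ : ℝ => x) 0 0 := fun x => hasDerivAt_const 0 x
    have hbc := (hΨ2.clm_apply (cc b)).clm_apply (cc c)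
    have hcb := (hΨ2.clm_apply (cc c)).clm_apply (cc b)
    have hev : ∀ᶠ t : ℝ in 𝓝 0, z + t • a ∈ U := by
      have hc : ContinuousAt (fun t : ℝ => z + t • a) 0 := by fun_prop
      have : U ∈ 𝓝 (z + (0:ℝ) • a) := by
        rw [zero_smul, add_zero]
        exact hU.mem_nhds hz
      exact hc.preimage_mem_nhds this
    have h1 := (hbc.congr_of_eventuallyEq (f₁ := _)
      (hev.mono fun t ht => (s1 _ ht b c).symm)).unique hcb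
    simpa using h1
  have g1 : G z (Gam G z u v) (Gam G z u v) = G' (Ψ z)
      (Gam G' (Ψ z) (fderiv ℝ Ψ z u) (fderiv ℝ Ψ z v) + fderiv ℝ (fderiv ℝ Ψ) z u v)
      (Gam G' (Ψ z) (fderiv ℝ Ψ z u) (fderiv ℝ Ψ z v) + fderiv ℝ (fderiv ℝ Ψ) z u v) := by
    rw [h.pull z hz, h.gam_tr hz]
  have g2 : G z (Gam G z u u) (Gam G z v v) = G' (Ψ z)
      (Gam G' (Ψ z) (fderiv ℝ Ψ z u) (fderiv ℝ Ψ z u) + fderiv ℝ (fderiv ℝ Ψ) z u u)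
      (Gam G' (Ψ z) (fderiv ℝ Ψ z v) (fderiv ℝ Ψ z v) + fderiv ℝ (fderiv ℝ Ψ) z v v) := by
    rw [h.pull z hz, h.gam_tr hz, h.gam_tr hz]
  have ss := h.metG'.symm (Ψ z) hz'
  have fs := fun a b c => fd_symm h.metG' hz' a b c
  have k1 := gam_spec h.metG' hz' (fderiv ℝ Ψ z u) (fderiv ℝ Ψ z v)
    (fderiv ℝ (fderiv ℝ Ψ) z u v)
  have k2 := gam_spec h.metG' hz' (fderiv ℝ Ψ z u) (fderiv ℝ Ψ z u)
    (fderiv ℝ (fderiv ℝ Ψ) z v v)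
  have k3 := gam_spec h.metG' hz' (fderiv ℝ Ψ z v) (fderiv ℝ Ψ z v)
    (fderiv ℝ (fderiv ℝ Ψ) z u u)
  rw [chr_apply] at k1 k2 k3
  unfold Rm
  rw [g1, g2, TrR_dd h hz u v u v, TrR_dd h hz u u v v, TrR_dd h hz v v u u]
  simp only [map_add, _root_.add_apply]
  rw [s1 z hz v u, s3 u v u, s2 u v v, s3 v u v]
  rw [ss (fderiv ℝ (fderiv ℝ Ψ) z u v) (Gam G' (Ψ z) (fderiv ℝ Ψ z u) (fderiv ℝ Ψ z v)),
    ss (fderiv ℝ (fderiv ℝ Ψ) z u u) (Gam G' (Ψ z) (fderiv ℝ Ψ z v) (fderiv ℝ Ψ z v)),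
    k1, k2, k3]
  rw [fs (fderiv ℝ Ψ z u) (fderiv ℝ (fderiv ℝ Ψ) z u v) (fderiv ℝ Ψ z v),
    fs (fderiv ℝ Ψ z v) (fderiv ℝ (fderiv ℝ Ψ) z u v) (fderiv ℝ Ψ z u),
    fs (fderiv ℝ Ψ z v) (fderiv ℝ (fderiv ℝ Ψ) z u u) (fderiv ℝ Ψ z v),
    ss (fderiv ℝ (fderiv ℝ (fderiv ℝ Ψ)) z u u v) (fderiv ℝ Ψ z v),
    ss (fderiv ℝ (fderiv ℝ (fderiv ℝ Ψ)) z v v u) (fderiv ℝ Ψ z u)]
  ring

end Pool.Agent.Lib.MP_6fca61_gt
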