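import Pool.Agent.Lib.MP_6fca61_gt.ChT
import Pool.Agent.Lib.MP_6fca61_gt.TrR

/-!
# MP_6fca61_gt (project PW): the curvature in arbitrary charts
-/

set_option autoImplicit false
set_option maxSynthPendingDepth 3

open scoped Manifold ContDiff Topology

namespace Pool.Agent.Lib.MP_6fca61_gt

variable {E : Type*} [NormedAddCommGroup E] [NormedSpace ℝ E] [FiniteDimensional ℝ E]
variable {M : Type*} [TopologicalSpace M] [ChartedSpace E M] [IsManifold 𝓘(ℝ, E) ∞ M]
variable {g : Fam E M} {e : OpenPartialHomeomorph M E} {p : M}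

/-- Proof. `tr_ch` for `e` and `chartAt E p` at `z = e p`, `Tr.rm_tr`, `fd_ch`, `dch_chartAt`. -/
theorem curv_ch (hg : GF g) (he : e ∈ IsManifold.maximalAtlas 𝓘(ℝ, E) ∞ M)
    (hp : p ∈ e.source) (u v : E) :
    curv g p u v = Rm (locG g e) (e p) (dch e p u) (dch e p v) := by
  have hc : chartAt E p ∈ IsManifold.maximalAtlas 𝓘(ℝ, E) ∞ M :=
    IsManifold.chart_mem_maximalAtlas p
  have hpc : p ∈ (chartAt E p).source := mem_chart_source E p
  have ht := tr_ch hg hc he
  have hz : chartAt E p p ∈ ((chartAt E p).symm.trans e).source := by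
    refine ⟨(chartAt E p).map_source hpc, ?_⟩
    show (chartAt E p).symm (chartAt E p p) ∈ e.source
    rw [(chartAt E p).left_inv hpc]
    exact hp
  have h1 := ht.rm_tr hz u v
  have h2 := fd_ch hc he hpc hp u
  have h3 := fd_ch hc he hpc hp v
  rw [dch_chartAt] at h2 h3
  have h4 : ((chartAt E p).symm.trans e) (chartAt E p p) = e p := by
    show e ((chartAt E p).symm (chartAt E p p)) = e p
    rw [(chartAt E p).left_inv hpc]
  rw [h2, h3, h4] at h1
  exact h1

end Pool.Agent.Lib.MP_6fca61_gt
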