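import Pool.Agent.Lib.MP_6fca61_gt.GamS

/-!
# MP_6fca61_gt (project PW): horizontal lifts
-/

set_option autoImplicit false
set_option maxSynthPendingDepth 3

open scoped Manifold ContDiff Topology

namespace Pool.Agent.Lib.MP_6fca61_gt

variable {E : Type*} [NormedAddCommGroup E] [NormedSpace ℝ E] [FiniteDimensional ℝ E]
variable {E' : Type*} [NormedAddCommGroup E'] [NormedSpace ℝ E'] [FiniteDimensional ℝ E']
variable {U : Set E} {G : E → E →L[ℝ] E →L[ℝ] ℝ} {V : Set E'}
  {H : E' → E' →L[ℝ] E' →L[ℝ] ℝ} {pl : E →L[ℝ] E'} {z : E}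

private theorem HorS_dec (h : LS U G V H pl) (hz : z ∈ U) (w : E) :
    ∃ a k : E, w = a + k ∧ pl k = 0 ∧ ∀ k', pl k' = 0 → G z a k' = 0 := by
  let K : Submodule ℝ E := LinearMap.ker (pl : E →ₗ[ℝ] E')
  let T : K →ₗ[ℝ] Module.Dual ℝ K :=
    { toFun := fun u => ((G z (u : E) : E →L[ℝ] ℝ) : E →ₗ[ℝ] ℝ) ∘ₗ K.subtype
      map_add' := fun u v => by ext w; simp
      map_smul' := fun c u => by ext w; simp }
  have hinj : Function.Injective T := by
    rw [← LinearMap.ker_eq_bot, LinearMap.ker_eq_bot']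
    intro u hu
    have h1 : G z (u : E) (u : E) = 0 := congrArg (fun l : Module.Dual ℝ K => l u) hu
    by_contra hne
    have h2 : (u : E) ≠ 0 := fun h3 => hne (Subtype.ext h3)
    exact absurd h1 (h.metG.pos z hz _ h2).ne'
  have hsurj : Function.Surjective T :=
    (LinearMap.injective_iff_surjective_of_finrank_eq_finrank
      (Subspace.dual_finrank_eq (K := ℝ) (V := K)).symm).1 hinj
  obtain ⟨k, hk⟩ := hsurj (((G z w : E →L[ℝ] ℝ) : E →ₗ[ℝ] ℝ) ∘ₗ K.subtype)
  refine ⟨w - k, k, (sub_add_cancel _ _).symm, k.2, fun k' hk' => ?_⟩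
  have h1 : G z (k : E) k' = G z w k' :=
    congrArg (fun l : Module.Dual ℝ K => l ⟨k', hk'⟩) hk
  rw [map_sub, sub_apply, h1, sub_self]

private theorem HorS_pol (h : LS U G V H pl) (hz : z ∈ U) {a b : E}
    (ha : ∀ k, pl k = 0 → G z a k = 0) (hb : ∀ k, pl k = 0 → G z b k = 0) :
    G z a b = H (pl z) (pl a) (pl b) := by
  have h1 := h.sub z hz a ha
  have h2 := h.sub z hz b hb
  have h3 := h.sub z hz (a + b) (fun k hk => by
    rw [map_add, add_apply, ha k hk, hb k hk, add_zero])
  simp only [map_add, add_apply] at h3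
  have h4 := h.metG.symm z hz a b
  have h5 := h.metH.symm (pl z) (h.maps z hz) (pl a) (pl b)
  linarith

private theorem HorS_all (h : LS U G V H pl) (hz : z ∈ U) {a : E}
    (ha : ∀ k, pl k = 0 → G z a k = 0) (w : E) : G z a w = H (pl z) (pl a) (pl w) := by
  obtain ⟨b, k, rfl, hk, hb⟩ := HorS_dec h hz w
  rw [map_add, ha k hk, add_zero, map_add, hk, add_zero, HorS_pol h hz ha hb]

/-- Proof. Let `w₀` be a vector with `pl w₀ = x` (`surj`); subtract its `G z`-orthogonal
projection to `ker pl` (exists: finite dimension, `G z` positive definite): `w₁` with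
`pl w₁ = x`, `G z w₁ k = 0` for `pl k = 0`. For horizontal `a, b` polarisation of `h.sub` gives
`G z a b = H (pl z) (pl a) (pl b)`. Every `w` is the sum of a horizontal vector and an element of
`ker pl`, so `G z w₁ w = H (pl z) x (pl w)` for all `w`; by the definition of `hor` and
`Met.inv_spec` the vector `hor G H pl z x` has the same products, so it is `w₁` (`Met.ext`). -/
theorem hor_spec (h : LS U G V H pl) (hz : z ∈ U) (x : E') (w : E) :
    G z (hor G H pl z x) w = H (pl z) x (pl w) := by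
  have h1 := h.metG.inv_spec hz (((ContinuousLinearMap.compL ℝ E E' ℝ).flip pl) (H (pl z) x))
  exact congrArg (fun l : E →L[ℝ] ℝ => l w) h1

theorem pl_hor (h : LS U G V H pl) (hz : z ∈ U) (x : E') : pl (hor G H pl z x) = x := by
  have h1 : ∀ k, pl k = 0 → G z (hor G H pl z x) k = 0 := fun k hk => by
    rw [hor_spec h hz, hk, map_zero]
  refine h.metH.ext (h.maps z hz) fun v => ?_
  obtain ⟨w, rfl⟩ := h.surj v
  rw [← HorS_all h hz h1, hor_spec h hz]

theorem hor_unique (h : LS U G V H pl) (hz : z ∈ U) {w : E} (hw : ∀ k, pl k = 0 → G z w k = 0) :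
    hor G H pl z (pl w) = w := by
  refine h.metG.ext hz fun v => ?_
  rw [hor_spec h hz, HorS_all h hz hw]

/-- Proof. `w = hor (pl w) + k`, `pl k = 0`; the two parts are orthogonal. -/
theorem G_split (h : LS U G V H pl) (hz : z ∈ U) (w : E) : G z w w = H (pl z) (pl w) (pl w) +
    G z (w - hor G H pl z (pl w)) (w - hor G H pl z (pl w)) := by
  set a := hor G H pl z (pl w) with ha
  have h1 : pl (w - a) = 0 := by rw [map_sub, ha, pl_hor h hz, sub_self]
  have h2 : G z a (w - a) = 0 := by rw [ha, hor_spec h hz, ← ha, h1, map_zero]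
  have h3 : G z (w - a) a = 0 := by rw [h.metG.symm z hz, h2]
  have h4 : G z a a = H (pl z) (pl w) (pl w) := by
    rw [ha, hor_spec h hz, pl_hor h hz]
  rw [← h4]
  have h5 : G z w w = G z (a + (w - a)) (a + (w - a)) := by rw [add_sub_cancel]
  rw [h5]
  simp only [map_add, add_apply, h2, h3]
  ring

/-- Proof. `Met.smooth_inv` and the smoothness of `H`, `z ↦ H (pl z)`. -/
theorem hor_smooth (h : LS U G V H pl) : ContDiffOn ℝ ∞ (hor G H pl) U := by
  have h1 : ContDiffOn ℝ ∞ (fun z => H (pl z)) U :=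
    h.metH.smooth.comp pl.contDiff.contDiffOn (fun z hz => h.maps z hz)
  exact h.metG.smooth_inv.clm_comp (contDiffOn_const.clm_comp h1)

/-- Proof. `pl (hor z' y) = y` is constant on `U`. -/
theorem pl_fhor (h : LS U G V H pl) (hz : z ∈ U) (a : E) (y : E') :
    pl (fderiv ℝ (hor G H pl) z a y) = 0 := by
  have hd : DifferentiableAt ℝ (hor G H pl) z :=
    ((hor_smooth h).differentiableOn (by simp)).differentiableAt (h.metG.isOpen.mem_nhds hz)
  have h1 : HasFDerivAt (fun z' => pl (hor G H pl z' y))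
      (pl.comp ((ContinuousLinearMap.apply ℝ E y).comp (fderiv ℝ (hor G H pl) z))) z :=
    pl.hasFDerivAt.comp z ((ContinuousLinearMap.apply ℝ E y).hasFDerivAt.comp z hd.hasFDerivAt)
  have h2 : HasFDerivAt (fun z' => pl (hor G H pl z' y)) (0 : E →L[ℝ] E') z := by
    refine (hasFDerivAt_const y z).congr_of_eventuallyEq ?_
    filter_upwards [h.metG.isOpen.mem_nhds hz] with z' hz'
    exact pl_hor h hz' y
  exact congrArg (fun l : E →L[ℝ] E' => l a) (h1.unique h2)

end Pool.Agent.Lib.MP_6fca61_gt
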