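import Pool.Agent.Lib.MP_6fca61_gt.Loc

/-!
# MP_6fca61_gt (project PW): existence of product charts
-/

set_option autoImplicit false
set_option maxSynthPendingDepth 3

open scoped Manifold ContDiff Topology

namespace Pool.Agent.Lib.MP_6fca61_gt

variable {E : Type*} [NormedAddCommGroup E] [NormedSpace ℝ E] [FiniteDimensional ℝ E]
variable {E' : Type*} [NormedAddCommGroup E'] [NormedSpace ℝ E'] [FiniteDimensional ℝ E']
variable {M : Type*} [TopologicalSpace M] [ChartedSpace E M] [IsManifold 𝓘(ℝ, E) ∞ M]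
variable {B : Type*} [TopologicalSpace B] [ChartedSpace E' B] [IsManifold 𝓘(ℝ, E') ∞ B]
variable {π : M → B}

omit [FiniteDimensional ℝ E] [FiniteDimensional ℝ E'] [IsManifold 𝓘(ℝ, E) ∞ M]
  [IsManifold 𝓘(ℝ, E') ∞ B] in
/-- Proof. Unfold `Manifold.IsSubmersion`, `IsSubmersionAtOfComplement`,
`LiftSourceTargetPropertyAt`, `SubmersionAtProp`: charts `e`, `e'` and `equiv : E ≃L E' × F` with
`e' ∘ π ∘ e.symm = Prod.fst ∘ equiv` on `e.target`; `pl = fst ∘ equiv`. -/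
theorem pc_ex (hs : Manifold.IsSubmersion 𝓘(ℝ, E) 𝓘(ℝ, E') ∞ π) (p : M) :
    ∃ (e : OpenPartialHomeomorph M E) (e' : OpenPartialHomeomorph B E') (pl : E →L[ℝ] E'),
      PC π e e' pl ∧ p ∈ e.source := by
  obtain ⟨F, hF1, hF2, hs⟩ := hs
  obtain ⟨e, e', hp, hp', he, he', hmaps, equiv, heq⟩ := hs p
  refine ⟨e, e', (ContinuousLinearMap.fst ℝ E' F).comp (equiv : E →L[ℝ] E' × F),
    ⟨he, he', fun q hq => hmaps hq, fun q hq => ?_, fun y => ?_⟩, hp⟩
  · have h1 : (e.extend 𝓘(ℝ, E)) q ∈ (e.extend 𝓘(ℝ, E)).target :=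
      (e.extend 𝓘(ℝ, E)).map_source (by simpa using hq)
    have h2 := heq h1
    simp only [Function.comp_apply] at h2
    rw [(e.extend 𝓘(ℝ, E)).left_inv (by simpa using hq)] at h2
    simpa using h2
  · exact ⟨equiv.symm (y, 0), by simp⟩

end Pool.Agent.Lib.MP_6fca61_gt
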