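import Pool.Agent.Lib.MP_6fca61_gt.PCd
import Pool.Agent.Lib.MP_6fca61_gt.HorS
import Pool.Agent.Lib.MP_6fca61_gt.PCex

/-!
# MP_6fca61_gt (project PW): horizontal lifts on the manifold
-/

set_option autoImplicit false
set_option maxSynthPendingDepth 3

open scoped Manifold ContDiff Topology

namespace Pool.Agent.Lib.MP_6fca61_gt

variable {E : Type*} [NormedAddCommGroup E] [NormedSpace ℝ E] [FiniteDimensional ℝ E]
variable {E' : Type*} [NormedAddCommGroup E'] [NormedSpace ℝ E'] [FiniteDimensional ℝ E']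
variable {M : Type*} [TopologicalSpace M] [ChartedSpace E M] [IsManifold 𝓘(ℝ, E) ∞ M]
variable {B : Type*} [TopologicalSpace B] [ChartedSpace E' B] [IsManifold 𝓘(ℝ, E') ∞ B]
variable {g : Fam E M} {h : Fam E' B} {π : M → B}
variable {e : OpenPartialHomeomorph M E} {e' : OpenPartialHomeomorph B E'} {pl : E →L[ℝ] E'}
  {p : M}

/-- Proof. In a product chart at `p` (`pc_ex`): `w ↦ dch e p w` transforms `g p` into
`locG g e (e p)` (`g_loc`), `h (π p)` into `locG h e' (e' (π p))`, `dpi` into `pl` (`PC.d`); the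
vector `dsy e (e p) (hor .. (dch e' (π p) x))` has the products required (`hor_spec`), and
`liftM` is the only one (`(g p).inverse`; `g p` is positive definite, so invertible). -/
theorem lift_spec (hg : GF g) (hh : GF h) (hπ : IsRiemSubm g h π) (p : M) (x : E') (w : E) :
    g p (liftM g h π p x) w = h (π p) x (dpi E E' π p w) := by
  have hM : Met (Set.univ : Set E) (fun _ => (show E →L[ℝ] E →L[ℝ] ℝ from g p)) :=
    ⟨isOpen_univ, contDiffOn_const, fun _ _ u v => hg.symm p u v, fun _ _ u hu => hg.pos p u hu⟩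
  have h1 := hM.inv_spec (z := 0) (Set.mem_univ _)
    ((h (π p) x : E' →L[ℝ] ℝ).comp (dpi E E' π p))
  exact congrArg (fun l : E →L[ℝ] ℝ => l w) h1

private theorem LiftS_dch (hg : GF g) (hh : GF h) (hπ : IsRiemSubm g h π) (hc : PC π e e' pl)
    (hp : p ∈ e.source) (x : E') : dch e p (liftM g h π p x) =
      hor (locG g e) (locG h e') pl (e p) (dch e' (π p) x) := by
  have hz : e p ∈ e.target := e.map_source hp
  refine (hg.met hc.he).ext hz fun w => ?_
  have hls := hc.ls hg hh hπ
  rw [hor_spec hls hz]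
  have h1 : dch e p (dsy e (e p) w) = w := by
    have h2 := dch_dsy hc.he hz w
    rwa [e.left_inv hp] at h2
  have h2 := g_loc (g := g) hc.he hp (liftM g h π p x) (dsy e (e p) w)
  rw [h1] at h2
  refine h2.symm.trans ?_
  have h3 := lift_spec hg hh hπ p x (dsy e (e p) w)
  refine h3.trans ?_
  have h4 := g_loc (g := h) hc.he' (hc.maps p hp) x (dpi E E' π p (dsy e (e p) w))
  refine h4.trans ?_
  rw [hc.d hπ.subm hp, h1, hc.eq p hp]

theorem dpi_lift (hg : GF g) (hh : GF h) (hπ : IsRiemSubm g h π) (p : M) (x : E') :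
    dpi E E' π p (liftM g h π p x) = x := by
  obtain ⟨e, e', pl, hc, hp⟩ := pc_ex hπ.subm p
  have h1 := hc.d hπ.subm hp (liftM g h π p x)
  rw [LiftS_dch hg hh hπ hc hp x, pl_hor (hc.ls hg hh hπ) (e.map_source hp)] at h1
  have h2 := dsy_dch hc.he' (hc.maps p hp) (dpi E E' π p (liftM g h π p x))
  rw [h1, dsy_dch hc.he' (hc.maps p hp)] at h2
  exact h2.symm

theorem dch_lift (hg : GF g) (hh : GF h) (hπ : IsRiemSubm g h π) (hc : PC π e e' pl)
    (hp : p ∈ e.source) (x : E') : dch e p (liftM g h π p x) =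
      hor (locG g e) (locG h e') pl (e p) (dch e' (π p) x) := by
  exact LiftS_dch hg hh hπ hc hp x

theorem hor_lift (hg : GF g) (hh : GF h) (hπ : IsRiemSubm g h π) (p : M) (x : E') :
    Hor E' g π p (liftM g h π p x) := by
  intro w hw
  have h1 := lift_spec hg hh hπ p x w
  have h2 : dpi E E' π p w = 0 := hw
  rw [h2] at h1
  exact h1.trans (map_zero _)

end Pool.Agent.Lib.MP_6fca61_gt
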