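import Pool.Agent.Lib.MP_6fca61_gt.Fst

/-!
# MP_6fca61_gt (project PW): the covariant derivative of horizontal fields
-/

set_option autoImplicit false
set_option maxSynthPendingDepth 3

open scoped Manifold ContDiff Topology

namespace Pool.Agent.Lib.MP_6fca61_gt

variable {E : Type*} [NormedAddCommGroup E] [NormedSpace ℝ E] [FiniteDimensional ℝ E]
variable {E' : Type*} [NormedAddCommGroup E'] [NormedSpace ℝ E'] [FiniteDimensional ℝ E']
variable {U : Set E} {G : E → E →L[ℝ] E →L[ℝ] ℝ} {V : Set E'}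
  {H : E' → E' →L[ℝ] E' →L[ℝ] ℝ} {pl : E →L[ℝ] E'} {z : E}

/-- differentiating `G(hor y, k) = 0` -/
private theorem Cov_key (h : LS U G V H pl) (hz : z ∈ U) (a : E) (y : E') {k : E}
    (hk : pl k = 0) :
    fderiv ℝ G z a (hor G H pl z y) k + G z (fderiv ℝ (hor G H pl) z a y) k = 0 := by
  have hU := h.metG.isOpen.mem_nhds hz
  have hd : DifferentiableAt ℝ (hor G H pl) z :=
    ((hor_smooth h).differentiableOn (by simp)).differentiableAt hU
  have hG : DifferentiableAt ℝ G z :=
    (h.metG.smooth.differentiableOn (by simp)).differentiableAt hU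
  have h1 : HasFDerivAt (fun z' => hor G H pl z' y)
      ((ContinuousLinearMap.apply ℝ E y).comp (fderiv ℝ (hor G H pl) z)) z :=
    (ContinuousLinearMap.apply ℝ E y).hasFDerivAt.comp z hd.hasFDerivAt
  have h2 := (hG.hasFDerivAt.clm_apply h1).clm_apply (hasFDerivAt_const k z)
  have h3 : HasFDerivAt (fun z' => G z' (hor G H pl z' y) k) (0 : E →L[ℝ] ℝ) z := by
    refine (hasFDerivAt_const (0 : ℝ) z).congr_of_eventuallyEq ?_
    filter_upwards [hU] with z' hz'
    rw [hor_spec h hz', hk, map_zero]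
  have h4 := congrArg (fun l : E →L[ℝ] ℝ => l a) (h2.unique h3)
  have h5 : G z (hor G H pl z y) ((0 : E →L[ℝ] E) a) +
      (G z (fderiv ℝ (hor G H pl) z a y) k + fderiv ℝ G z a (hor G H pl z y) k) = 0 := h4
  rw [zero_apply, map_zero, zero_add] at h5
  rw [add_comm]
  exact h5

private theorem Cov_avec (h : LS U G V H pl) (hz : z ∈ U) (x y : E') :
    pl (avec G H pl z x y) = 0 := by
  unfold avec
  rw [map_smul, map_sub, pl_fhor h hz, pl_fhor h hz, sub_self, smul_zero]

/-- Proof. Let `D` be the left side. Pairing with `hor u`: `G(D hor(hor x) y, hor u)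
= H(pl .., u) = 0` (`pl_fhor`), `G(hor(-Γ_H(x, y)), hor u) = -chr_H(x, y, u)`, `G(Γ_G(hor x,
hor y), hor u) = chr_G(hor x, hor y, hor u) = chr_H(x, y, u)` (`chr_hor`); sum `0`, and
`G(avec, hor u) = H(pl avec, u) = 0`. Pairing with `k`, `pl k = 0`: differentiating
`G(hor y, k) = 0` (on `U`, `hor_spec`) in the direction `hor x`: `DG(hor x)(hor y, k)
+ G(D hor(hor x) y, k) = 0`, and with `x`, `y` exchanged; `chr_G(hor x, hor y, k)
= (DG(hor x)(hor y, k) + DG(hor y)(hor x, k) - DG(k)(hor x, hor y))/2`, the last term is `0`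
(`fst`, `pl k = 0`). So `G(D, k) = G(D hor(hor x) y, k) - G(D hor(hor x) y + D hor(hor y) x, k)/2
= G(avec, k)`. -/
theorem cov_hor (h : LS U G V H pl) (hz : z ∈ U) (x y : E') :
    fderiv ℝ (hor G H pl) z (hor G H pl z x) y + hor G H pl z (-Gam H (pl z) x y) +
      Gam G z (hor G H pl z x) (hor G H pl z y) = avec G H pl z x y := by
  have hV := h.maps z hz
  have hh : ∀ w, ∀ u, G z w (hor G H pl z u) = H (pl z) u (pl w) := fun w u => by
    rw [h.metG.symm z hz, hor_spec h hz]
  have hhor : ∀ u k, pl k = 0 → G z (hor G H pl z u) k = 0 := fun u k hk => by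
    rw [hor_spec h hz, hk, map_zero]
  refine h.metG.ext hz fun w => ?_
  obtain ⟨k, hk, hw⟩ : ∃ k, pl k = 0 ∧ w = hor G H pl z (pl w) + k := by
    refine ⟨w - hor G H pl z (pl w), ?_, (add_sub_cancel _ _).symm⟩
    rw [map_sub, pl_hor h hz, sub_self]
  obtain ⟨u, hu⟩ : ∃ u, u = pl w := ⟨_, rfl⟩
  rw [← hu] at hw
  -- horizontal part
  have e1 : G z (fderiv ℝ (hor G H pl) z (hor G H pl z x) y) (hor G H pl z u) = 0 := by
    rw [hh, pl_fhor h hz, map_zero]
  have e2 : G z (hor G H pl z (-Gam H (pl z) x y)) (hor G H pl z u) = - chr H (pl z) x y u := by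
    rw [hor_spec h hz, pl_hor h hz, map_neg, neg_apply, gam_spec h.metH hV]
  have e3 : G z (Gam G z (hor G H pl z x) (hor G H pl z y)) (hor G H pl z u) =
      chr H (pl z) x y u := by
    rw [gam_spec h.metG hz, chr_hor h hz]
  have e4 : G z (avec G H pl z x y) (hor G H pl z u) = 0 := by
    rw [hh, Cov_avec h hz, map_zero]
  -- vertical part
  have f2 : G z (hor G H pl z (-Gam H (pl z) x y)) k = 0 := hhor _ k hk
  have f3 : G z (Gam G z (hor G H pl z x) (hor G H pl z y)) k =
      (fderiv ℝ G z (hor G H pl z x) (hor G H pl z y) k +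
        fderiv ℝ G z (hor G H pl z y) (hor G H pl z x) k) / 2 := by
    rw [gam_spec h.metG hz, chr_apply, fst h hz (hhor x) (hhor y) k, hk, map_zero,
      zero_apply, zero_apply, sub_zero]
  have g1 := Cov_key h hz (hor G H pl z x) y hk
  have g2 := Cov_key h hz (hor G H pl z y) x hk
  have f4 : G z (avec G H pl z x y) k =
      (G z (fderiv ℝ (hor G H pl) z (hor G H pl z x) y) k -
        G z (fderiv ℝ (hor G H pl) z (hor G H pl z y) x) k) / 2 := by
    unfold avec
    rw [map_smul, map_sub, smul_apply, sub_apply, smul_eq_mul]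
    ring
  rw [hw]
  simp only [map_add, add_apply, e1, e2, e3, e4, f2, f3, f4]
  linarith

/-- Proof. `pl_fhor`. -/
theorem pl_avec (h : LS U G V H pl) (hz : z ∈ U) (x y : E') : pl (avec G H pl z x y) = 0 :=
  Cov_avec h hz x y

end Pool.Agent.Lib.MP_6fca61_gt
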