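import Pool.Agent.Lib.MP_6fca61_gt.Fst

/-!
# MP_6fca61_gt (project PW): horizontal lifts of geodesics are geodesics
-/

set_option autoImplicit false
set_option maxSynthPendingDepth 3

open scoped Manifold ContDiff Topology

namespace Pool.Agent.Lib.MP_6fca61_gt

variable {E : Type*} [NormedAddCommGroup E] [NormedSpace ℝ E] [FiniteDimensional ℝ E]
variable {E' : Type*} [NormedAddCommGroup E'] [NormedSpace ℝ E'] [FiniteDimensional ℝ E']
variable {U : Set E} {G : E → E →L[ℝ] E →L[ℝ] ℝ} {V : Set E'}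
  {H : E' → E' →L[ℝ] E' →L[ℝ] ℝ} {pl : E →L[ℝ] E'}

/-- Proof. Put `Z s = hor (z s) (v s)`. It is differentiable at `t` (`hor_smooth`). For a fixed
`w`, `G (z s) (Z s) w = H (pl (z s)) (v s) (pl w)` for `s` near `t` (`hor_spec`; `U` is open).
Differentiate at `t`: `DG(Z)(Z, w) + G(Z', w) = DH(v)(v, pl w) + H(v', pl w)` (as `pl Z = v`), and
`H(v', pl w) = -chr_H(v, v, pl w) = -DH(v)(v, pl w) + DH(pl w)(v, v)/2`, `DH(pl w)(v, v) =
DG(w)(Z, Z)` (`fst`). So `G(Z', w) = -DG(Z)(Z, w) + DG(w)(Z, Z)/2 = -chr_G(Z, Z, w)`. -/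
theorem geo (h : LS U G V H pl) {z : ℝ → E} {v : ℝ → E'} {t : ℝ} (hz : z t ∈ U)
    (h1 : HasDerivAt z (hor G H pl (z t) (v t)) t)
    (h2 : HasDerivAt v (-Gam H (pl (z t)) (v t) (v t)) t) :
    HasDerivAt (fun s => hor G H pl (z s) (v s))
      (-Gam G (z t) (hor G H pl (z t) (v t)) (hor G H pl (z t) (v t))) t := by
  have hU : U ∈ 𝓝 (z t) := h.metG.isOpen.mem_nhds hz
  have hplz := h.maps _ hz
  have hhor : HasFDerivAt (hor G H pl) (fderiv ℝ (hor G H pl) (z t)) (z t) :=
    (((hor_smooth h).contDiffAt hU).differentiableAt (by simp)).hasFDerivAt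
  have h3 : HasDerivAt (fun s => hor G H pl (z s))
      (fderiv ℝ (hor G H pl) (z t) (hor G H pl (z t) (v t))) t := hhor.comp_hasDerivAt t h1
  have h4 := h3.clm_apply h2
  obtain ⟨Z', hZ'⟩ : ∃ Z', Z' = fderiv ℝ (hor G H pl) (z t) (hor G H pl (z t) (v t)) (v t) +
      hor G H pl (z t) (-Gam H (pl (z t)) (v t) (v t)) := ⟨_, rfl⟩
  rw [← hZ'] at h4
  have hplz' : HasDerivAt (fun s => pl (z s)) (v t) t := by
    have h5 := pl.hasFDerivAt.comp_hasDerivAt t h1
    rw [pl_hor h hz] at h5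
    exact h5
  have key : Z' = -Gam G (z t) (hor G H pl (z t) (v t)) (hor G H pl (z t) (v t)) := by
    refine h.metG.ext hz fun w => ?_
    have h6 := Fst_der h.metG hz h1 h4 (hasDerivAt_const t w)
    have h7 := Fst_der h.metH hplz hplz' h2 (hasDerivAt_const t (pl w))
    rw [map_zero, add_zero] at h6 h7
    have h8 : (fun s => G (z s) (hor G H pl (z s) (v s)) w) =ᶠ[𝓝 t]
        fun s => H (pl (z s)) (v s) (pl w) := by
      filter_upwards [h1.continuousAt hU] with s hs
      exact hor_spec h hs (v s) w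
    have h9 := (h6.congr_of_eventuallyEq h8.symm).unique h7
    have e1 : H (pl (z t)) (-Gam H (pl (z t)) (v t) (v t)) (pl w) =
        -chr H (pl (z t)) (v t) (v t) (pl w) := by
      rw [map_neg, ← gam_spec h.metH hplz]
      rfl
    have e2 : G (z t) (-Gam G (z t) (hor G H pl (z t) (v t)) (hor G H pl (z t) (v t))) w =
        -chr G (z t) (hor G H pl (z t) (v t)) (hor G H pl (z t) (v t)) w := by
      rw [map_neg, ← gam_spec h.metG hz]
      rfl
    have e3 := fst h hz (Fst_hor h hz (v t)) (Fst_hor h hz (v t)) w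
    rw [pl_hor h hz] at e3
    rw [e1, chr_apply] at h9
    rw [e2, chr_apply, e3]
    linarith
  rw [← key]
  exact h4

end Pool.Agent.Lib.MP_6fca61_gt
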