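import Pool.Agent.Lib.MP_6fca61_gt.HorS

/-!
# MP_6fca61_gt (project PW): comparison of the second variations
-/

set_option autoImplicit false
set_option maxSynthPendingDepth 3

open scoped Manifold ContDiff Topology

namespace Pool.Agent.Lib.MP_6fca61_gt

variable {E : Type*} [NormedAddCommGroup E] [NormedSpace ℝ E] [FiniteDimensional ℝ E]
variable {E' : Type*} [NormedAddCommGroup E'] [NormedSpace ℝ E'] [FiniteDimensional ℝ E']
variable {U : Set E} {G : E → E →L[ℝ] E →L[ℝ] ℝ} {V : Set E'}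
  {H : E' → E' →L[ℝ] E' →L[ℝ] ℝ} {pl : E →L[ℝ] E'} {z : E}

omit [FiniteDimensional ℝ E] in
private theorem Sec2_line {X : Type*} [NormedAddCommGroup X] [NormedSpace ℝ X] {f : E → X}
    (hU : IsOpen U) (hf : ContDiffOn ℝ ∞ f U) (hz : z ∈ U) (W : E) :
    (∀ᶠ s in 𝓝 (0 : ℝ), z + s • W ∈ U ∧
      HasDerivAt (fun s : ℝ => f (z + s • W)) (fderiv ℝ f (z + s • W) W) s) ∧
    HasDerivAt (fun s : ℝ => fderiv ℝ f (z + s • W) W) (fderiv ℝ (fderiv ℝ f) z W W) 0 := by
  have hl : ∀ s : ℝ, HasDerivAt (fun s : ℝ => z + s • W) W s := by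
    intro s
    have h1 := ((hasDerivAt_id s).smul_const W).const_add z
    rw [one_smul] at h1
    exact h1
  have hc : ContinuousAt (fun s : ℝ => z + s • W) 0 := (hl 0).continuousAt
  have h0 : z + (0 : ℝ) • W = z := by rw [zero_smul, add_zero]
  have hmem : ∀ᶠ s in 𝓝 (0 : ℝ), z + s • W ∈ U := by
    refine hc ?_
    beta_reduce
    rw [h0]
    exact hU.mem_nhds hz
  refine ⟨?_, ?_⟩
  · filter_upwards [hmem] with s hs
    have h1 : DifferentiableAt ℝ f (z + s • W) :=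
      (hf.differentiableOn (by simp)).differentiableAt (hU.mem_nhds hs)
    exact ⟨hs, h1.hasFDerivAt.comp_hasDerivAt s (hl s)⟩
  · have h1 : ContDiffAt ℝ ∞ f z := hf.contDiffAt (hU.mem_nhds hz)
    have h2 : ContDiffAt ℝ 1 (fderiv ℝ f) z := h1.fderiv_right (by norm_cast)
    have h3 : DifferentiableAt ℝ (fderiv ℝ f) (z + (0 : ℝ) • W) := by
      rw [h0]
      exact h2.differentiableAt (by simp)
    have h4 := (h3.hasFDerivAt.comp_hasDerivAt (0 : ℝ) (hl 0)).clm_apply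
      (hasDerivAt_const (0 : ℝ) W)
    rw [h0, map_zero, add_zero] at h4
    exact h4

omit [FiniteDimensional ℝ E] in
private theorem Sec2_quad {F F₁ : ℝ → E →L[ℝ] E →L[ℝ] ℝ} {F₂ : E →L[ℝ] E →L[ℝ] ℝ}
    {a a₁ : ℝ → E} {a₂ : E} (hF : ∀ᶠ s in 𝓝 (0 : ℝ), HasDerivAt F (F₁ s) s)
    (hF₁ : HasDerivAt F₁ F₂ 0) (ha : ∀ᶠ s in 𝓝 (0 : ℝ), HasDerivAt a (a₁ s) s)
    (ha₁ : HasDerivAt a₁ a₂ 0) :
    (∀ᶠ s in 𝓝 (0 : ℝ), HasDerivAt (fun s => F s (a s) (a s))
      ((F₁ s (a s) + F s (a₁ s)) (a s) + F s (a s) (a₁ s)) s) ∧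
    HasDerivAt (fun s => (F₁ s (a s) + F s (a₁ s)) (a s) + F s (a s) (a₁ s))
      ((F₂ (a 0) + F₁ 0 (a₁ 0) + (F₁ 0 (a₁ 0) + F 0 a₂)) (a 0) +
        (F₁ 0 (a 0) + F 0 (a₁ 0)) (a₁ 0) +
        ((F₁ 0 (a 0) + F 0 (a₁ 0)) (a₁ 0) + F 0 (a 0) a₂)) 0 := by
  have hF0 := hF.self_of_nhds
  have ha0 := ha.self_of_nhds
  refine ⟨?_, ?_⟩
  · filter_upwards [hF, ha] with s h1 h2
    exact (h1.clm_apply h2).clm_apply h2
  · exact (((hF₁.clm_apply ha0).add (hF0.clm_apply ha₁)).clm_apply ha0).add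
      ((hF0.clm_apply ha0).clm_apply ha₁)

/-- Proof. By `G_split`, `N(s) = G(z + s W)(w + s W', w + s W') - H(pl(..))(pl(..), pl(..))` is
`G(z + s W)(ν(s), ν(s))`, `ν(s) = (w + s W') - hor(z + s W)(pl w + s pl W')`, for small `s`.
`ν(0) = 0` (`hor_unique`) and `ν'(0) = W' - hor z (pl W') - D hor(W)(pl w)`. The second
derivative of `N` at `0` is `2 (e2 G .. - e2 H ..)` on the one hand and `2 G z (ν'(0), ν'(0))` on
the other hand. (One can work with difference quotients or with `iteratedDeriv`, e.g. compare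
`N(s) = N(0) + s N'(0) + s² N''(0)/2 + o(s²)` with `N(s) = s² G z (ν'(0), ν'(0)) + o(s²)`.) -/
theorem sec2 (h : LS U G V H pl) (hz : z ∈ U) {w : E} (hw : ∀ k, pl k = 0 → G z w k = 0)
    (W W' : E) : e2 G z W w W' = e2 H (pl z) (pl W) (pl w) (pl W') +
      G z (W' - hor G H pl z (pl W') - fderiv ℝ (hor G H pl) z W (pl w))
        (W' - hor G H pl z (pl W') - fderiv ℝ (hor G H pl) z W (pl w)) := by
  obtain ⟨hG, hG₁⟩ := Sec2_line h.metG.isOpen h.metG.smooth hz W
  obtain ⟨hH, hH₁⟩ := Sec2_line h.metH.isOpen h.metH.smooth (h.maps z hz) (pl W)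
  obtain ⟨hR, hR₁⟩ := Sec2_line h.metG.isOpen (hor_smooth h) hz W
  have hla : ∀ s : ℝ, HasDerivAt (fun s : ℝ => w + s • W') W' s := by
    intro s
    have h1 := ((hasDerivAt_id s).smul_const W').const_add w
    rw [one_smul] at h1
    exact h1
  have hlb : ∀ s : ℝ, HasDerivAt (fun s : ℝ => pl w + s • pl W') (pl W') s := by
    intro s
    have h1 := ((hasDerivAt_id s).smul_const (pl W')).const_add (pl w)
    rw [one_smul] at h1
    exact h1
  -- the vector `ν`
  have hν : ∀ᶠ s in 𝓝 (0 : ℝ), HasDerivAt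
      (fun s : ℝ => (w + s • W') - hor G H pl (z + s • W) (pl w + s • pl W'))
      (W' - (fderiv ℝ (hor G H pl) (z + s • W) W (pl w + s • pl W') +
        hor G H pl (z + s • W) (pl W'))) s := by
    filter_upwards [hR] with s hs
    exact (hla s).sub (hs.2.clm_apply (hlb s))
  have hν₁ : HasDerivAt (fun s : ℝ =>
      (W' - (fderiv ℝ (hor G H pl) (z + s • W) W (pl w + s • pl W') +
        hor G H pl (z + s • W) (pl W')))) _ 0 :=
    ((hasDerivAt_const (0 : ℝ) W').sub ((hR₁.clm_apply (hlb 0)).add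
      (hR.self_of_nhds.2.clm_apply (hasDerivAt_const (0 : ℝ) (pl W')))))
  obtain ⟨q1, r1⟩ := Sec2_quad (hG.mono fun s hs => hs.2) hG₁
    (Filter.Eventually.of_forall hla) (hasDerivAt_const (0 : ℝ) W')
  obtain ⟨q2, r2⟩ := Sec2_quad (hH.mono fun s hs => hs.2) hH₁
    (Filter.Eventually.of_forall hlb) (hasDerivAt_const (0 : ℝ) (pl W'))
  obtain ⟨q3, r3⟩ := Sec2_quad (hG.mono fun s hs => hs.2) hG₁ hν hν₁
  have hid : ∀ᶠ s in 𝓝 (0 : ℝ), G (z + s • W) (w + s • W') (w + s • W') =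
      H (pl z + s • pl W) (pl w + s • pl W') (pl w + s • pl W') +
      G (z + s • W) ((w + s • W') - hor G H pl (z + s • W) (pl w + s • pl W'))
        ((w + s • W') - hor G H pl (z + s • W) (pl w + s • pl W')) := by
    filter_upwards [hG] with s hs
    have h1 := G_split h hs.1 (w + s • W')
    simp only [map_add, map_smul] at h1 ⊢
    exact h1
  have hid2 := hid.eventually_nhds
  have key := (r2.add r3).unique (r1.congr_of_eventuallyEq (by
    filter_upwards [hid2, q1, q2, q3] with s hs h1 h2 h3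
    exact (h2.add h3).unique (h1.congr_of_eventuallyEq (by
      filter_upwards [hs] with t ht
      exact ht.symm))))
  have e0 : z + (0 : ℝ) • W = z := by rw [zero_smul, add_zero]
  have e1 : pl z + (0 : ℝ) • pl W = pl z := by rw [zero_smul, add_zero]
  have e2' : w + (0 : ℝ) • W' = w := by rw [zero_smul, add_zero]
  have e3 : pl w + (0 : ℝ) • pl W' = pl w := by rw [zero_smul, add_zero]
  rw [e0, e1, e2', e3, hor_unique h hz hw, sub_self] at key
  simp only [map_zero, add_zero, zero_add, add_apply, zero_apply] at key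
  have s1 := fd_symm h.metG hz W W' w
  have s2 := fd_symm h.metH (h.maps z hz) (pl W) (pl W') (pl w)
  have e4 : W' - hor G H pl z (pl W') - fderiv ℝ (hor G H pl) z W (pl w) =
      W' - (fderiv ℝ (hor G H pl) z W (pl w) + hor G H pl z (pl W')) := by abel
  rw [e4]
  unfold e2
  linarith

end Pool.Agent.Lib.MP_6fca61_gt
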