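import Pool.Agent.Lib.MP_6fca61_gt.SV
import Pool.Agent.Lib.MP_6fca61_gt.Sec2
import Pool.Agent.Lib.MP_6fca61_gt.Geo
import Pool.Agent.Lib.MP_6fca61_gt.Cov

/-!
# MP_6fca61_gt (project PW): the formula of O Neill
-/

set_option autoImplicit false
set_option maxSynthPendingDepth 3

open scoped Manifold ContDiff Topology

namespace Pool.Agent.Lib.MP_6fca61_gt

variable {E : Type*} [NormedAddCommGroup E] [NormedSpace ℝ E] [FiniteDimensional ℝ E]
variable {E' : Type*} [NormedAddCommGroup E'] [NormedSpace ℝ E'] [FiniteDimensional ℝ E']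
variable {U : Set E} {G : E → E →L[ℝ] E →L[ℝ] ℝ} {V : Set E'}
  {H : E' → E' →L[ℝ] E' →L[ℝ] ℝ} {pl : E →L[ℝ] E'} {z : E}

private theorem ON_avec_symm (x y : E') : avec G H pl z y x = - avec G H pl z x y := by
  unfold avec
  rw [← smul_neg, neg_sub]

private theorem ON_line {F : Type*} [NormedAddCommGroup F] [NormedSpace ℝ F] (a b : F) :
    HasDerivAt (fun s : ℝ => a + s • b) b 0 := by
  have h1 : HasDerivAt (fun s : ℝ => s • b) ((1 : ℝ) • b) 0 := (hasDerivAt_id (0 : ℝ)).smul_const b
  rw [one_smul] at h1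
  exact h1.const_add a

private theorem ON_aux (h : LS U G V H pl) (hz : z ∈ U) (x y : E') : Rm H (pl z) y x =
    Rm G z (hor G H pl z y) (hor G H pl z x) +
      3 * G z (avec G H pl z x y) (avec G H pl z x y) := by
  -- the curves
  set zc : ℝ → E := fun s => z + s • hor G H pl z x with hzc
  set vc : ℝ → E' := fun s => x + s • (-Gam H (pl z) x x) with hvc
  set yc : ℝ → E' := fun s => y + s • (-Gam H (pl z) x y) with hyc
  have z0 : zc 0 = z := by simp [hzc]
  have v0 : vc 0 = x := by simp [hvc]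
  have y0 : yc 0 = y := by simp [hyc]
  have dz : HasDerivAt zc (hor G H pl z x) 0 := ON_line z (hor G H pl z x)
  have dv : HasDerivAt vc (-Gam H (pl z) x x) 0 := ON_line x (-Gam H (pl z) x x)
  have dy : HasDerivAt yc (-Gam H (pl z) x y) 0 := ON_line y (-Gam H (pl z) x y)
  have hz0 : zc 0 ∈ U := by rw [z0]; exact hz
  -- the lifts
  have dZ : HasDerivAt (fun s => hor G H pl (zc s) (vc s))
      (-Gam G (zc 0) (hor G H pl (zc 0) (vc 0)) (hor G H pl (zc 0) (vc 0))) 0 := by
    refine geo h hz0 ?_ ?_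
    · rw [z0, v0]
      exact dz
    · rw [z0, v0]
      exact dv
  have hD : HasFDerivAt (hor G H pl) (fderiv ℝ (hor G H pl) z) (zc 0) := by
    rw [z0]
    have h1 : DifferentiableAt ℝ (hor G H pl) z :=
      (hor_smooth h).differentiableOn (by simp) |>.differentiableAt (h.metG.isOpen.mem_nhds hz)
    exact h1.hasFDerivAt
  have dh : HasDerivAt (fun s => hor G H pl (zc s))
      (fderiv ℝ (hor G H pl) z (hor G H pl z x)) 0 := hD.comp_hasDerivAt 0 dz
  have dW : HasDerivAt (fun s => hor G H pl (zc s) (yc s))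
      (fderiv ℝ (hor G H pl) z (hor G H pl z x) y + hor G H pl z (-Gam H (pl z) x y)) 0 := by
    have h1 := dh.clm_apply dy
    rw [y0, z0] at h1
    exact h1
  -- the second variation identities
  have sG := sv h.metG hz0 (Z := fun s => hor G H pl (zc s) (vc s))
    (W := fun s => hor G H pl (zc s) (yc s)) (by
      change HasDerivAt zc (hor G H pl (zc 0) (vc 0)) 0
      rw [z0, v0]
      exact dz) dZ dW
  have sH := sv h.metH (z := fun s => pl (zc s)) (Z := vc) (W := yc) (t := 0)
    (h.maps _ hz0) (by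
      rw [v0]
      have h1 : HasDerivAt (fun s => pl (zc s)) (pl (hor G H pl z x)) 0 :=
        pl.hasFDerivAt.comp_hasDerivAt 0 dz
      rw [pl_hor h hz] at h1
      exact h1) (by
      change HasDerivAt vc (-Gam H (pl (zc 0)) (vc 0) (vc 0)) 0
      rw [v0, z0]
      exact dv) dy
  have hev : (fun s => chr G (zc s) (hor G H pl (zc s) (yc s)) (hor G H pl (zc s) (yc s))
      (hor G H pl (zc s) (vc s))) =ᶠ[𝓝 0] fun s => chr H (pl (zc s)) (yc s) (yc s) (vc s) := by
    have h1 : ∀ᶠ s in 𝓝 (0 : ℝ), zc s ∈ U :=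
      dz.continuousAt.eventually_mem (h.metG.isOpen.mem_nhds hz0)
    filter_upwards [h1] with s hs
    exact chr_hor h hs _ _ _
  have hE := (sG.congr_of_eventuallyEq hev.symm).unique sH
  simp only [z0, v0, y0] at hE
  -- simplification
  have e1 : fderiv ℝ (hor G H pl) z (hor G H pl z x) y + hor G H pl z (-Gam H (pl z) x y) +
      Gam G z (hor G H pl z x) (hor G H pl z y) = avec G H pl z x y := cov_hor h hz x y
  have e2' : -Gam H (pl z) x y + Gam H (pl z) x y = 0 := neg_add_cancel _
  have e3 := sec2 h hz (w := hor G H pl z x)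
    (fun k hk => by rw [hor_spec h hz, hk, map_zero]) (hor G H pl z y)
    (fderiv ℝ (hor G H pl) z (hor G H pl z x) y + hor G H pl z (-Gam H (pl z) x y))
  have e4 : pl (fderiv ℝ (hor G H pl) z (hor G H pl z x) y +
      hor G H pl z (-Gam H (pl z) x y)) = -Gam H (pl z) x y := by
    rw [map_add, pl_fhor h hz, pl_hor h hz, zero_add]
  have e5 : fderiv ℝ (hor G H pl) z (hor G H pl z x) y + hor G H pl z (-Gam H (pl z) x y) -
      hor G H pl z (-Gam H (pl z) x y) - fderiv ℝ (hor G H pl) z (hor G H pl z y) x =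
      (2 : ℝ) • avec G H pl z x y := by
    unfold avec
    rw [smul_smul, add_sub_cancel_right]
    norm_num
  rw [e4, pl_hor h hz, pl_hor h hz, e5] at e3
  rw [e1, e2', e3] at hE
  simp only [map_smul, ContinuousLinearMap.smul_apply, smul_eq_mul, map_zero,
    ContinuousLinearMap.zero_apply] at hE
  linarith

/-- Proof. At the time `0` use the curves `z(s) = z + s hor z x`, `v(s) = x - s Γ_H(x, x)`,
`Z(s) = hor (z(s)) (v(s))` (`geo` gives `Z'(0)`), `y(s) = y - s Γ_H(x, y)`, `W(s) = hor (z(s))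
(y(s))`, `W'(0) = D hor(hor x) y + hor(-Γ_H(x, y))`. By `tau_hor` the function
`chr_H(y(s), y(s), v(s)) - chr_G(W(s), W(s), Z(s))` is `0` near `s = 0`, and by `sv` for `H` and
`G` its derivative at `0` is `e2_H - H(Dy, Dy) + Rm_H(y, x) - e2_G + G(DW, DW) - Rm_G(hor y,
hor x)`, with `Dy = 0`, `DW = avec x y` (`cov_hor`) and, by `sec2` (with `W' - hor(pl W')
- D hor(hor y) x = D hor(hor x) y - D hor(hor y) x = 2 avec x y`), `e2_G - e2_H = 4 G(avec, avec)`.
So `Rm_H(y, x) = Rm_G(hor y, hor x) + 3 G(avec, avec)`; `Rm` is symmetric in its two arguments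
(symmetry of `D²G` and of `Γ`), or exchange the roles of `x` and `y` (`avec y x = -avec x y`). -/
theorem oneill (h : LS U G V H pl) (hz : z ∈ U) (x y : E') : Rm H (pl z) x y =
    Rm G z (hor G H pl z x) (hor G H pl z y) +
      3 * G z (avec G H pl z x y) (avec G H pl z x y) := by
  rw [ON_aux h hz y x, ON_avec_symm x y]
  simp only [map_neg, ContinuousLinearMap.neg_apply, neg_neg]

end Pool.Agent.Lib.MP_6fca61_gt
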