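import Pool.Agent.Lib.MP_6fca61_gt.TrH

/-!
# MP_6fca61_gt (project PW): change of coordinates, the vector of O Neill
-/

set_option autoImplicit false
set_option maxSynthPendingDepth 3

open scoped Manifold ContDiff Topology

namespace Pool.Agent.Lib.MP_6fca61_gt

variable {E : Type*} [NormedAddCommGroup E] [NormedSpace ℝ E] [FiniteDimensional ℝ E]
variable {E' : Type*} [NormedAddCommGroup E'] [NormedSpace ℝ E'] [FiniteDimensional ℝ E']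
variable {U U₁ : Set E} {G G₁ : E → E →L[ℝ] E →L[ℝ] ℝ} {V V₁ : Set E'}
  {H H₁ : E' → E' →L[ℝ] E' →L[ℝ] ℝ} {pl pl₁ : E →L[ℝ] E'} {Ψ : E → E} {ψ : E' → E'} {z : E}

/-- The derivative of `LTr.hor_tr` in the direction `hor x`. -/
private theorem TrA_key (h : LTr U G V H pl U₁ G₁ V₁ H₁ pl₁ Ψ ψ) (hz : z ∈ U) (x y : E') :
    fderiv ℝ (hor G₁ H₁ pl₁) (Ψ z) (hor G₁ H₁ pl₁ (Ψ z) (fderiv ℝ ψ (pl z) x))
        (fderiv ℝ ψ (pl z) y) +
      hor G₁ H₁ pl₁ (Ψ z) (fderiv ℝ (fderiv ℝ ψ) (pl z) x y) =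
    fderiv ℝ (fderiv ℝ Ψ) z (hor G H pl z x) (hor G H pl z y) +
      fderiv ℝ Ψ z (fderiv ℝ (hor G H pl) z (hor G H pl z x) y) := by
  have hU : U ∈ 𝓝 z := h.tM.metG.isOpen.mem_nhds hz
  have hz' : Ψ z ∈ U₁ := h.tM.maps z hz
  have d1 : HasFDerivAt (hor G H pl) (fderiv ℝ (hor G H pl) z) z :=
    (((hor_smooth h.ls).differentiableOn (by simp)).differentiableAt hU).hasFDerivAt
  have d2 : HasFDerivAt (hor G₁ H₁ pl₁) (fderiv ℝ (hor G₁ H₁ pl₁) (Ψ z)) (Ψ z) :=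
    (((hor_smooth h.ls').differentiableOn (by simp)).differentiableAt
      (h.ls'.metG.isOpen.mem_nhds hz')).hasFDerivAt
  have d3 := TrH_diff h.tM hz
  have d4 := TrH_diff h.tB (h.ls.maps z hz)
  have e1 : HasFDerivAt (fun z' => hor G₁ H₁ pl₁ (Ψ z')) _ z := d2.comp z d3.1
  have e2 : HasFDerivAt (fun z' => fderiv ℝ ψ (pl z')) _ z := d4.2.comp z pl.hasFDerivAt
  have e3 : HasFDerivAt (fun z' => fderiv ℝ ψ (pl z') y) _ z :=
    e2.clm_apply (hasFDerivAt_const y z)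
  have e4 : HasFDerivAt (fun z' => hor G₁ H₁ pl₁ (Ψ z') (fderiv ℝ ψ (pl z') y)) _ z :=
    e1.clm_apply e3
  have e5 : HasFDerivAt (fun z' => hor G H pl z' y) _ z := d1.clm_apply (hasFDerivAt_const y z)
  have e6 : HasFDerivAt (fun z' => fderiv ℝ Ψ z' (hor G H pl z' y)) _ z := d3.2.clm_apply e5
  have e7 : (fun z' => fderiv ℝ Ψ z' (hor G H pl z' y)) =ᶠ[𝓝 z]
      fun z' => hor G₁ H₁ pl₁ (Ψ z') (fderiv ℝ ψ (pl z') y) := by
    filter_upwards [hU] with z' hz'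
    exact (h.hor_tr hz' y).symm
  have e8 := (e4.congr_of_eventuallyEq e7).unique e6
  have e9 := DFunLike.congr_fun e8 (hor G H pl z x)
  simp [pl_hor h.ls hz] at e9
  rw [h.hor_tr hz x]
  rw [add_comm, e9, add_comm]

/-- Proof. Differentiate `LTr.hor_tr` (`hor₁ (Ψ z) (Dψ(pl z) y) = DΨ(z) (hor z y)` on `U`) in the
direction `a = hor z x`, `pl a = x`: `(D hor₁)(DΨ a)(Dψ y) + hor₁(D²ψ(x, y)) = D²Ψ(a, hor y)
+ DΨ(D hor(a) y)`, `DΨ a = hor₁(Dψ x)`. Antisymmetrise in `x, y`; `D²ψ` and `D²Ψ` are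
symmetric. -/
theorem LTr.avec_tr (h : LTr U G V H pl U₁ G₁ V₁ H₁ pl₁ Ψ ψ) (hz : z ∈ U) (x y : E') :
    avec G₁ H₁ pl₁ (Ψ z) (fderiv ℝ ψ (pl z) x) (fderiv ℝ ψ (pl z) y) =
      fderiv ℝ Ψ z (avec G H pl z x y) := by
  have h1 := TrA_key h hz x y
  have h2 := TrA_key h hz y x
  have hU : U ∈ 𝓝 z := h.tM.metG.isOpen.mem_nhds hz
  have hV : V ∈ 𝓝 (pl z) := h.tB.metG.isOpen.mem_nhds (h.ls.maps z hz)
  have c1 : ContDiffAt ℝ ∞ Ψ z := h.tM.smooth.contDiffAt hU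
  have c2 : ContDiffAt ℝ ∞ ψ (pl z) := h.tB.smooth.contDiffAt hV
  have hm : minSmoothness ℝ 2 ≤ (∞ : WithTop ℕ∞) := by
    rw [minSmoothness_of_isRCLikeNormedField]
    exact WithTop.coe_le_coe.2 le_top
  have s1 : IsSymmSndFDerivAt ℝ Ψ z := c1.isSymmSndFDerivAt hm
  have s2 : IsSymmSndFDerivAt ℝ ψ (pl z) := c2.isSymmSndFDerivAt hm
  rw [s1.eq (hor G H pl z y) (hor G H pl z x), s2.eq y x] at h2
  unfold avec
  rw [map_smul, map_sub]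
  congr 1
  rw [← eq_sub_iff_add_eq] at h1 h2
  rw [h1, h2]
  abel

end Pool.Agent.Lib.MP_6fca61_gt
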