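import Pool.Agent.Lib.MP_6fca61_gt.PCtr
import Pool.Agent.Lib.MP_6fca61_gt.TrA
import Pool.Agent.Lib.MP_6fca61_gt.LiftS
import Pool.Agent.Lib.MP_6fca61_gt.ON
import Pool.Agent.Lib.MP_6fca61_gt.CurvM

/-!
# MP_6fca61_gt (project PW): the vector of O Neill on the manifold
-/

set_option autoImplicit false
set_option maxSynthPendingDepth 3

open scoped Manifold ContDiff Topology

namespace Pool.Agent.Lib.MP_6fca61_gt

variable {E : Type*} [NormedAddCommGroup E] [NormedSpace ℝ E] [FiniteDimensional ℝ E]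
variable {E' : Type*} [NormedAddCommGroup E'] [NormedSpace ℝ E'] [FiniteDimensional ℝ E']
variable {M : Type*} [TopologicalSpace M] [ChartedSpace E M] [IsManifold 𝓘(ℝ, E) ∞ M]
variable {B : Type*} [TopologicalSpace B] [ChartedSpace E' B] [IsManifold 𝓘(ℝ, E') ∞ B]
variable {g : Fam E M} {h : Fam E' B} {π : M → B}
variable {e : OpenPartialHomeomorph M E} {e' : OpenPartialHomeomorph B E'} {pl : E →L[ℝ] E'}
  {p : M}

/-- Proof. `LTr.avec_tr` for the chosen product chart and `(e, e', pl)` (`PC.ltr`, `fd_ch`,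
`dch_dsy`). -/
theorem avecM_eq (hg : GF g) (hh : GF h) (hπ : IsRiemSubm g h π) (hc : PC π e e' pl)
    (hp : p ∈ e.source) (x y : E') : dch e p (avecM g h π p x y) =
      avec (locG g e) (locG h e') pl (e p) (dch e' (π p) x) (dch e' (π p) y) := by
  have hp' : ∃ c : OpenPartialHomeomorph M E × OpenPartialHomeomorph B E' × (E →L[ℝ] E'),
      PC π c.1 c.2.1 c.2.2 ∧ p ∈ c.1.source := ⟨(e, e', pl), hc, hp⟩
  rw [avecM, dif_pos hp']
  obtain ⟨hc1, hp1⟩ := hp'.choose_spec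
  generalize hp'.choose = c at hc1 hp1
  have ht := hc1.ltr hg hh hπ hc
  have hz : c.1 p ∈ (c.1.symm.trans e).source := by
    refine ⟨c.1.map_source hp1, ?_⟩
    show c.1.symm (c.1 p) ∈ e.source
    rw [c.1.left_inv hp1]
    exact hp
  have h1 := ht.avec_tr hz (dch c.2.1 (π p) x) (dch c.2.1 (π p) y)
  have h3 := fd_ch hc1.he' hc.he' (hc1.maps p hp1) (hc.maps p hp) x
  have h5 := fd_ch hc1.he' hc.he' (hc1.maps p hp1) (hc.maps p hp) y
  have h4 : (c.1.symm.trans e) (c.1 p) = e p := by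
    show e (c.1.symm (c.1 p)) = e p
    rw [c.1.left_inv hp1]
  rw [← hc1.eq p hp1, h3, h5, h4] at h1
  rw [h1]
  have h6 := dch_dsy (M := M) hc1.he (c.1.map_source hp1)
    (avec (locG g c.1) (locG h c.2.1) c.2.2 (c.1 p) (dch c.2.1 (π p) x) (dch c.2.1 (π p) y))
  rw [c.1.left_inv hp1] at h6
  have h2 := fd_ch hc1.he hc.he hp1 hp (dsy c.1 (c.1 p)
    (avec (locG g c.1) (locG h c.2.1) c.2.2 (c.1 p) (dch c.2.1 (π p) x) (dch c.2.1 (π p) y)))
  rw [h6] at h2
  exact h2.symm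

/-- Proof. `avecM_eq`, `PC.d`, `pl_avec`, injectivity of `dch`. -/
theorem dpi_avecM (hg : GF g) (hh : GF h) (hπ : IsRiemSubm g h π) (p : M) (x y : E') :
    dpi E E' π p (avecM g h π p x y) = 0 := by
  obtain ⟨e, e', pl, hc, hp⟩ := pc_ex (E := E) (E' := E') hπ.subm p
  have h1 := hc.d hπ.subm hp (avecM g h π p x y)
  rw [avecM_eq hg hh hπ hc hp, pl_avec (hc.ls hg hh hπ) (e.map_source hp)] at h1
  have h2 := dsy_dch hc.he' (hc.maps p hp) (dpi E E' π p (avecM g h π p x y))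
  rw [h1, map_zero] at h2
  exact h2.symm

/-- Proof. `oneill` in a product chart at `p`, `curv_ch` for `g` and `h`, `dch_lift`,
`avecM_eq`, `g_loc`, `PC.eq`. -/
theorem oneillM (hg : GF g) (hh : GF h) (hπ : IsRiemSubm g h π) (p : M) (x y : E') :
    curv h (π p) x y = curv g p (liftM g h π p x : E) (liftM g h π p y : E) +
      3 * g p (avecM g h π p x y : E) (avecM g h π p x y : E) := by
  obtain ⟨e, e', pl, hc, hp⟩ := pc_ex (E := E) (E' := E') hπ.subm p
  have h1 := oneill (hc.ls hg hh hπ) (e.map_source hp) (dch e' (π p) x) (dch e' (π p) y)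
  rw [← hc.eq p hp] at h1
  rw [curv_ch hh hc.he' (hc.maps p hp) x y, h1,
    curv_ch hg hc.he hp (liftM g h π p x) (liftM g h π p y),
    dch_lift hg hh hπ hc hp x, dch_lift hg hh hπ hc hp y,
    g_loc hc.he hp (avecM g h π p x y) (avecM g h π p x y), avecM_eq hg hh hπ hc hp]

end Pool.Agent.Lib.MP_6fca61_gt
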