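import Pool.Agent.Lib.MP_6fca61_gt.Loc

/-!
# MP_6fca61_gt (project PW): charts and tangent vectors
-/

set_option autoImplicit false
set_option maxSynthPendingDepth 3

open scoped Manifold ContDiff Topology

namespace Pool.Agent.Lib.MP_6fca61_gt

variable {E : Type*} [NormedAddCommGroup E] [NormedSpace ℝ E] [FiniteDimensional ℝ E]
variable {M : Type*} [TopologicalSpace M] [ChartedSpace E M] [IsManifold 𝓘(ℝ, E) ∞ M]
variable {g : Fam E M} {e : OpenPartialHomeomorph M E} {p : M} {z : E}

omit [FiniteDimensional ℝ E] in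
/-- Proof. `e.symm ∘ e = id` near `p`, chain rule for `mfderiv`
(`mdifferentiableAt_of_mem_maximalAtlas`, `contMDiffOn_of_mem_maximalAtlas`,
`contMDiffOn_symm_of_mem_maximalAtlas`). -/
theorem dsy_dch (he : e ∈ IsManifold.maximalAtlas 𝓘(ℝ, E) ∞ M) (hp : p ∈ e.source) (u : E) :
    dsy e (e p) (dch e p u) = u := by
  have h1 : MDifferentiableAt 𝓘(ℝ, E) 𝓘(ℝ, E) e p :=
    (contMDiffAt_of_mem_maximalAtlas he hp).mdifferentiableAt (by simp)
  have h2 : MDifferentiableAt 𝓘(ℝ, E) 𝓘(ℝ, E) e.symm (e p) :=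
    (contMDiffAt_symm_of_mem_maximalAtlas he (e.map_source hp)).mdifferentiableAt (by simp)
  have h3 := mfderiv_comp p h2 h1
  have h4 : (e.symm ∘ e : M → M) =ᶠ[nhds p] id := by
    filter_upwards [e.open_source.mem_nhds hp] with q hq
    exact e.left_inv hq
  rw [h4.mfderiv_eq, mfderiv_id] at h3
  have h5 := congrArg (fun L => L u) h3
  exact h5.symm

omit [FiniteDimensional ℝ E] in
theorem dch_dsy (he : e ∈ IsManifold.maximalAtlas 𝓘(ℝ, E) ∞ M) (hz : z ∈ e.target) (u : E) :
    dch e (e.symm z) (dsy e z u) = u := by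
  have h1 : MDifferentiableAt 𝓘(ℝ, E) 𝓘(ℝ, E) e (e.symm z) :=
    (contMDiffAt_of_mem_maximalAtlas he (e.map_target hz)).mdifferentiableAt (by simp)
  have h2 : MDifferentiableAt 𝓘(ℝ, E) 𝓘(ℝ, E) e.symm z :=
    (contMDiffAt_symm_of_mem_maximalAtlas he hz).mdifferentiableAt (by simp)
  have h3 := mfderiv_comp z h1 h2
  have h4 : (e ∘ e.symm : E → E) =ᶠ[nhds z] id := by
    filter_upwards [e.open_target.mem_nhds hz] with q hq
    exact e.right_inv hq
  rw [h4.mfderiv_eq, mfderiv_id] at h3
  have h5 := congrArg (fun L => L u) h3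
  exact h5.symm

omit [FiniteDimensional ℝ E] in
/-- Proof. `dsy_dch`. -/
theorem g_loc (he : e ∈ IsManifold.maximalAtlas 𝓘(ℝ, E) ∞ M) (hp : p ∈ e.source) (u v : E) :
    g p u v = locG g e (e p) (dch e p u) (dch e p v) := by
  have h1 := dsy_dch he hp u
  have h2 := dsy_dch he hp v
  show g p u v = g (e.symm (e p)) (dsy e (e p) (dch e p u)) (dsy e (e p) (dch e p v))
  rw [h1, h2, e.left_inv hp]

omit [FiniteDimensional ℝ E] in
/-- Proof. By definition of `locG`; `dsy e z` is injective (`dch_dsy`). -/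
theorem GF.met (hg : GF g) (he : e ∈ IsManifold.maximalAtlas 𝓘(ℝ, E) ∞ M) :
    Met e.target (locG g e) := by
  refine ⟨e.open_target, hg.smooth e he, fun z _ u v => ?_, fun z hz u hu => ?_⟩
  · exact hg.symm (e.symm z) (dsy e z u) (dsy e z v)
  · refine hg.pos (e.symm z) (dsy e z u) fun h0 => hu ?_
    have h1 := dch_dsy he hz u
    rw [h0, map_zero] at h1
    exact h1.symm

omit [FiniteDimensional ℝ E] in
/-- Proof. The differential of the preferred chart at `p` is the identity (Mathlib:
`mfderiv_chartAt_eq_tangentCoordChange`, `tangentBundleCore_coordChange_achart`, or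
`TangentBundle` API; the tangent space at `p` is identified with `E` by this chart). -/
theorem dch_chartAt (p : M) (u : E) : dch (chartAt E p) p u = u := by
  have h1 : MDifferentiableAt 𝓘(ℝ, E) 𝓘(ℝ, E) (chartAt E p) p :=
    (contMDiffAt_of_mem_maximalAtlas (IsManifold.chart_mem_maximalAtlas (n := ∞) p)
      (mem_chart_source E p)).mdifferentiableAt (by simp)
  have h2 : dch (chartAt E p) p = ContinuousLinearMap.id ℝ E := by
    show mfderiv 𝓘(ℝ, E) 𝓘(ℝ, E) (chartAt E p) p = _
    rw [h1.mfderiv]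
    have h3 : fderivWithin ℝ (writtenInExtChartAt 𝓘(ℝ, E) 𝓘(ℝ, E) p (chartAt E p))
        (Set.range 𝓘(ℝ, E)) (extChartAt 𝓘(ℝ, E) p p) =
        fderivWithin ℝ (id : E → E) (Set.range 𝓘(ℝ, E)) (extChartAt 𝓘(ℝ, E) p p) := by
      refine Filter.EventuallyEq.fderivWithin_eq ?_ ?_
      · have h4 : (chartAt E p).target ∈ nhdsWithin (extChartAt 𝓘(ℝ, E) p p)
            (Set.range 𝓘(ℝ, E)) := by
          refine mem_nhdsWithin_of_mem_nhds ?_
          simpa using (chartAt E p).open_target.mem_nhds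
            ((chartAt E p).map_source (mem_chart_source E p))
        filter_upwards [h4] with q hq
        simp only [writtenInExtChartAt, extChartAt_model_space_eq_id, Function.comp_apply]
        simpa using (chartAt E p).right_inv hq
      · simp only [writtenInExtChartAt, Function.comp_apply]
        simp
    rw [h3]
    simp [fderivWithin_id]
  rw [h2]
  rfl

end Pool.Agent.Lib.MP_6fca61_gt
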