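import Pool.Agent.Lib.MP_6fca61_gt.GamS

/-!
# MP_6fca61_gt (project PW): change of coordinates, Christoffel symbols
-/

set_option autoImplicit false
set_option maxSynthPendingDepth 3

open scoped Manifold ContDiff Topology

namespace Pool.Agent.Lib.MP_6fca61_gt

variable {E : Type*} [NormedAddCommGroup E] [NormedSpace ℝ E] [FiniteDimensional ℝ E]
variable {U U' : Set E} {G G' : E → E →L[ℝ] E →L[ℝ] ℝ} {Ψ : E → E} {z : E}

/-- Proof. `fderiv ℝ Ψ z` is injective: `G z u u = G' (Ψ z) (DΨ u) (DΨ u)`; finite dimension. -/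
theorem Tr.bij (h : Tr U G U' G' Ψ) (hz : z ∈ U) : Function.Bijective (fderiv ℝ Ψ z) := by
  have hinj : Function.Injective (fderiv ℝ Ψ z) := by
    rw [injective_iff_map_eq_zero]
    intro u hu
    by_contra hne
    have h1 := h.metG.pos z hz u hne
    rw [h.pull z hz, hu] at h1
    simp at h1
  refine ⟨hinj, ?_⟩
  have h2 : Function.Injective ((fderiv ℝ Ψ z : E →L[ℝ] E) : E →ₗ[ℝ] E) := hinj
  exact LinearMap.injective_iff_surjective.1 h2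

/-- Proof. Differentiate `h.pull` (valid on the open set `U`) in the direction `a`. -/
theorem Tr.fd (h : Tr U G U' G' Ψ) (hz : z ∈ U) (a u v : E) : fderiv ℝ G z a u v =
    fderiv ℝ G' (Ψ z) (fderiv ℝ Ψ z a) (fderiv ℝ Ψ z u) (fderiv ℝ Ψ z v) +
    G' (Ψ z) (fderiv ℝ (fderiv ℝ Ψ) z a u) (fderiv ℝ Ψ z v) +
    G' (Ψ z) (fderiv ℝ Ψ z u) (fderiv ℝ (fderiv ℝ Ψ) z a v) := by
  have hU : U ∈ 𝓝 z := h.metG.isOpen.mem_nhds hz
  have hU' : U' ∈ 𝓝 (Ψ z) := h.metG'.isOpen.mem_nhds (h.maps z hz)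
  have c1 : ContDiffAt ℝ ∞ G z := h.metG.smooth.contDiffAt hU
  have c2 : ContDiffAt ℝ ∞ G' (Ψ z) := h.metG'.smooth.contDiffAt hU'
  have c3 : ContDiffAt ℝ ∞ Ψ z := h.smooth.contDiffAt hU
  have d1 : HasFDerivAt G (fderiv ℝ G z) z := (c1.differentiableAt (by simp)).hasFDerivAt
  have d2 : HasFDerivAt G' (fderiv ℝ G' (Ψ z)) (Ψ z) :=
    (c2.differentiableAt (by simp)).hasFDerivAt
  have d3 : HasFDerivAt Ψ (fderiv ℝ Ψ z) z := (c3.differentiableAt (by simp)).hasFDerivAt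
  have c4 : ContDiffAt ℝ ∞ (fderiv ℝ Ψ) z := c3.fderiv_right (m := ∞) (by simp)
  have d4 : HasFDerivAt (fderiv ℝ Ψ) (fderiv ℝ (fderiv ℝ Ψ) z) z :=
    (c4.differentiableAt (by simp)).hasFDerivAt
  have e1 : HasFDerivAt (fun y => G y u v) _ z :=
    (d1.clm_apply (hasFDerivAt_const u z)).clm_apply (hasFDerivAt_const v z)
  have e2 : HasFDerivAt (fun y => G' (Ψ y)) _ z := d2.comp z d3
  have e3 : HasFDerivAt (fun y => fderiv ℝ Ψ y u) _ z := d4.clm_apply (hasFDerivAt_const u z)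
  have e4 : HasFDerivAt (fun y => fderiv ℝ Ψ y v) _ z := d4.clm_apply (hasFDerivAt_const v z)
  have e5 : HasFDerivAt (fun y => G' (Ψ y) (fderiv ℝ Ψ y u) (fderiv ℝ Ψ y v)) _ z :=
    (e2.clm_apply e3).clm_apply e4
  have e6 : (fun y => G y u v) =ᶠ[𝓝 z] fun y => G' (Ψ y) (fderiv ℝ Ψ y u) (fderiv ℝ Ψ y v) := by
    filter_upwards [hU] with y hy
    exact h.pull y hy u v
  have e7 := e1.unique (e5.congr_of_eventuallyEq e6)
  have e8 := DFunLike.congr_fun e7 a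
  simp at e8
  rw [e8]
  ring

/-- Proof. Insert `Tr.fd` in `chr_apply`; the second derivative of `Ψ` is symmetric
(`ContDiffAt.isSymmSndFDerivAt`), `G'` is symmetric. -/
theorem Tr.chr_tr (h : Tr U G U' G' Ψ) (hz : z ∈ U) (u v w : E) : chr G z u v w =
    chr G' (Ψ z) (fderiv ℝ Ψ z u) (fderiv ℝ Ψ z v) (fderiv ℝ Ψ z w) +
    G' (Ψ z) (fderiv ℝ (fderiv ℝ Ψ) z u v) (fderiv ℝ Ψ z w) := by
  have hU : U ∈ 𝓝 z := h.metG.isOpen.mem_nhds hz
  have c3 : ContDiffAt ℝ ∞ Ψ z := h.smooth.contDiffAt hU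
  have hs : IsSymmSndFDerivAt ℝ Ψ z := c3.isSymmSndFDerivAt (by
    rw [minSmoothness_of_isRCLikeNormedField]
    exact WithTop.coe_le_coe.2 le_top)
  have hG' := h.metG'.symm (Ψ z) (h.maps z hz)
  rw [chr_apply, chr_apply, h.fd hz u v w, h.fd hz v u w, h.fd hz w u v]
  rw [hs.eq v u, hs.eq w u, hs.eq w v, hG' (fderiv ℝ Ψ z v) (fderiv ℝ (fderiv ℝ Ψ) z u w)]
  ring

/-- Proof. Pair with `fderiv ℝ Ψ z w` and use `Tr.chr_tr`, `gam_spec`, `Tr.bij`, `Met.ext`. -/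
theorem Tr.gam_tr (h : Tr U G U' G' Ψ) (hz : z ∈ U) (u v : E) : fderiv ℝ Ψ z (Gam G z u v) =
    Gam G' (Ψ z) (fderiv ℝ Ψ z u) (fderiv ℝ Ψ z v) + fderiv ℝ (fderiv ℝ Ψ) z u v := by
  refine Met.ext h.metG' (h.maps z hz) ?_
  intro w'
  obtain ⟨w, rfl⟩ := (h.bij hz).2 w'
  rw [← h.pull z hz, gam_spec h.metG hz, h.chr_tr hz, map_add, ContinuousLinearMap.add_apply,
    gam_spec h.metG' (h.maps z hz)]

end Pool.Agent.Lib.MP_6fca61_gt
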