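import Pool.Agent.Lib.MP_6fca61_gt.Ch
import Pool.Agent.Lib.MP_6fca61_gt.TrC

/-!
# MP_6fca61_gt (project PW): transition maps
-/

set_option autoImplicit false
set_option maxSynthPendingDepth 3

open scoped Manifold ContDiff Topology

namespace Pool.Agent.Lib.MP_6fca61_gt

variable {E : Type*} [NormedAddCommGroup E] [NormedSpace ℝ E] [FiniteDimensional ℝ E]
variable {M : Type*} [TopologicalSpace M] [ChartedSpace E M] [IsManifold 𝓘(ℝ, E) ∞ M]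
variable {g : Fam E M} {e₁ e₂ : OpenPartialHomeomorph M E} {p : M}

omit [FiniteDimensional ℝ E] in
/-- Proof. Chain rule: `e₂ = (e₂ ∘ e₁.symm) ∘ e₁` near `p`; `mfderiv` between normed spaces is
`fderiv` (`mfderiv_eq_fderiv`). -/
theorem fd_ch (he₁ : e₁ ∈ IsManifold.maximalAtlas 𝓘(ℝ, E) ∞ M)
    (he₂ : e₂ ∈ IsManifold.maximalAtlas 𝓘(ℝ, E) ∞ M) (hp₁ : p ∈ e₁.source)
    (hp₂ : p ∈ e₂.source) (u : E) :
    fderiv ℝ (e₁.symm.trans e₂) (e₁ p) (dch e₁ p u) = dch e₂ p u := by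
  have h1 : MDifferentiableAt 𝓘(ℝ, E) 𝓘(ℝ, E) e₁ p :=
    (contMDiffAt_of_mem_maximalAtlas he₁ hp₁).mdifferentiableAt (by simp)
  have h2 : MDifferentiableAt 𝓘(ℝ, E) 𝓘(ℝ, E) e₁.symm (e₁ p) :=
    (contMDiffAt_symm_of_mem_maximalAtlas he₁ (e₁.map_source hp₁)).mdifferentiableAt (by simp)
  have h3 : MDifferentiableAt 𝓘(ℝ, E) 𝓘(ℝ, E) e₂ (e₁.symm (e₁ p)) := by
    rw [e₁.left_inv hp₁]
    exact (contMDiffAt_of_mem_maximalAtlas he₂ hp₂).mdifferentiableAt (by simp)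
  have h4 : MDifferentiableAt 𝓘(ℝ, E) 𝓘(ℝ, E) (e₂ ∘ e₁.symm) (e₁ p) := h3.comp _ h2
  have h5 := mfderiv_comp p h4 h1
  have h6 : ((e₂ ∘ e₁.symm) ∘ e₁ : M → E) =ᶠ[nhds p] e₂ := by
    filter_upwards [e₁.open_source.mem_nhds hp₁] with q hq
    simp only [Function.comp_apply, e₁.left_inv hq]
  rw [h6.mfderiv_eq, mfderiv_eq_fderiv] at h5
  have h7 := congrArg (fun L => L u) h5
  exact h7.symm

omit [FiniteDimensional ℝ E] in
/-- Proof. `metG`: restriction of `GF.met` to the smaller open set. `pull`: for `z = e₁ p` both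
sides are `g p` of the same vectors (`g_loc`, `fd_ch`, `dch_dsy`). -/
theorem tr_ch (hg : GF g) (he₁ : e₁ ∈ IsManifold.maximalAtlas 𝓘(ℝ, E) ∞ M)
    (he₂ : e₂ ∈ IsManifold.maximalAtlas 𝓘(ℝ, E) ∞ M) :
    Tr (e₁.symm.trans e₂).source (locG g e₁) e₂.target (locG g e₂) (e₁.symm.trans e₂) := by
  have hsub : (e₁.symm.trans e₂).source ⊆ e₁.target := fun z hz => hz.1
  have hm := hg.met he₁
  refine ⟨⟨(e₁.symm.trans e₂).open_source, hm.smooth.mono hsub, fun z hz => hm.symm z (hsub hz),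
    fun z hz => hm.pos z (hsub hz)⟩, hg.met he₂, ?_, fun z hz => ?_, fun z hz u v => ?_⟩
  · have h1 : ContMDiffOn 𝓘(ℝ, E) 𝓘(ℝ, E) ∞ (e₂ ∘ e₁.symm) (e₁.symm.trans e₂).source :=
      (contMDiffOn_of_mem_maximalAtlas he₂).comp
        ((contMDiffOn_symm_of_mem_maximalAtlas he₁).mono hsub) (fun z hz => hz.2)
    exact contMDiffOn_iff_contDiffOn.1 h1
  · exact (e₁.symm.trans e₂).map_source hz |>.1
  · have hp₁ : e₁.symm z ∈ e₁.source := e₁.map_target (hsub hz)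
    have hp₂ : e₁.symm z ∈ e₂.source := hz.2
    have hz' : e₁ (e₁.symm z) = z := e₁.right_inv (hsub hz)
    have hu : dch e₁ (e₁.symm z) (dsy e₁ z u) = u := dch_dsy he₁ (hsub hz) u
    have hv : dch e₁ (e₁.symm z) (dsy e₁ z v) = v := dch_dsy he₁ (hsub hz) v
    have h1 := g_loc (g := g) he₁ hp₁ (dsy e₁ z u) (dsy e₁ z v)
    have h2 := g_loc (g := g) he₂ hp₂ (dsy e₁ z u) (dsy e₁ z v)
    have h3 := fd_ch he₁ he₂ hp₁ hp₂ (dsy e₁ z u)
    have h4 := fd_ch he₁ he₂ hp₁ hp₂ (dsy e₁ z v)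
    rw [hz', hu] at h3
    rw [hz', hv] at h4
    rw [hz', hu, hv] at h1
    rw [← h1, h2, ← h3, ← h4]
    rfl

end Pool.Agent.Lib.MP_6fca61_gt
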