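import Pool.Agent.Lib.MP_6fca61_gt.Loc

/-!
# MP_6fca61_gt (project PW): a chain of steps
-/

set_option autoImplicit false
set_option maxSynthPendingDepth 3

open scoped Manifold ContDiff Topology

namespace Pool.Agent.Lib.MP_6fca61_gt

variable {E : Type*} [NormedAddCommGroup E] [NormedSpace ℝ E] [FiniteDimensional ℝ E]
variable {E' : Type*} [NormedAddCommGroup E'] [NormedSpace ℝ E'] [FiniteDimensional ℝ E']
variable {M : Type*} [TopologicalSpace M] [ChartedSpace E M] [IsManifold 𝓘(ℝ, E) ∞ M]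
variable {B : Type*} [TopologicalSpace B] [ChartedSpace E' B] [IsManifold 𝓘(ℝ, E') ∞ B]
variable {g : Fam E M} {h : Fam E' B} {π : M → B}

omit [FiniteDimensional ℝ E] [FiniteDimensional ℝ E'] [IsManifold 𝓘(ℝ, E) ∞ M]
  [IsManifold 𝓘(ℝ, E') ∞ B] in
/-- Proof. Iterate `hs` (dependent choice: `Nat.rec` on the subtype of the `(p, x, W)` with the
first three properties; `W (k + 1) = T ∘ W k`); the last property is `StepR.ineq` for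
`W k w`, since `g (W k w) (lift) = g (W k w) (W k lift₀) = g w lift₀ = 0`. -/
theorem chain {κ Λ δ : ℝ} (hs : ∀ (p : M) (x : E'), h (π p) x x = 1 →
      ∃ p' x' T, StepR g h π κ Λ δ p x p' x' T) (p₀ : M) (x₀ : E') (hx₀ : h (π p₀) x₀ x₀ = 1) :
    ∃ (p : ℕ → M) (x : ℕ → E') (W : ℕ → E →L[ℝ] E), p 0 = p₀ ∧ x 0 = x₀ ∧
      (∀ k, h (π (p k)) (x k) (x k) = 1) ∧
      (∀ k (u w : E), g (p k) (W k u) (W k w) = g p₀ u w) ∧
      (∀ k, W k (liftM g h π p₀ x₀) = liftM g h π (p k) (x k)) ∧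
      ∀ w : E, g p₀ w (liftM g h π p₀ x₀) = 0 → ∀ k, ∀ φ φ' ρ ρ' q q' : ℝ → ℝ,
        (∀ t ∈ Set.Icc 0 δ, HasDerivAt φ (φ' t) t ∧ HasDerivAt ρ (ρ' t) t ∧
          HasDerivAt q (q' t) t ∧ ρ' t + ρ t ^ 2 + Λ ≤ 0 ∧ φ' t ^ 2 - κ * φ t ^ 2 ≤ q' t) →
        φ δ ^ 2 * (tauM g h π (p (k + 1)) (x (k + 1)) (W (k + 1) w) +
          ρ δ * h (π (p (k + 1))) (dpi E E' π (p (k + 1)) (W (k + 1) w))
            (dpi E E' π (p (k + 1)) (W (k + 1) w))) -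
          φ 0 ^ 2 * (tauM g h π (p k) (x k) (W k w) +
            ρ 0 * h (π (p k)) (dpi E E' π (p k) (W k w)) (dpi E E' π (p k) (W k w))) ≤
          g p₀ w w * (q δ - q 0) := by
  obtain ⟨P, hP⟩ : ∃ P : M → E' → (E →L[ℝ] E) → Prop, ∀ p x W, P p x W ↔
      (h (π p) x x = 1 ∧ (∀ u w : E, g p (W u) (W w) = g p₀ u w) ∧
        W (liftM g h π p₀ x₀) = liftM g h π p x) := ⟨_, fun _ _ _ => Iff.rfl⟩
  have next : ∀ s : {s : M × E' × (E →L[ℝ] E) // P s.1 s.2.1 s.2.2},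
      ∃ s' : {s : M × E' × (E →L[ℝ] E) // P s.1 s.2.1 s.2.2}, ∃ T : E →L[ℝ] E,
        StepR g h π κ Λ δ s.1.1 s.1.2.1 s'.1.1 s'.1.2.1 T ∧ s'.1.2.2 = T.comp s.1.2.2 := by
    rintro ⟨⟨p, x, W⟩, hs'⟩
    obtain ⟨h1, h2, h3⟩ := (hP p x W).1 hs'
    obtain ⟨p', x', T, hT⟩ := hs p x h1
    refine ⟨⟨(p', x', T.comp W), (hP _ _ _).2 ⟨hT.unit, fun u w => ?_, ?_⟩⟩, T, hT, rfl⟩
    · exact (hT.iso (W u) (W w)).trans (h2 u w)
    · change T (W (liftM g h π p₀ x₀)) = liftM g h π p' x'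
      rw [h3]
      exact hT.lift
  choose nx T hT1 hT2 using next
  obtain ⟨sq, hsq0, hsq⟩ : ∃ sq : ℕ → {s : M × E' × (E →L[ℝ] E) // P s.1 s.2.1 s.2.2},
      sq 0 = ⟨(p₀, x₀, ContinuousLinearMap.id ℝ E), (hP _ _ _).2
        ⟨hx₀, fun _ _ => rfl, rfl⟩⟩ ∧ ∀ n, sq (n + 1) = nx (sq n) :=
    ⟨fun n => Nat.rec ⟨(p₀, x₀, ContinuousLinearMap.id ℝ E), (hP _ _ _).2
      ⟨hx₀, fun _ _ => rfl, rfl⟩⟩ (fun _ s => nx s) n, rfl, fun _ => rfl⟩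
  have hPn : ∀ n, P (sq n).1.1 (sq n).1.2.1 (sq n).1.2.2 := fun n => (sq n).2
  refine ⟨fun n => (sq n).1.1, fun n => (sq n).1.2.1, fun n => (sq n).1.2.2,
    by simp only [hsq0], by simp only [hsq0], fun n => ((hP _ _ _).1 (hPn n)).1,
    fun n => ((hP _ _ _).1 (hPn n)).2.1, fun n => ((hP _ _ _).1 (hPn n)).2.2, ?_⟩
  intro w hw n φ φ' ρ ρ' q q' hF
  obtain ⟨-, h2, h3⟩ := (hP _ _ _).1 (hPn n)
  have hst := hT1 (sq n)
  have hW := hT2 (sq n)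
  rw [← hsq n] at hst hW
  have e1 : g (sq n).1.1 ((sq n).1.2.2 w) (liftM g h π (sq n).1.1 (sq n).1.2.1) = 0 := by
    rw [← h3]
    exact (h2 w (liftM g h π p₀ x₀)).trans hw
  have e2 := hst.ineq ((sq n).1.2.2 w) e1 φ φ' ρ ρ' q q' hF
  have e3 : g (sq n).1.1 ((sq n).1.2.2 w) ((sq n).1.2.2 w) = g p₀ w w := h2 w w
  have e4 : T (sq n) ((sq n).1.2.2 w) = (sq (n + 1)).1.2.2 w := by
    rw [hW]
    rfl
  rw [e3, e4] at e2
  exact e2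

end Pool.Agent.Lib.MP_6fca61_gt
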