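import Pool.Agent.Lib.MP_6fca61_gt.Loc

/-!
# MP_6fca61_gt (project PW): linear algebra
-/

set_option autoImplicit false
set_option maxSynthPendingDepth 3

open scoped Manifold ContDiff Topology

namespace Pool.Agent.Lib.MP_6fca61_gt

variable {E : Type*} [NormedAddCommGroup E] [NormedSpace ℝ E] [FiniteDimensional ℝ E]
variable {E' : Type*} [NormedAddCommGroup E'] [NormedSpace ℝ E'] [FiniteDimensional ℝ E']

/-- Proof. The space of the `w` with `f w = 0` has dimension at least `dim E - 1`; the linear map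
`w ↦ (A i w)_i` sends it to the product of the `m` spaces `{y | ℓ i y = 0}` of dimension
`dim E' - 1` (`ℓ i ≠ 0`). -/
theorem lin {m : ℕ} (f : E →L[ℝ] ℝ) (A : Fin m → E →L[ℝ] E') (l : Fin m → E' →L[ℝ] ℝ)
    (hl : ∀ i, l i ≠ 0) (hA : ∀ i w, f w = 0 → l i (A i w) = 0)
    (hd : m * (Module.finrank ℝ E' - 1) + 1 < Module.finrank ℝ E) :
    ∃ w, w ≠ 0 ∧ f w = 0 ∧ ∀ i, A i w = 0 := by
  classical
  let K : Submodule ℝ E := LinearMap.ker (f : E →ₗ[ℝ] ℝ)
  let T : K →ₗ[ℝ] ((i : Fin m) → LinearMap.ker (l i : E' →ₗ[ℝ] ℝ)) :=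
    LinearMap.pi fun i => LinearMap.codRestrict (LinearMap.ker (l i : E' →ₗ[ℝ] ℝ))
      ((A i : E →ₗ[ℝ] E').comp K.subtype) fun w => hA i w w.2
  have h1 : Module.finrank ℝ ((i : Fin m) → LinearMap.ker (l i : E' →ₗ[ℝ] ℝ)) =
      m * (Module.finrank ℝ E' - 1) := by
    rw [Module.finrank_pi_fintype]
    have h2 : ∀ i : Fin m, Module.finrank ℝ (LinearMap.ker (l i : E' →ₗ[ℝ] ℝ)) =
        Module.finrank ℝ E' - 1 := by
      intro i
      have h3 := LinearMap.finrank_range_add_finrank_ker (l i : E' →ₗ[ℝ] ℝ)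
      have h4 : LinearMap.range (l i : E' →ₗ[ℝ] ℝ) = ⊤ := by
        rw [LinearMap.range_eq_top]
        refine LinearMap.surjective ?_
        intro h5
        apply hl i
        ext v
        exact congrArg (fun k : E' →ₗ[ℝ] ℝ => k v) h5
      rw [h4, finrank_top, Module.finrank_self] at h3
      omega
    rw [Finset.sum_congr rfl fun i _ => h2 i, Finset.sum_const, Finset.card_univ,
      Fintype.card_fin, smul_eq_mul]
  have h2 : Module.finrank ℝ E ≤ Module.finrank ℝ K + 1 := by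
    have h3 := LinearMap.finrank_range_add_finrank_ker (f : E →ₗ[ℝ] ℝ)
    have h4 : Module.finrank ℝ (LinearMap.range (f : E →ₗ[ℝ] ℝ)) ≤ 1 := by
      have h5 := Submodule.finrank_le (LinearMap.range (f : E →ₗ[ℝ] ℝ))
      rwa [Module.finrank_self] at h5
    show Module.finrank ℝ E ≤ Module.finrank ℝ (LinearMap.ker (f : E →ₗ[ℝ] ℝ)) + 1
    omega
  have h3 : Module.finrank ℝ ((i : Fin m) → LinearMap.ker (l i : E' →ₗ[ℝ] ℝ)) <
      Module.finrank ℝ K := by
    omega
  have h4 : LinearMap.ker T ≠ ⊥ := LinearMap.ker_ne_bot_of_finrank_lt h3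
  obtain ⟨w, hw, hw0⟩ := Submodule.exists_mem_ne_zero_of_ne_bot h4
  refine ⟨w, fun h => hw0 (Subtype.ext h), w.2, fun i => ?_⟩
  have h5 : T w = 0 := hw
  have h6 := congrArg (fun k : (i : Fin m) → LinearMap.ker (l i : E' →ₗ[ℝ] ℝ) => (k i : E')) h5
  exact h6

end Pool.Agent.Lib.MP_6fca61_gt
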