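import Pool.Agent.Lib.MP_6fca61_gt.Loc

/-!
# MP_6fca61_gt (project PW): the trigonometric test function
-/

set_option autoImplicit false
set_option maxSynthPendingDepth 3

open scoped Manifold ContDiff Topology

namespace Pool.Agent.Lib.MP_6fca61_gt

private theorem Trig_mu {Λ l : ℝ} (hl : 0 < l) (hΛ : Λ < (Real.pi / l) ^ 2) :
    ∃ μ : ℝ, 0 < μ ∧ Λ ≤ μ ^ 2 ∧ μ * l < Real.pi := by
  have hπ := Real.pi_pos
  have h0 : 0 < Real.pi / l := div_pos hπ hl
  obtain ⟨M, hM⟩ : ∃ M, M = max Λ 0 := ⟨_, rfl⟩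
  have hM0 : 0 ≤ M := by rw [hM]; exact le_max_right _ _
  have hM1 : Λ ≤ M := by rw [hM]; exact le_max_left _ _
  have hM2 : M < (Real.pi / l) ^ 2 := by
    rw [hM]
    exact max_lt hΛ (by positivity)
  have h1 : 0 < (M + (Real.pi / l) ^ 2) / 2 := by positivity
  refine ⟨Real.sqrt ((M + (Real.pi / l) ^ 2) / 2), Real.sqrt_pos.2 h1, ?_, ?_⟩
  · rw [Real.sq_sqrt h1.le]
    linarith
  · rw [← lt_div_iff₀ hl, Real.sqrt_lt' h0]
    linarith

private theorem Trig_rho {μ η x : ℝ} (s : ℝ) (hs : Real.sin (μ * (s + x) + η) ≠ 0) :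
    HasDerivAt (fun t => μ * (Real.cos (μ * (s + t) + η) / Real.sin (μ * (s + t) + η)))
      (-μ ^ 2 - (μ * (Real.cos (μ * (s + x) + η) / Real.sin (μ * (s + x) + η))) ^ 2) x := by
  have h1 : HasDerivAt (fun t : ℝ => μ * (s + t) + η) (μ * (0 + 1)) x :=
    (((hasDerivAt_const x s).add (hasDerivAt_id x)).const_mul μ).add_const η
  have h2 := (Real.hasDerivAt_cos (μ * (s + x) + η)).comp x h1
  have h3 := (Real.hasDerivAt_sin (μ * (s + x) + η)).comp x h1
  have h4 := (h2.div h3 hs).const_mul μ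
  refine h4.congr_deriv ?_
  simp only [Function.comp_apply]
  field_simp
  ring

/-- Proof. Let `L = m K δ`, `ω = π / L`, `l = K δ`. Since `Λ < (π / l)²` there are `μ > 0`,
`Λ ≤ μ²`, and `η > 0` with `μ l + 2 η < π`. For `k = i K + j`, `j < K`, use on `[0, δ]`
`φ(t) = sin (ω (k δ + t))`, `ρ(t) = μ cot (μ (j δ + t) + η)` (the argument stays in `(0, π)`, so
`ρ' = -μ² - ρ²`), `q(t) = q₀(k δ + t)` with `q₀(s) = (ω² - κ) s / 2 + (ω² + κ) sin (2 ω s) / (4 ω)`,
`q₀'(s) = ω² cos² (ω s) - κ sin² (ω s)`. Summing over `j < K` for a fixed `i` (the values of `φ` and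
`ρ` match at the nodes) and using `b (i K) = 0` for `0 < i < m`, `φ = 0` at `s = 0` and `s = L`:
`sin² (ω (i + 1) l) a ((i + 1) K) - sin² (ω i l) a (i K) ≤ c (q₀ ((i + 1) l) - q₀ (i l))`
(for `i = 0` the left boundary term is `0` as `φ = 0` there, for `i = m - 1` the right one).
Summing over `i < m`: `0 ≤ c (q₀ L - q₀ 0) = c (ω² - κ) L / 2`, and `ω² < κ`. -/
theorem trig {κ Λ c δ : ℝ} {a b : ℕ → ℝ} {m K : ℕ} (hm : 0 < m) (hK : 0 < K) (hδ : 0 < δ)
    (hb : ∀ i, 0 < i → i < m → b (i * K) = 0) (hκ : (Real.pi / (m * K * δ)) ^ 2 < κ)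
    (hΛ : Λ < (Real.pi / (K * δ)) ^ 2)
    (hineq : ∀ k, ∀ φ φ' ρ ρ' q q' : ℝ → ℝ,
      (∀ t ∈ Set.Icc 0 δ, HasDerivAt φ (φ' t) t ∧ HasDerivAt ρ (ρ' t) t ∧
        HasDerivAt q (q' t) t ∧ ρ' t + ρ t ^ 2 + Λ ≤ 0 ∧ φ' t ^ 2 - κ * φ t ^ 2 ≤ q' t) →
      φ δ ^ 2 * (a (k + 1) + ρ δ * b (k + 1)) - φ 0 ^ 2 * (a k + ρ 0 * b k) ≤
        c * (q δ - q 0)) : c ≤ 0 := by
  have hπ := Real.pi_pos
  have hm0 : (0 : ℝ) < m := by exact_mod_cast hm
  have hK0 : (0 : ℝ) < K := by exact_mod_cast hK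
  obtain ⟨L, hL⟩ : ∃ L : ℝ, L = m * K * δ := ⟨_, rfl⟩
  have hL0 : 0 < L := by rw [hL]; positivity
  obtain ⟨w, hw⟩ : ∃ w : ℝ, w = Real.pi / L := ⟨_, rfl⟩
  have hw0 : 0 < w := by rw [hw]; positivity
  have hwL : w * L = Real.pi := by rw [hw]; field_simp
  rw [← hL, ← hw] at hκ
  obtain ⟨μ, hμ0, hΛμ, hμl⟩ := Trig_mu (l := K * δ) (by positivity) hΛ
  obtain ⟨η, hη⟩ : ∃ η : ℝ, η = (Real.pi - μ * (K * δ)) / 4 := ⟨_, rfl⟩
  have hη0 : 0 < η := by rw [hη]; linarith
  have hη1 : μ * (K * δ) + η < Real.pi := by rw [hη]; linarith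
  obtain ⟨q₀, hq₀⟩ : ∃ q₀ : ℝ → ℝ, q₀ = fun s => (w ^ 2 - κ) * s / 2 +
    (w ^ 2 + κ) * Real.sin (2 * w * s) / (4 * w) := ⟨_, rfl⟩
  obtain ⟨P, hP⟩ : ∃ P : ℕ → ℝ, P = fun k : ℕ => Real.sin (w * ((k : ℝ) * δ)) := ⟨_, rfl⟩
  obtain ⟨R, hR⟩ : ∃ R : ℕ → ℝ, R = fun j : ℕ =>
    μ * (Real.cos (μ * ((j : ℝ) * δ) + η) / Real.sin (μ * ((j : ℝ) * δ) + η)) := ⟨_, rfl⟩
  have hstep : ∀ i j : ℕ, j < K →
      P (i * K + (j + 1)) ^ 2 * (a (i * K + (j + 1)) + R (j + 1) * b (i * K + (j + 1))) -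
        P (i * K + j) ^ 2 * (a (i * K + j) + R j * b (i * K + j)) ≤
        c * (q₀ ((i * K + (j + 1) : ℕ) * δ) - q₀ ((i * K + j : ℕ) * δ)) := by
    intro i j hj
    have h := hineq (i * K + j) (fun t => Real.sin (w * ((i * K + j : ℕ) * δ + t)))
      (fun t => Real.cos (w * ((i * K + j : ℕ) * δ + t)) * w)
      (fun t => μ * (Real.cos (μ * (j * δ + t) + η) / Real.sin (μ * (j * δ + t) + η)))
      (fun t => -μ ^ 2 - (μ * (Real.cos (μ * (j * δ + t) + η) /
        Real.sin (μ * (j * δ + t) + η))) ^ 2)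
      (fun t => q₀ ((i * K + j : ℕ) * δ + t))
      (fun t => w ^ 2 * Real.cos (w * ((i * K + j : ℕ) * δ + t)) ^ 2 -
        κ * Real.sin (w * ((i * K + j : ℕ) * δ + t)) ^ 2) (by
      intro t ht
      have hsin : 0 < Real.sin (μ * (j * δ + t) + η) := by
        refine Real.sin_pos_of_pos_of_lt_pi ?_ ?_
        · have h1 : 0 ≤ j * δ + t := by
            have := ht.1
            positivity
          positivity
        · refine lt_of_le_of_lt ?_ hη1
          have h1 : j * δ + t ≤ K * δ := by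
            have h2 : (j : ℝ) + 1 ≤ K := by exact_mod_cast hj
            have h3 := ht.2
            nlinarith
          have h4 := mul_le_mul_of_nonneg_left h1 hμ0.le
          linarith
      have hlin : ∀ r : ℝ, HasDerivAt (fun t : ℝ => r * ((i * K + j : ℕ) * δ + t)) r t := by
        intro r
        have h1 : HasDerivAt (fun t : ℝ => r * ((i * K + j : ℕ) * δ + t)) (r * (0 + 1)) t :=
          ((hasDerivAt_const t _).add (hasDerivAt_id t)).const_mul r
        simpa using h1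
      refine ⟨?_, Trig_rho _ hsin.ne', ?_, ?_, ?_⟩
      · exact (Real.hasDerivAt_sin _).comp t (hlin w)
      · rw [hq₀]
        have h1 : HasDerivAt (fun t : ℝ => (i * K + j : ℕ) * δ + t) 1 t := by
          have := hlin 1
          simpa using this
        have h2 : HasDerivAt (fun t : ℝ => (w ^ 2 - κ) * ((i * K + j : ℕ) * δ + t) / 2)
            ((w ^ 2 - κ) * 1 / 2) t := (h1.const_mul _).div_const 2
        have h3 : HasDerivAt (fun t : ℝ => (w ^ 2 + κ) *
            Real.sin (2 * w * ((i * K + j : ℕ) * δ + t)) / (4 * w))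
            ((w ^ 2 + κ) * (Real.cos (2 * w * ((i * K + j : ℕ) * δ + t)) * (2 * w)) /
              (4 * w)) t :=
          (((Real.hasDerivAt_sin _).comp t (hlin (2 * w))).const_mul _).div_const _
        refine (h2.add h3).congr_deriv ?_
        have h4 : 2 * w * (((i * K + j : ℕ) : ℝ) * δ + t) =
          2 * (w * (((i * K + j : ℕ) : ℝ) * δ + t)) := by ring
        rw [h4, Real.cos_two_mul, Real.sin_sq]
        field_simp
        ring
      · linarith
      · refine le_of_eq ?_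
        ring)
    have e1 : (((i * K + j : ℕ) : ℝ)) * δ + δ = ((i * K + (j + 1) : ℕ) : ℝ) * δ := by
      push_cast
      ring
    have e2 : (j : ℝ) * δ + δ = ((j + 1 : ℕ) : ℝ) * δ := by
      push_cast
      ring
    rw [e1, e2, add_zero, add_zero] at h
    rw [hP, hR]
    exact h
  -- the sum over a period
  have hper : ∀ i j : ℕ, j ≤ K →
      P (i * K + j) ^ 2 * (a (i * K + j) + R j * b (i * K + j)) -
        P (i * K) ^ 2 * (a (i * K) + R 0 * b (i * K)) ≤
        c * (q₀ ((i * K + j : ℕ) * δ) - q₀ ((i * K : ℕ) * δ)) := by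
    intro i j
    induction j with
    | zero =>
      intro _
      simp
    | succ j ih =>
      intro hj
      have h1 := ih (by omega)
      have h2 := hstep i j (by omega)
      linarith
  have hPb : ∀ i, i ≤ m → P (i * K) ^ 2 * b (i * K) = 0 := by
    intro i hi
    rcases Nat.eq_zero_or_pos i with h0 | h0
    · rw [h0, hP]
      simp
    · rcases lt_or_eq_of_le hi with h1 | h1
      · rw [hb i h0 h1, mul_zero]
      · have h2 : P (i * K) = 0 := by
          rw [hP]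
          dsimp only
          have h3 : w * (((i * K : ℕ) : ℝ) * δ) = Real.pi := by
            rw [h1, ← hwL, hL]
            push_cast
            ring
          rw [h3, Real.sin_pi]
        rw [h2]
        ring
  have hsum : ∀ i, i ≤ m → P (i * K) ^ 2 * a (i * K) - P 0 ^ 2 * a 0 ≤
      c * (q₀ ((i * K : ℕ) * δ) - q₀ 0) := by
    intro i
    induction i with
    | zero =>
      intro _
      simp
    | succ i ih =>
      intro hi
      have h1 := ih (by omega)
      have h2 := hper i K le_rfl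
      have h3 := hPb i (by omega)
      have h4 := hPb (i + 1) hi
      have e1 : i * K + K = (i + 1) * K := by ring
      rw [e1] at h2
      have h5 : P ((i + 1) * K) ^ 2 * (a ((i + 1) * K) + R K * b ((i + 1) * K)) =
          P ((i + 1) * K) ^ 2 * a ((i + 1) * K) := by
        calc _ = P ((i + 1) * K) ^ 2 * a ((i + 1) * K) +
              R K * (P ((i + 1) * K) ^ 2 * b ((i + 1) * K)) := by ring
          _ = _ := by rw [h4, mul_zero, add_zero]
      have h6 : P (i * K) ^ 2 * (a (i * K) + R 0 * b (i * K)) = P (i * K) ^ 2 * a (i * K) := by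
        calc _ = P (i * K) ^ 2 * a (i * K) + R 0 * (P (i * K) ^ 2 * b (i * K)) := by ring
          _ = _ := by rw [h3, mul_zero, add_zero]
      rw [h5, h6] at h2
      linarith
  have hfin := hsum m le_rfl
  have hP0 : P 0 = 0 := by
    rw [hP]
    simp
  have hmK : (((m * K : ℕ) : ℝ)) * δ = L := by
    rw [hL]
    push_cast
    ring
  have hPm : P (m * K) = 0 := by
    rw [hP]
    dsimp only
    rw [hmK, hwL, Real.sin_pi]
  rw [hP0, hPm, hmK] at hfin
  have hq : q₀ L - q₀ 0 = (w ^ 2 - κ) * L / 2 := by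
    rw [hq₀]
    dsimp only
    have h1 : 2 * w * L = 2 * Real.pi := by rw [mul_assoc, hwL]
    rw [h1, Real.sin_two_pi]
    simp only [mul_zero, Real.sin_zero, zero_div, add_zero, sub_zero]
  rw [hq] at hfin
  by_contra hcon
  push Not at hcon
  have h1 : (w ^ 2 - κ) * L < 0 := mul_neg_of_neg_of_pos (by linarith) hL0
  have h2 : c * ((w ^ 2 - κ) * L / 2) < 0 := mul_neg_of_pos_of_neg hcon (by linarith)
  have h3 : (0 : ℝ) ^ 2 * a (m * K) - 0 ^ 2 * a 0 = 0 := by ring
  rw [h3] at hfin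
  linarith

end Pool.Agent.Lib.MP_6fca61_gt
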