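import Pool.Agent.Lib.MP_6fca61_gt.Chain
import Pool.Agent.Lib.MP_6fca61_gt.Trig
import Pool.Agent.Lib.MP_6fca61_gt.Lin
import Pool.Agent.Lib.MP_6fca61_gt.LiftS

/-!
# MP_6fca61_gt (project PW): the dimension estimate
-/

set_option autoImplicit false
set_option maxSynthPendingDepth 3

open scoped Manifold ContDiff Topology

namespace Pool.Agent.Lib.MP_6fca61_gt

variable {E : Type*} [NormedAddCommGroup E] [NormedSpace ℝ E] [FiniteDimensional ℝ E]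
variable {E' : Type*} [NormedAddCommGroup E'] [NormedSpace ℝ E'] [FiniteDimensional ℝ E']
variable {M : Type*} [TopologicalSpace M] [ChartedSpace E M] [IsManifold 𝓘(ℝ, E) ∞ M]
variable {B : Type*} [TopologicalSpace B] [ChartedSpace E' B] [IsManifold 𝓘(ℝ, E') ∞ B]
variable {g : Fam E M} {h : Fam E' B} {π : M → B}

omit [FiniteDimensional ℝ E'] in
private theorem Core_unit {b : E' →L[ℝ] E' →L[ℝ] ℝ} {y : E'} (hp : 0 < b y y) :
    b ((Real.sqrt (b y y))⁻¹ • y) ((Real.sqrt (b y y))⁻¹ • y) = 1 := by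
  have hq : 0 < Real.sqrt (b y y) := Real.sqrt_pos.2 hp
  have e2 : b ((Real.sqrt (b y y))⁻¹ • y) ((Real.sqrt (b y y))⁻¹ • y) =
      (Real.sqrt (b y y))⁻¹ * ((Real.sqrt (b y y))⁻¹ * b y y) := by
    simp [map_smul, smul_eq_mul]
  rw [e2]
  nth_rewrite 3 [← Real.mul_self_sqrt hp.le]
  field_simp

omit [FiniteDimensional ℝ E'] in
private theorem Core_zero (b : E' →L[ℝ] E' →L[ℝ] ℝ) (y : E') : b 0 y = 0 := by
  simp

/-- the length -/
private theorem Core_len {κ Λ : ℝ} (hκ : 0 < κ) {m : ℕ} (hm : 0 < m)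
    (hΛ : Λ < (m : ℝ) ^ 2 * κ) :
    ∃ L : ℝ, 0 < L ∧ (Real.pi / L) ^ 2 < κ ∧ Λ < (Real.pi / (L / m)) ^ 2 := by
  have hm0 : (0:ℝ) < m := by exact_mod_cast hm
  have hpi := Real.pi_pos
  obtain ⟨s, hs⟩ : ∃ s : ℝ, s = (max (Λ / (m:ℝ) ^ 2) 0 + κ) / 2 := ⟨_, rfl⟩
  have h1 : Λ / (m:ℝ) ^ 2 < κ := by
    rw [div_lt_iff₀ (by positivity)]
    linarith
  have h2 : max (Λ / (m:ℝ) ^ 2) 0 < κ := max_lt h1 hκ
  have hs0 : 0 < s := by
    rw [hs]
    have := le_max_right (Λ / (m:ℝ) ^ 2) 0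
    linarith
  have hsκ : s < κ := by
    rw [hs]
    linarith
  have hsΛ : Λ / (m:ℝ) ^ 2 < s := by
    have := le_max_left (Λ / (m:ℝ) ^ 2) 0
    rw [hs]
    linarith
  have hq : 0 < Real.sqrt s := Real.sqrt_pos.2 hs0
  refine ⟨Real.pi / Real.sqrt s, by positivity, ?_, ?_⟩
  · have : Real.pi / (Real.pi / Real.sqrt s) = Real.sqrt s := by
      field_simp
    rw [this, Real.sq_sqrt hs0.le]
    exact hsκ
  · have : Real.pi / (Real.pi / Real.sqrt s / m) = m * Real.sqrt s := by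
      field_simp
    rw [this, mul_pow, Real.sq_sqrt hs0.le]
    rw [div_lt_iff₀ (by positivity)] at hsΛ
    linarith

/-- the number of pieces -/
private theorem Core_K {L ε : ℝ} (hL : 0 < L) (hε : 0 < ε) {m : ℕ} (hm : 0 < m) :
    ∃ (K : ℕ) (δ : ℝ), 0 < K ∧ 0 < δ ∧ δ ≤ ε ∧ m * K * δ = L ∧ K * δ = L / m := by
  have hm0 : (0:ℝ) < m := by exact_mod_cast hm
  obtain ⟨K, hK⟩ := exists_nat_gt (L / (m * ε))
  have hK0 : (0:ℝ) < K := lt_trans (by positivity) hK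
  refine ⟨K, L / (m * K), by exact_mod_cast hK0, by positivity, ?_, ?_, ?_⟩
  · rw [div_lt_iff₀ (by positivity)] at hK
    rw [div_le_iff₀ (by positivity)]
    linarith
  · field_simp
  · field_simp

/-- Proof. Suppose not. Then `(m - 1) (dim E' - 1) + 1 < dim E`. Choose a real number `L > 0` with
`(π / L)² < κ` and `Λ < (π m / L)²` (possible as `Λ < m² κ`, `κ > 0`), `K ∈ ℕ` with
`δ = L / (m K) ≤ ε`. Take `p₀ ∈ M` and a unit vector `x₀ ∈ T B` (`dim E' > 0`), the chain of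
`chain`. `lin` with `f w = g p₀ w (lift x₀)`, `A i w = dπ (W (i K) w)` (`0 < i < m`), `l i =
h (π (p (i K))) (x (i K))` gives `w ≠ 0`, `f w = 0`, `dπ (W (i K) w) = 0`; the hypothesis `hA`:
`h (x, dπ W w) = g (lift x, W w) = g (W lift x₀, W w) = g (lift x₀, w) = 0` (`lift_spec`). Then
`trig` with `a k = tauM (p k) (x k) (W k w)`, `b k = h (dπ W k w, dπ W k w)`, `c = g p₀ w w > 0`
is a contradiction. -/
theorem core [Nonempty M] (hg : GF g) (hh : GF h) (hπ : IsRiemSubm g h π) {κ Λ : ℝ}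
    (hκ : 0 < κ) (hs : ∃ ε > 0, ∀ δ, 0 < δ → δ ≤ ε → ∀ (p : M) (x : E'),
      h (π p) x x = 1 → ∃ p' x' T, StepR g h π κ Λ δ p x p' x' T) {m : ℕ} (hm : 2 ≤ m)
    (hΛ : Λ < (m : ℝ) ^ 2 * κ) (hb : 0 < Module.finrank ℝ E') :
    Module.finrank ℝ E - Module.finrank ℝ E' ≤ (m - 2) * (Module.finrank ℝ E' - 1) := by
  by_contra hcon
  push Not at hcon
  obtain ⟨n, rfl⟩ : ∃ n, m = n + 2 := ⟨m - 2, by omega⟩
  obtain ⟨d, hd⟩ : ∃ d, Module.finrank ℝ E' = d + 1 := ⟨Module.finrank ℝ E' - 1, by omega⟩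
  have hdim : (n + 1) * (Module.finrank ℝ E' - 1) + 1 < Module.finrank ℝ E := by
    rw [hd] at hcon ⊢
    simp only [Nat.add_sub_cancel] at hcon ⊢
    have : (n + 1) * d = n * d + d := by ring
    omega
  obtain ⟨L, hL0, hL1, hL2⟩ := Core_len hκ (m := n + 2) (by omega) hΛ
  obtain ⟨ε, hε, hs⟩ := hs
  obtain ⟨K, δ, hK, hδ, hδε, hKL, hKL'⟩ := Core_K hL0 hε (m := n + 2) (by omega)
  obtain ⟨p₀⟩ := ‹Nonempty M›
  obtain ⟨x₀, hx₀⟩ : ∃ x₀ : E', h (π p₀) x₀ x₀ = 1 := by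
    have : Nontrivial E' := Module.finrank_pos_iff.1 hb
    obtain ⟨y, hy⟩ := exists_ne (0 : E')
    have hp := hh.pos (π p₀) y hy
    exact ⟨_, Core_unit (E' := E') (b := h (π p₀)) (y := y) hp⟩
  obtain ⟨p, x, W, hp0, hx0, hu, hW, hWl, hin⟩ :=
    chain (fun p x hx => hs δ hδ hδε p x hx) p₀ x₀ hx₀
  obtain ⟨f, hf⟩ : ∃ f : E →L[ℝ] ℝ, f = g p₀ (liftM g h π p₀ x₀) := ⟨_, rfl⟩
  have hf' : ∀ w : E, f w = g p₀ (liftM g h π p₀ x₀) w := by
    intro w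
    rw [hf]
    rfl
  obtain ⟨l, hl⟩ : ∃ l : Fin (n + 1) → E' →L[ℝ] ℝ,
      l = fun i => h (π (p ((i.1 + 1) * K))) (x ((i.1 + 1) * K)) := ⟨_, rfl⟩
  have hl' : ∀ (i : Fin (n + 1)) (y : E'), l i y =
      h (π (p ((i.1 + 1) * K))) (x ((i.1 + 1) * K)) y := by
    intro i y
    rw [hl]
    rfl
  obtain ⟨w, hw0, hfw, hAw⟩ := lin f
    (fun i : Fin (n + 1) => (dpi E E' π (p ((i.1 + 1) * K))).comp (W ((i.1 + 1) * K))) l
    (fun i hi => by
      have h1 := hl' i (x ((i.1 + 1) * K))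
      rw [hi, hu] at h1
      simp at h1)
    (fun i w hw => by
      rw [hl']
      have h1 := lift_spec hg hh hπ (p ((i.1 + 1) * K)) (x ((i.1 + 1) * K))
        (W ((i.1 + 1) * K) w)
      have h2 := hW ((i.1 + 1) * K) (liftM g h π p₀ x₀) w
      rw [hWl, h1, ← hf', hw] at h2
      exact h2) hdim
  have hc := trig (κ := κ) (Λ := Λ) (c := g p₀ w w) (δ := δ)
    (a := fun k => tauM g h π (p k) (x k) (W k w))
    (b := fun k => h (π (p k)) (dpi E E' π (p k) (W k w)) (dpi E E' π (p k) (W k w)))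
    (m := n + 2) (K := K) (by omega) hK hδ ?_ ?_ ?_ ?_
  · exact absurd (hg.pos p₀ w hw0) (not_lt.2 hc)
  · intro i hi1 hi2
    obtain ⟨j, rfl⟩ : ∃ j, i = j + 1 := ⟨i - 1, by omega⟩
    have h1 := hAw ⟨j, by omega⟩
    have h2 : dpi E E' π (p ((j + 1) * K)) (W ((j + 1) * K) w) = 0 := h1
    rw [h2]
    exact Core_zero (E' := E') (h (π (p ((j + 1) * K)))) 0
  · rw [hKL]
    exact hL1
  · rw [hKL']
    exact hL2
  · intro k
    refine hin w ?_ k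
    rw [hg.symm, ← hf']
    exact hfw

end Pool.Agent.Lib.MP_6fca61_gt
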