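import Mathlib

/-!
# MP_6fca61_gt: Riemannian submersions of positively curved manifolds. Definitions.
-/

set_option autoImplicit false
set_option maxSynthPendingDepth 3

open scoped Manifold ContDiff Topology

namespace Pool.Agent.Lib.MP_6fca61_gt

noncomputable section

/-! ### Metrics in coordinates -/

section loc

variable {E : Type*} [NormedAddCommGroup E] [NormedSpace ℝ E]

/-- The Christoffel symbol of the first kind `[u v, ·]` of the metric `G` at the point `z`:
`[u v, w] = (D_u G(v, w) + D_v G(u, w) - D_w G(u, v)) / 2`. -/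
def chr (G : E → E →L[ℝ] E →L[ℝ] ℝ) (z u v : E) : E →L[ℝ] ℝ :=
  (1 / 2 : ℝ) • (fderiv ℝ G z u v + fderiv ℝ G z v u - ((fderiv ℝ G z).flip u).flip v)

/-- The Christoffel symbol `Γ(u, v)`: the vector with `G(Γ(u, v), w) = [u v, w]`. -/
def Gam (G : E → E →L[ℝ] E →L[ℝ] ℝ) (z u v : E) : E := (G z).inverse (chr G z u v)

/-- The curvature `⟨R(u, v) v, u⟩` of the metric `G` at the point `z`, in coordinates. -/
def Rm (G : E → E →L[ℝ] E →L[ℝ] ℝ) (z u v : E) : ℝ :=
  (2 * fderiv ℝ (fderiv ℝ G) z u v u v - fderiv ℝ (fderiv ℝ G) z u u v v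
    - fderiv ℝ (fderiv ℝ G) z v v u u) / 2
    + G z (Gam G z u v) (Gam G z u v) - G z (Gam G z u u) (Gam G z v v)

end loc

/-! ### Metrics on manifolds -/

section man

variable {E : Type*} [NormedAddCommGroup E] [NormedSpace ℝ E]
variable {M : Type*} [TopologicalSpace M] [ChartedSpace E M]

variable (E M) in
/-- Families of bilinear forms on the tangent spaces. -/
abbrev Fam : Type _ :=
  (p : M) → TangentSpace 𝓘(ℝ, E) p →L[ℝ] TangentSpace 𝓘(ℝ, E) p →L[ℝ] ℝ

/-- The family `g` in the chart `e`. -/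
def locG (g : Fam E M) (e : OpenPartialHomeomorph M E) (z : E) : E →L[ℝ] E →L[ℝ] ℝ :=
  ContinuousLinearMap.bilinearComp (show E →L[ℝ] E →L[ℝ] ℝ from g (e.symm z))
    (show E →L[ℝ] E from mfderiv 𝓘(ℝ, E) 𝓘(ℝ, E) e.symm z)
    (show E →L[ℝ] E from mfderiv 𝓘(ℝ, E) 𝓘(ℝ, E) e.symm z)

/-- The curvature `⟨R(u, v) v, u⟩` of the metric `g` at the point `p`, computed in the preferred
chart at `p` (the one used by Mathlib to identify the tangent space at `p` with `E`). -/
def curv (g : Fam E M) (p : M) (u v : TangentSpace 𝓘(ℝ, E) p) : ℝ :=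
  Rm (locG g (chartAt E p)) (chartAt E p p) u v

/-- The square of the area of the parallelogram spanned by `u` and `v`. -/
def area (g : Fam E M) (p : M) (u v : TangentSpace 𝓘(ℝ, E) p) : ℝ :=
  g p u u * g p v v - g p u v ^ 2

/-- All sectional curvatures are at least `κ`. -/
def SecGe (g : Fam E M) (κ : ℝ) : Prop :=
  ∀ (p : M) (u v : TangentSpace 𝓘(ℝ, E) p), κ * area g p u v ≤ curv g p u v

/-- All sectional curvatures are at most `Λ`. -/
def SecLe (g : Fam E M) (Λ : ℝ) : Prop :=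
  ∀ (p : M) (u v : TangentSpace 𝓘(ℝ, E) p), curv g p u v ≤ Λ * area g p u v

variable {E' : Type*} [NormedAddCommGroup E'] [NormedSpace ℝ E']
variable {B : Type*} [TopologicalSpace B] [ChartedSpace E' B]

variable (E') in
/-- The tangent vector `u` is horizontal: orthogonal to the kernel of the differential. -/
def Hor (g : Fam E M) (π : M → B) (p : M) (u : TangentSpace 𝓘(ℝ, E) p) : Prop :=
  ∀ w : TangentSpace 𝓘(ℝ, E) p, mfderiv 𝓘(ℝ, E) 𝓘(ℝ, E') π p w = 0 → g p u w = 0

/-- `π` is a Riemannian submersion: a smooth surjective submersion whose differential is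
isometric on the horizontal vectors. -/
structure IsRiemSubm (g : Fam E M) (h : Fam E' B) (π : M → B) : Prop where
  subm : Manifold.IsSubmersion 𝓘(ℝ, E) 𝓘(ℝ, E') ∞ π
  surj : Function.Surjective π
  isom : ∀ (p : M) (u : TangentSpace 𝓘(ℝ, E) p), Hor E' g π p u →
    h (π p) (mfderiv 𝓘(ℝ, E) 𝓘(ℝ, E') π p u) (mfderiv 𝓘(ℝ, E) 𝓘(ℝ, E') π p u) = g p u u

variable (E') in
/-- All sectional curvatures of horizontal planes are at most `Λ`. -/
def HorSecLe (g : Fam E M) (π : M → B) (Λ : ℝ) : Prop :=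
  ∀ (p : M) (u v : TangentSpace 𝓘(ℝ, E) p), Hor E' g π p u → Hor E' g π p v →
    curv g p u v ≤ Λ * area g p u v

variable (E E') in
/-- The fibre over `y` has no nowhere vanishing continuous tangent vector field. -/
def NoField [IsManifold 𝓘(ℝ, E) ∞ M] (π : M → B) (y : B) : Prop :=
  ∀ w : (p : M) → TangentSpace 𝓘(ℝ, E) p,
    ContinuousOn (fun p => (⟨p, w p⟩ : TangentBundle 𝓘(ℝ, E) M)) (π ⁻¹' {y}) →
    (∀ p, π p = y → mfderiv 𝓘(ℝ, E) 𝓘(ℝ, E') π p (w p) = 0) →
    ∃ p, π p = y ∧ w p = 0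

end man

end

end Pool.Agent.Lib.MP_6fca61_gt
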