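import Pool.Agent.Lib.MP_6fca61_gt.HorS

/-!
# MP_6fca61_gt (project PW): comparison of the first derivatives
-/

set_option autoImplicit false
set_option maxSynthPendingDepth 3

open scoped Manifold ContDiff Topology

namespace Pool.Agent.Lib.MP_6fca61_gt

variable {E : Type*} [NormedAddCommGroup E] [NormedSpace ℝ E] [FiniteDimensional ℝ E]
variable {E' : Type*} [NormedAddCommGroup E'] [NormedSpace ℝ E'] [FiniteDimensional ℝ E']
variable {U : Set E} {G : E → E →L[ℝ] E →L[ℝ] ℝ} {V : Set E'}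
  {H : E' → E' →L[ℝ] E' →L[ℝ] ℝ} {pl : E →L[ℝ] E'} {z : E}

/-- the metric along a curve -/
theorem Fst_der {X : Type*} [NormedAddCommGroup X] [NormedSpace ℝ X] {W : Set X}
    {K : X → X →L[ℝ] X →L[ℝ] ℝ} (hM : Met W K) {c P R : ℝ → X} {t : ℝ} {Z P' R' : X}
    (hc : c t ∈ W) (h1 : HasDerivAt c Z t) (hP : HasDerivAt P P' t) (hR : HasDerivAt R R' t) :
    HasDerivAt (fun s => K (c s) (P s) (R s))
      (fderiv ℝ K (c t) Z (P t) (R t) + K (c t) P' (R t) + K (c t) (P t) R') t := by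
  have hK : HasFDerivAt K (fderiv ℝ K (c t)) (c t) :=
    ((hM.smooth.contDiffAt (hM.isOpen.mem_nhds hc)).differentiableAt (by simp)).hasFDerivAt
  have h2 : HasDerivAt (fun s => K (c s)) (fderiv ℝ K (c t) Z) t := hK.comp_hasDerivAt t h1
  have h3 := (h2.clm_apply hP).clm_apply hR
  exact h3

/-- evaluation of a bilinear form -/
noncomputable def Fst_ev {X : Type*} [NormedAddCommGroup X] [NormedSpace ℝ X] (u v : X) :
    (X →L[ℝ] X →L[ℝ] ℝ) →L[ℝ] ℝ :=
  (ContinuousLinearMap.apply ℝ ℝ v).comp (ContinuousLinearMap.apply ℝ (X →L[ℝ] ℝ) u)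

/-- the case of equal vectors -/
theorem Fst_diag (h : LS U G V H pl) (hz : z ∈ U) {w : E} (hw : ∀ k, pl k = 0 → G z w k = 0)
    (W : E) : fderiv ℝ G z W w w = fderiv ℝ H (pl z) (pl W) (pl w) (pl w) := by
  have hU : U ∈ 𝓝 z := h.metG.isOpen.mem_nhds hz
  have hV : V ∈ 𝓝 (pl z) := h.metH.isOpen.mem_nhds (h.maps z hz)
  have hG : HasFDerivAt G (fderiv ℝ G z) z :=
    ((h.metG.smooth.contDiffAt hU).differentiableAt (by simp)).hasFDerivAt
  have hH : HasFDerivAt H (fderiv ℝ H (pl z)) (pl z) :=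
    ((h.metH.smooth.contDiffAt hV).differentiableAt (by simp)).hasFDerivAt
  have h1 : HasFDerivAt (fun y => G y w w) ((Fst_ev w w).comp (fderiv ℝ G z)) z :=
    (Fst_ev w w).hasFDerivAt.comp z hG
  have h2 : HasFDerivAt (fun y => H (pl y)) ((fderiv ℝ H (pl z)).comp pl) z :=
    hH.comp z pl.hasFDerivAt
  have h3 : HasFDerivAt (fun y => H (pl y) (pl w) (pl w))
      ((Fst_ev (pl w) (pl w)).comp ((fderiv ℝ H (pl z)).comp pl)) z :=
    (Fst_ev (pl w) (pl w)).hasFDerivAt.comp z h2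
  have h4 := h1.sub h3
  have hmin : IsLocalMin (fun y => G y w w - H (pl y) (pl w) (pl w)) z := by
    have h0 : G z w w - H (pl z) (pl w) (pl w) = 0 := by rw [h.sub z hz w hw, sub_self]
    filter_upwards [hU] with y hy
    rw [h0, G_split h hy w]
    have h5 : 0 ≤ G y (w - hor G H pl y (pl w)) (w - hor G H pl y (pl w)) := by
      by_cases h6 : w - hor G H pl y (pl w) = 0
      · rw [h6, map_zero]
      · exact (h.metG.pos y hy _ h6).le
    linarith
  have h7 := hmin.hasFDerivAt_eq_zero h4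
  have h8 := congrArg (fun L : E →L[ℝ] ℝ => L W) h7
  have h9 : fderiv ℝ G z W w w - fderiv ℝ H (pl z) (pl W) (pl w) (pl w) = 0 := h8
  linarith

/-- Proof. `N(s) = G(z + s W)(w, w) - H(pl z + s pl W)(pl w, pl w)` is nonnegative near `0`
(`G_split`) and `N(0) = 0`, so `N'(0) = 0`. Then polarise in `w` (sums of horizontal vectors are
horizontal). -/
theorem fst (h : LS U G V H pl) (hz : z ∈ U) {w w' : E} (hw : ∀ k, pl k = 0 → G z w k = 0)
    (hw' : ∀ k, pl k = 0 → G z w' k = 0) (W : E) :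
    fderiv ℝ G z W w w' = fderiv ℝ H (pl z) (pl W) (pl w) (pl w') := by
  have h1 := Fst_diag h hz hw W
  have h2 := Fst_diag h hz hw' W
  have h3 := Fst_diag h hz (w := w + w') (fun k hk => by
    rw [map_add]
    have h4 : (G z w + G z w') k = G z w k + G z w' k := rfl
    rw [h4, hw k hk, hw' k hk, add_zero]) W
  have h5 := fd_symm h.metG hz W w w'
  have h6 := fd_symm h.metH (h.maps z hz) (pl W) (pl w) (pl w')
  have e1 : fderiv ℝ G z W (w + w') (w + w') = fderiv ℝ G z W w w + fderiv ℝ G z W w w' +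
      (fderiv ℝ G z W w' w + fderiv ℝ G z W w' w') := by
    have e2 : fderiv ℝ G z W (w + w') = fderiv ℝ G z W w + fderiv ℝ G z W w' := map_add _ _ _
    rw [e2]
    have e3 : (fderiv ℝ G z W w + fderiv ℝ G z W w') (w + w') =
      fderiv ℝ G z W w (w + w') + fderiv ℝ G z W w' (w + w') := rfl
    rw [e3, map_add, map_add]
  have e4 : fderiv ℝ H (pl z) (pl W) (pl (w + w')) (pl (w + w')) =
      fderiv ℝ H (pl z) (pl W) (pl w) (pl w) + fderiv ℝ H (pl z) (pl W) (pl w) (pl w') +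
      (fderiv ℝ H (pl z) (pl W) (pl w') (pl w) + fderiv ℝ H (pl z) (pl W) (pl w') (pl w')) := by
    rw [map_add pl]
    have e2 : fderiv ℝ H (pl z) (pl W) (pl w + pl w') =
      fderiv ℝ H (pl z) (pl W) (pl w) + fderiv ℝ H (pl z) (pl W) (pl w') := map_add _ _ _
    rw [e2]
    have e3 : (fderiv ℝ H (pl z) (pl W) (pl w) + fderiv ℝ H (pl z) (pl W) (pl w'))
      (pl w + pl w') = fderiv ℝ H (pl z) (pl W) (pl w) (pl w + pl w') +
      fderiv ℝ H (pl z) (pl W) (pl w') (pl w + pl w') := rfl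
    rw [e3, map_add, map_add]
  rw [e1, e4] at h3
  linarith

/-- horizontal lifts are horizontal -/
theorem Fst_hor (h : LS U G V H pl) (hz : z ∈ U) (x : E') (k : E) (hk : pl k = 0) :
    G z (hor G H pl z x) k = 0 := by
  rw [hor_spec h hz, hk, map_zero]

/-- Proof. `fst` three times, with `chr_apply` and `pl_hor`. -/
theorem chr_hor (h : LS U G V H pl) (hz : z ∈ U) (x y u : E') :
    chr G z (hor G H pl z x) (hor G H pl z y) (hor G H pl z u) = chr H (pl z) x y u := by
  rw [chr_apply, chr_apply, fst h hz (Fst_hor h hz y) (Fst_hor h hz u),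
    fst h hz (Fst_hor h hz x) (Fst_hor h hz u), fst h hz (Fst_hor h hz x) (Fst_hor h hz y),
    pl_hor h hz, pl_hor h hz, pl_hor h hz]

/-- Proof. `chr_hor`. -/
theorem tau_hor (h : LS U G V H pl) (hz : z ∈ U) (x y : E') :
    tau G H pl z x (hor G H pl z y) = 0 := by
  unfold tau
  rw [chr_hor h hz, pl_hor h hz, sub_self]

end Pool.Agent.Lib.MP_6fca61_gt
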