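import Pool.Agent.Lib.MP_6fca61_gt.Inv

/-!
# MP_6fca61_gt (project PW): Christoffel symbols
-/

set_option autoImplicit false
set_option maxSynthPendingDepth 3

open scoped Manifold ContDiff Topology

namespace Pool.Agent.Lib.MP_6fca61_gt

variable {E : Type*} [NormedAddCommGroup E] [NormedSpace ℝ E] [FiniteDimensional ℝ E]
variable {U : Set E} {G : E → E →L[ℝ] E →L[ℝ] ℝ} {z : E}

/-- evaluation of a bilinear form -/
private noncomputable def GamS_ev (u v : E) : (E →L[ℝ] E →L[ℝ] ℝ) →L[ℝ] ℝ :=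
  (ContinuousLinearMap.apply ℝ ℝ v).comp (ContinuousLinearMap.apply ℝ (E →L[ℝ] ℝ) u)

omit [FiniteDimensional ℝ E] in
private theorem GamS_diff (hM : Met U G) (hz : z ∈ U) : DifferentiableAt ℝ G z :=
  (hM.smooth.contDiffAt (hM.isOpen.mem_nhds hz)).differentiableAt (by simp)

omit [FiniteDimensional ℝ E] in
/-- Proof. `G · u v = G · v u` on the open set `U`; differentiate. -/
theorem fd_symm (hM : Met U G) (hz : z ∈ U) (a u v : E) :
    fderiv ℝ G z a u v = fderiv ℝ G z a v u := by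
  have hd := (GamS_diff hM hz).hasFDerivAt
  have h1 : HasFDerivAt (fun z => G z u v) ((GamS_ev u v).comp (fderiv ℝ G z)) z :=
    (GamS_ev u v).hasFDerivAt.comp z hd
  have h2 : HasFDerivAt (fun z => G z v u) ((GamS_ev v u).comp (fderiv ℝ G z)) z :=
    (GamS_ev v u).hasFDerivAt.comp z hd
  have h3 : (fun z => G z u v) =ᶠ[𝓝 z] fun z => G z v u := by
    filter_upwards [hM.isOpen.mem_nhds hz] with y hy
    exact hM.symm y hy u v
  have h4 := (h1.congr_of_eventuallyEq h3.symm).unique h2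
  have h5 := congrArg (fun L : E →L[ℝ] ℝ => L a) h4
  exact h5

omit [FiniteDimensional ℝ E] in
/-- The definition of `chr`, evaluated. -/
theorem chr_apply (z u v w : E) : chr G z u v w =
    (fderiv ℝ G z u v w + fderiv ℝ G z v u w - fderiv ℝ G z w u v) / 2 := by
  have h1 : chr G z u v w =
      (1 / 2 : ℝ) * (fderiv ℝ G z u v w + fderiv ℝ G z v u w - fderiv ℝ G z w u v) := rfl
  rw [h1]
  ring

theorem gam_spec (hM : Met U G) (hz : z ∈ U) (u v w : E) :
    G z (Gam G z u v) w = chr G z u v w := by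
  unfold Gam
  rw [hM.inv_spec hz]

omit [FiniteDimensional ℝ E] in
theorem chr_symm (hM : Met U G) (hz : z ∈ U) (u v w : E) : chr G z u v w = chr G z v u w := by
  rw [chr_apply, chr_apply, fd_symm hM hz w u v]
  ring

theorem gam_symm (hM : Met U G) (hz : z ∈ U) (u v : E) : Gam G z u v = Gam G z v u := by
  unfold Gam
  rw [ContinuousLinearMap.ext fun w => chr_symm hM hz u v w]

omit [FiniteDimensional ℝ E] in
theorem chr_add (hM : Met U G) (hz : z ∈ U) (u v w : E) :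
    chr G z u v w + chr G z u w v = fderiv ℝ G z u v w := by
  rw [chr_apply, chr_apply, fd_symm hM hz u w v]
  ring

omit [FiniteDimensional ℝ E] in
theorem chr_smul (z u v w : E) (a b c : ℝ) :
    chr G z (a • u) (b • v) (c • w) = a * b * c * chr G z u v w := by
  rw [chr_apply, chr_apply]
  simp only [map_smul, smul_apply, smul_eq_mul]
  ring

omit [FiniteDimensional ℝ E] in
theorem gam_smul (z u v : E) (a b : ℝ) : Gam G z (a • u) (b • v) = (a * b) • Gam G z u v := by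
  unfold Gam
  rw [← map_smul]
  congr 1
  ext w
  have h1 := chr_smul (G := G) z u v w a b 1
  rw [one_smul, mul_one] at h1
  rw [h1]
  rfl

/-- Proof. `chr G z u v` is bilinear in `u, v` and smooth in `z` as a map into
`E →L E →L (E →L ℝ)` (built from `fderiv ℝ G`, `ContinuousLinearMap.flip`,
`ContinuousLinearMap.flipₗᵢ`); compose with `(G z).inverse` (`Met.smooth_inv`). -/
theorem gam_smooth (hM : Met U G) : ∃ GB : E → E →L[ℝ] E →L[ℝ] E, ContDiffOn ℝ ∞ GB U ∧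
    ∀ z ∈ U, ∀ u v, GB z u v = Gam G z u v := by
  have hD : ContDiffOn ℝ ∞ (fderiv ℝ G) U := hM.smooth.fderiv_of_isOpen hM.isOpen (by simp)
  -- the third term
  let fl1 : (E →L[ℝ] E →L[ℝ] E →L[ℝ] ℝ) →L[ℝ] (E →L[ℝ] E →L[ℝ] E →L[ℝ] ℝ) :=
    (ContinuousLinearMap.flipₗᵢ ℝ E E (E →L[ℝ] ℝ)).toContinuousLinearEquiv.toContinuousLinearMap
  let fl2 : (E →L[ℝ] E →L[ℝ] ℝ) →L[ℝ] (E →L[ℝ] E →L[ℝ] ℝ) :=
    (ContinuousLinearMap.flipₗᵢ ℝ E E ℝ).toContinuousLinearEquiv.toContinuousLinearMap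
  let fl3 : (E →L[ℝ] E →L[ℝ] E →L[ℝ] ℝ) →L[ℝ] (E →L[ℝ] E →L[ℝ] E →L[ℝ] ℝ) :=
    (ContinuousLinearMap.compL ℝ E (E →L[ℝ] E →L[ℝ] ℝ) (E →L[ℝ] E →L[ℝ] ℝ) fl2).comp fl1
  let Cz : E → E →L[ℝ] E →L[ℝ] E →L[ℝ] ℝ := fun z =>
    (1 / 2 : ℝ) • (fderiv ℝ G z + fl1 (fderiv ℝ G z) - fl3 (fderiv ℝ G z))
  have hC : ContDiffOn ℝ ∞ Cz U := by
    apply ContDiffOn.const_smul
    exact (hD.add (fl1.contDiff.comp_contDiffOn hD)).sub (fl3.contDiff.comp_contDiffOn hD)
  refine ⟨fun z => (ContinuousLinearMap.compL ℝ E (E →L[ℝ] ℝ) E (G z).inverse).comp (Cz z),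
    ?_, ?_⟩
  · have h1 : ContDiffOn ℝ ∞ (fun z => ContinuousLinearMap.compL ℝ E (E →L[ℝ] ℝ) E
        (G z).inverse) U :=
      (ContinuousLinearMap.compL ℝ E (E →L[ℝ] ℝ) E).contDiff.comp_contDiffOn hM.smooth_inv
    exact h1.clm_comp hC
  · intro z _ u v
    change (G z).inverse (Cz z u v) = (G z).inverse (chr G z u v)
    rfl

end Pool.Agent.Lib.MP_6fca61_gt
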