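import Pool.Agent.Lib.MP_6fca61_gt.GamS

/-!
# MP_6fca61_gt (project PW): parallel fields
-/

set_option autoImplicit false
set_option maxSynthPendingDepth 3

open scoped Manifold ContDiff Topology

namespace Pool.Agent.Lib.MP_6fca61_gt

variable {E : Type*} [NormedAddCommGroup E] [NormedSpace ℝ E] [FiniteDimensional ℝ E]
variable {U : Set E} {G : E → E →L[ℝ] E →L[ℝ] ℝ}

omit [FiniteDimensional ℝ E] in
/-- the metric along a curve -/
theorem Par_der (hM : Met U G) {z P R : ℝ → E} {t : ℝ} {Z P' R' : E}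
    (hz : z t ∈ U) (h1 : HasDerivAt z Z t) (hP : HasDerivAt P P' t) (hR : HasDerivAt R R' t) :
    HasDerivAt (fun s => G (z s) (P s) (R s))
      (fderiv ℝ G (z t) Z (P t) (R t) + G (z t) P' (R t) + G (z t) (P t) R') t := by
  have hK : HasFDerivAt G (fderiv ℝ G (z t)) (z t) :=
    ((hM.smooth.contDiffAt (hM.isOpen.mem_nhds hz)).differentiableAt (by simp)).hasFDerivAt
  have h2 : HasDerivAt (fun s => G (z s)) (fderiv ℝ G (z t) Z) t := hK.comp_hasDerivAt t h1
  exact (h2.clm_apply hP).clm_apply hR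

/-- Proof. The derivative is `DG(Z)(P, R) - G(Γ(Z, P), R) - G(P, Γ(Z, R)) = DG(Z)(P, R)
- chr(Z, P, R) - chr(Z, R, P) = 0` (`chr_add`). -/
theorem par_inner (hM : Met U G) {z P R : ℝ → E} {t : ℝ} {Z : E} (hz : z t ∈ U)
    (h1 : HasDerivAt z Z t) (hP : HasDerivAt P (-Gam G (z t) Z (P t)) t)
    (hR : HasDerivAt R (-Gam G (z t) Z (R t)) t) :
    HasDerivAt (fun s => G (z s) (P s) (R s)) 0 t := by
  have h2 := Par_der hM hz h1 hP hR
  have e1 : G (z t) (-Gam G (z t) Z (P t)) (R t) = -chr G (z t) Z (P t) (R t) := by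
    rw [map_neg, ← gam_spec hM hz]
    rfl
  have e2 : G (z t) (P t) (-Gam G (z t) Z (R t)) = -chr G (z t) Z (R t) (P t) := by
    rw [map_neg, hM.symm _ hz, gam_spec hM hz]
  have e3 := chr_add hM hz Z (P t) (R t)
  have e4 : fderiv ℝ G (z t) Z (P t) (R t) + G (z t) (-Gam G (z t) Z (P t)) (R t) +
      G (z t) (P t) (-Gam G (z t) Z (R t)) = 0 := by
    rw [e1, e2]
    linarith
  rw [e4] at h2
  exact h2

/-- More generally, for any differentiable field `W` the derivative of `G(W, W)` is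
`2 G(W, W' + Γ(Z, W))`. -/
theorem cov_inner (hM : Met U G) {z W : ℝ → E} {t : ℝ} {Z W' : E} (hz : z t ∈ U)
    (h1 : HasDerivAt z Z t) (hW : HasDerivAt W W' t) :
    HasDerivAt (fun s => G (z s) (W s) (W s)) (2 * G (z t) (W t) (W' + Gam G (z t) Z (W t))) t := by
  have h2 := Par_der hM hz h1 hW hW
  have e1 : G (z t) (W t) (Gam G (z t) Z (W t)) = chr G (z t) Z (W t) (W t) := by
    rw [hM.symm _ hz, gam_spec hM hz]
  have e2 := chr_add hM hz Z (W t) (W t)
  have e3 := hM.symm _ hz W' (W t)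
  have e4 : fderiv ℝ G (z t) Z (W t) (W t) + G (z t) W' (W t) + G (z t) (W t) W' =
      2 * G (z t) (W t) (W' + Gam G (z t) Z (W t)) := by
    rw [map_add, e1, e3]
    linarith
  rw [e4] at h2
  exact h2

end Pool.Agent.Lib.MP_6fca61_gt
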