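import Pool.Agent.Lib.MP_6fca61_gt.SV
import Pool.Agent.Lib.MP_6fca61_gt.Sec2
import Pool.Agent.Lib.MP_6fca61_gt.Geo
import Pool.Agent.Lib.MP_6fca61_gt.Par

/-!
# MP_6fca61_gt (project PW): the basic differential inequality
-/

set_option autoImplicit false
set_option maxSynthPendingDepth 3

open scoped Manifold ContDiff Topology

namespace Pool.Agent.Lib.MP_6fca61_gt

variable {E : Type*} [NormedAddCommGroup E] [NormedSpace ℝ E] [FiniteDimensional ℝ E]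
variable {E' : Type*} [NormedAddCommGroup E'] [NormedSpace ℝ E'] [FiniteDimensional ℝ E']
variable {U : Set E} {G : E → E →L[ℝ] E →L[ℝ] ℝ} {V : Set E'}
  {H : E' → E' →L[ℝ] E' →L[ℝ] ℝ} {pl : E →L[ℝ] E'}

omit [FiniteDimensional ℝ E] in
private theorem IneqD_nonneg (hM : Met U G) {z : E} (hz : z ∈ U) (u : E) : 0 ≤ G z u u := by
  by_cases h : u = 0
  · rw [h, map_zero]
  · exact (hM.pos z hz u h).le

/-- Proof. Put `W = φ P`, `h = pl W = φ pl P`, `Z = hor (z) (v)`, `DW = W' + Γ(Z, W) = φ' P`,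
`Dh = h' + Γ_H(v, h)`. By `chr_smul` the first function is `chr_H(h, h, v) - chr_G(W, W, Z)
+ ρ H(h, h)`. By `sv` for `H` (curve `pl z`, velocity `v`, field `h`) and for `G` (curve `z`,
velocity `Z` by `geo`, field `W`) and by `cov_inner` for `H(h, h)` its derivative is
`e2_H - H(Dh, Dh) + Rm_H(h, v) - e2_G + G(DW, DW) - Rm_G(W, Z) + ρ' H(h, h) + 2 ρ H(h, Dh)`.
`e2_H ≤ e2_G` by `sec2` (`pl Z = v`, `pl W = h`, `pl W' = h'`; `Z` is horizontal by `hor_spec`);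
`G(DW, DW) = φ'² G(P, P)`; `Rm_G(W, Z) ≥ κ (G(W,W) G(Z,Z) - G(W,Z)²) = κ φ² G(P, P)` since
`G(Z, Z) = H(v, v) = 1`, `G(P, Z) = 0`; `Rm_H(h, v) ≤ Λ (H(h,h) H(v,v) - H(h,v)²) = Λ H(h, h)`
since `H(h, v) = φ H(pl P, v) = φ G(P, Z) = 0` (`hor_spec`). Finally
`-H(Dh, Dh) + 2 ρ H(h, Dh) + (Λ + ρ') H(h, h) ≤ -H(Dh - ρ h, Dh - ρ h) ≤ 0`. -/
theorem ineqD (h : LS U G V H pl) {κ Λ : ℝ} {z P : ℝ → E} {v : ℝ → E'} {φ ρ : ℝ → ℝ}
    {t φ' ρ' : ℝ} (hz : z t ∈ U) (h1 : HasDerivAt z (hor G H pl (z t) (v t)) t)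
    (h2 : HasDerivAt v (-Gam H (pl (z t)) (v t) (v t)) t)
    (hP : HasDerivAt P (-Gam G (z t) (hor G H pl (z t) (v t)) (P t)) t)
    (hv : H (pl (z t)) (v t) (v t) = 1) (hPv : G (z t) (P t) (hor G H pl (z t) (v t)) = 0)
    (hκ : ∀ u w, κ * (G (z t) u u * G (z t) w w - G (z t) u w ^ 2) ≤ Rm G (z t) u w)
    (hΛ : ∀ x y, Rm H (pl (z t)) x y ≤
      Λ * (H (pl (z t)) x x * H (pl (z t)) y y - H (pl (z t)) x y ^ 2))
    (hφ : HasDerivAt φ φ' t) (hρ : HasDerivAt ρ ρ' t) (hρ' : ρ' + ρ t ^ 2 + Λ ≤ 0) :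
    ∃ D, HasDerivAt (fun s => φ s ^ 2 * (tau G H pl (z s) (v s) (P s) +
      ρ s * H (pl (z s)) (pl (P s)) (pl (P s)))) D t ∧
      D ≤ (φ' ^ 2 - κ * φ t ^ 2) * G (z t) (P t) (P t) := by
  have hzV : pl (z t) ∈ V := h.maps _ hz
  obtain ⟨Z, hZ⟩ : ∃ Z : ℝ → E, Z = fun s => hor G H pl (z s) (v s) := ⟨_, rfl⟩
  have hZt : Z t = hor G H pl (z t) (v t) := by rw [hZ]
  have hplZ : pl (Z t) = v t := by rw [hZt, pl_hor h hz]
  rw [← hZt] at h1 hP hPv
  have hgeo : HasDerivAt Z (-Gam G (z t) (Z t) (Z t)) t := by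
    have h3 := geo h hz (by rw [← hZt]; exact h1) h2
    rw [hZt, hZ]
    exact h3
  -- the fields
  obtain ⟨W', hW'⟩ : ∃ W' : E, W' = φ t • (-Gam G (z t) (Z t) (P t)) + φ' • P t := ⟨_, rfl⟩
  have hW : HasDerivAt (fun s => φ s • P s) W' t := by
    rw [hW']
    exact hφ.smul hP
  have hh : HasDerivAt (fun s => pl (φ s • P s)) (pl W') t := pl.hasFDerivAt.comp_hasDerivAt t hW
  have hplz : HasDerivAt (fun s => pl (z s)) (v t) t := by
    have h3 := pl.hasFDerivAt.comp_hasDerivAt t h1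
    rw [hplZ] at h3
    exact h3
  have hDW : W' + Gam G (z t) (Z t) (φ t • P t) = φ' • P t := by
    have h3 := gam_smul (G := G) (z t) (Z t) (P t) 1 (φ t)
    rw [one_smul, one_mul] at h3
    rw [h3, hW', smul_neg]
    abel
  -- the three derivatives
  have dH := sv h.metH (z := fun s => pl (z s)) (Z := v) (W := fun s => pl (φ s • P s)) hzV
    hplz h2 hh
  have dG := sv h.metG (Z := Z) (W := fun s => φ s • P s) hz h1 hgeo hW
  have dN := cov_inner h.metH (z := fun s => pl (z s)) (W := fun s => pl (φ s • P s)) hzV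
    hplz hh
  have dT := (dH.sub dG).add (hρ.mul dN)
  have hfun : (fun s => φ s ^ 2 * (tau G H pl (z s) (v s) (P s) +
      ρ s * H (pl (z s)) (pl (P s)) (pl (P s)))) =
      fun s => (chr H (pl (z s)) (pl (φ s • P s)) (pl (φ s • P s)) (v s) -
        chr G (z s) (φ s • P s) (φ s • P s) (Z s)) +
        ρ s * H (pl (z s)) (pl (φ s • P s)) (pl (φ s • P s)) := by
    funext s
    have e1 := chr_smul (G := H) (pl (z s)) (pl (P s)) (pl (P s)) (v s) (φ s) (φ s) 1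
    have e2 := chr_smul (G := G) (z s) (P s) (P s) (Z s) (φ s) (φ s) 1
    rw [one_smul] at e1 e2
    have e3 : H (pl (z s)) (φ s • pl (P s)) (φ s • pl (P s)) =
        φ s * (φ s * H (pl (z s)) (pl (P s)) (pl (P s))) := by
      simp only [map_smul, smul_apply, smul_eq_mul]
    have e4 : tau G H pl (z s) (v s) (P s) = chr H (pl (z s)) (pl (P s)) (pl (P s)) (v s) -
        chr G (z s) (P s) (P s) (Z s) := by
      rw [hZ]
      rfl
    rw [map_smul, e1, e2, e3, e4]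
    ring
  refine ⟨_, by rw [hfun]; exact dT, ?_⟩
  -- the bounds
  obtain ⟨y, hy⟩ : ∃ y, y = pl (φ t • P t) := ⟨_, rfl⟩
  obtain ⟨Dh, hDh⟩ : ∃ Dh, Dh = pl W' + Gam H (pl (z t)) (v t) y := ⟨_, rfl⟩
  have hhorZ : ∀ k, pl k = 0 → G (z t) (Z t) k = 0 := by
    intro k hk
    rw [hZt, hor_spec h hz, hk, map_zero]
  have b1 : e2 H (pl (z t)) y (v t) (pl W') ≤ e2 G (z t) (φ t • P t) (Z t) W' := by
    have h3 := sec2 h hz hhorZ (φ t • P t) W'
    rw [hplZ, ← hy] at h3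
    rw [h3]
    have h4 := IneqD_nonneg h.metG hz (W' - hor G H pl (z t) (pl W') -
      fderiv ℝ (hor G H pl) (z t) (φ t • P t) (v t))
    linarith
  have hGZZ : G (z t) (Z t) (Z t) = 1 := by
    conv_lhs => rw [hZt]
    rw [hor_spec h hz, pl_hor h hz, hv]
  have hplPv : H (pl (z t)) (pl (P t)) (v t) = 0 := by
    rw [h.metH.symm _ hzV, ← hor_spec h hz, ← hZt, h.metG.symm _ hz, hPv]
  have b2 : κ * (φ t ^ 2 * G (z t) (P t) (P t)) ≤ Rm G (z t) (φ t • P t) (Z t) := by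
    have h3 := hκ (φ t • P t) (Z t)
    rw [hGZZ] at h3
    simp only [map_smul, smul_apply, smul_eq_mul, hPv] at h3
    linarith
  have b3 : Rm H (pl (z t)) y (v t) ≤ Λ * H (pl (z t)) y y := by
    have h3 := hΛ y (v t)
    have h4 : H (pl (z t)) y (v t) = 0 := by
      rw [hy, map_smul, map_smul, smul_apply, hplPv, smul_zero]
    rw [hv, h4] at h3
    linarith
  have b4 : G (z t) (W' + Gam G (z t) (Z t) (φ t • P t))
      (W' + Gam G (z t) (Z t) (φ t • P t)) = φ' ^ 2 * G (z t) (P t) (P t) := by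
    rw [hDW]
    simp only [map_smul, smul_apply, smul_eq_mul]
    ring
  have b5 : 2 * ρ t * H (pl (z t)) y Dh - H (pl (z t)) Dh Dh ≤ ρ t ^ 2 * H (pl (z t)) y y := by
    have h3 := IneqD_nonneg h.metH hzV (Dh - ρ t • y)
    simp only [map_sub, map_smul, sub_apply, smul_apply, smul_eq_mul] at h3
    rw [h.metH.symm _ hzV Dh y] at h3
    linarith
  have b6 : 0 ≤ H (pl (z t)) y y := IneqD_nonneg h.metH hzV y
  have b7 : (ρ' + ρ t ^ 2 + Λ) * H (pl (z t)) y y ≤ 0 := mul_nonpos_of_nonpos_of_nonneg hρ' b6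
  rw [b4, ← hy, ← hDh]
  linarith

end Pool.Agent.Lib.MP_6fca61_gt
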