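import Pool.Agent.Lib.MP_6fca61_gt.IneqD

/-!
# MP_6fca61_gt (project PW): conserved quantities and the inequality on a piece
-/

set_option autoImplicit false
set_option maxSynthPendingDepth 3

open scoped Manifold ContDiff Topology

namespace Pool.Agent.Lib.MP_6fca61_gt

variable {E : Type*} [NormedAddCommGroup E] [NormedSpace ℝ E] [FiniteDimensional ℝ E]
variable {E' : Type*} [NormedAddCommGroup E'] [NormedSpace ℝ E'] [FiniteDimensional ℝ E']
variable {U : Set E} {G : E → E →L[ℝ] E →L[ℝ] ℝ} {V : Set E'}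
  {H : E' → E' →L[ℝ] E' →L[ℝ] ℝ} {pl : E →L[ℝ] E'} {δ : ℝ}
  {z : ℝ → E} {v : ℝ → E'} {Q : ℝ → E →L[ℝ] E}

private theorem ineqI_const {f : ℝ → ℝ} {δ : ℝ} (hf : ∀ t ∈ Set.Icc 0 δ, HasDerivAt f 0 t)
    {t : ℝ} (ht : t ∈ Set.Icc 0 δ) : f t = f 0 :=
  constant_of_has_deriv_right_zero (fun s hs => (hf s hs).continuousAt.continuousWithinAt)
    (fun s hs => (hf s ⟨hs.1, hs.2.le⟩).hasDerivWithinAt) t ht

/-- Proof. `cov_inner` (for `H`, the curve `pl z`, the field `v`, whose covariant derivative is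
`0`): constant. -/
theorem piece_unit (h : LS U G V H pl) (hp : Piece U G H pl δ z v Q)
    (hv : H (pl (z 0)) (v 0) (v 0) = 1) {t : ℝ} (ht : t ∈ Set.Icc 0 δ) :
    H (pl (z t)) (v t) (v t) = 1 := by
  have h1 : ∀ s ∈ Set.Icc 0 δ, HasDerivAt (fun s => H (pl (z s)) (v s) (v s)) 0 s := by
    intro s hs
    have hz := hp.mem s hs
    have h2 : HasDerivAt (fun s => pl (z s)) (pl (hor G H pl (z s) (v s))) s :=
      pl.hasFDerivAt.comp_hasDerivAt s (hp.dz s hs)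
    rw [pl_hor h hz] at h2
    have h3 := cov_inner h.metH (h.maps _ hz) h2 (hp.dv s hs)
    rw [neg_add_cancel, map_zero, mul_zero] at h3
    exact h3
  rw [← hv]
  exact ineqI_const h1 ht

/-- Proof. `par_inner`. -/
theorem piece_iso (h : LS U G V H pl) (hp : Piece U G H pl δ z v Q) (u w : E) {t : ℝ}
    (ht : t ∈ Set.Icc 0 δ) : G (z t) (Q t u) (Q t w) = G (z 0) u w := by
  have h1 : ∀ s ∈ Set.Icc 0 δ, HasDerivAt (fun s => G (z s) (Q s u) (Q s w)) 0 s := fun s hs =>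
    par_inner h.metG (hp.mem s hs) (hp.dz s hs) (hp.dQ s hs u) (hp.dQ s hs w)
  have h2 := ineqI_const h1 ht
  simp only [hp.Q0] at h2
  exact h2

/-- Proof. Both sides are parallel along `z` (`geo`), so the square of the length of their
difference is constant, and it is `0` at `t = 0`. -/
theorem piece_hor (h : LS U G V H pl) (hp : Piece U G H pl δ z v Q) {t : ℝ}
    (ht : t ∈ Set.Icc 0 δ) : Q t (hor G H pl (z 0) (v 0)) = hor G H pl (z t) (v t) := by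
  have hg : ∀ s ∈ Set.Icc 0 δ, HasDerivAt (fun s => hor G H pl (z s) (v s))
      (-Gam G (z s) (hor G H pl (z s) (v s)) (hor G H pl (z s) (v s))) s := fun s hs =>
    geo h (hp.mem s hs) (hp.dz s hs) (hp.dv s hs)
  have e1 := ineqI_const (fun s hs => par_inner h.metG (hp.mem s hs) (hp.dz s hs)
    (hp.dQ s hs (hor G H pl (z 0) (v 0))) (hp.dQ s hs (hor G H pl (z 0) (v 0)))) ht
  have e2 := ineqI_const (fun s hs => par_inner h.metG (hp.mem s hs) (hp.dz s hs)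
    (hp.dQ s hs (hor G H pl (z 0) (v 0))) (hg s hs)) ht
  have e3 := ineqI_const (fun s hs => par_inner h.metG (hp.mem s hs) (hp.dz s hs)
    (hg s hs) (hg s hs)) ht
  simp only [hp.Q0] at e1 e2 e3
  have hz := hp.mem t ht
  by_contra hne
  have hpos := h.metG.pos _ hz _ (sub_ne_zero.2 hne)
  have e4 := h.metG.symm _ hz (hor G H pl (z t) (v t)) (Q t (hor G H pl (z 0) (v 0)))
  rw [map_sub, map_sub, sub_apply, sub_apply] at hpos
  rw [e4, e1, e2, e3] at hpos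
  linarith

/-- Proof. Let `F(t)` be `φ² (tau + ρ H(pl P, pl P)) - G (z 0) w w q`, `P = Q t w`. By `ineqD`,
`piece_unit`, `piece_iso`, `piece_hor` its derivative is `≤ 0` on `[0, δ]`. -/
theorem piece_ineq (h : LS U G V H pl) (hp : Piece U G H pl δ z v Q) (hδ : 0 ≤ δ)
    {κ Λ : ℝ} (hv : H (pl (z 0)) (v 0) (v 0) = 1)
    (hκ : ∀ y ∈ U, ∀ u w, κ * (G y u u * G y w w - G y u w ^ 2) ≤ Rm G y u w)
    (hΛ : ∀ y ∈ V, ∀ u w, Rm H y u w ≤ Λ * (H y u u * H y w w - H y u w ^ 2))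
    (w : E) (hw : G (z 0) w (hor G H pl (z 0) (v 0)) = 0) (φ φ' ρ ρ' q q' : ℝ → ℝ)
    (hF : ∀ t ∈ Set.Icc 0 δ, HasDerivAt φ (φ' t) t ∧ HasDerivAt ρ (ρ' t) t ∧
      HasDerivAt q (q' t) t ∧ ρ' t + ρ t ^ 2 + Λ ≤ 0 ∧ φ' t ^ 2 - κ * φ t ^ 2 ≤ q' t) :
    φ δ ^ 2 * (tau G H pl (z δ) (v δ) (Q δ w) +
        ρ δ * H (pl (z δ)) (pl (Q δ w)) (pl (Q δ w))) -
      φ 0 ^ 2 * (tau G H pl (z 0) (v 0) w + ρ 0 * H (pl (z 0)) (pl w) (pl w)) ≤
      G (z 0) w w * (q δ - q 0) := by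
  have h0 : (0 : ℝ) ∈ Set.Icc 0 δ := ⟨le_rfl, hδ⟩
  have hww : 0 ≤ G (z 0) w w := by
    by_cases h1 : w = 0
    · rw [h1, map_zero]
    · exact (h.metG.pos _ (hp.mem 0 h0) w h1).le
  have key : ∀ t ∈ Set.Icc 0 δ, ∃ D, HasDerivAt (fun s => φ s ^ 2 *
      (tau G H pl (z s) (v s) (Q s w) + ρ s * H (pl (z s)) (pl (Q s w)) (pl (Q s w))) -
      G (z 0) w w * q s) D t ∧ D ≤ 0 := by
    intro t ht
    obtain ⟨f1, f2, f3, f4, f5⟩ := hF t ht
    have hz := hp.mem t ht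
    have e1 : G (z t) (Q t w) (hor G H pl (z t) (v t)) = 0 := by
      rw [← piece_hor h hp ht, piece_iso h hp w _ ht, hw]
    obtain ⟨D, hD, hD'⟩ := ineqD (P := fun s => Q s w) h hz (hp.dz t ht) (hp.dv t ht)
      (hp.dQ t ht w) (piece_unit h hp hv ht) e1 (hκ _ hz) (hΛ _ (h.maps _ hz)) f1 f2 f4
    refine ⟨D - G (z 0) w w * q' t, hD.sub (f3.const_mul _), ?_⟩
    have e2 : G (z t) (Q t w) (Q t w) = G (z 0) w w := piece_iso h hp w w ht
    rw [e2] at hD'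
    nlinarith
  have hanti : AntitoneOn (fun s => φ s ^ 2 *
      (tau G H pl (z s) (v s) (Q s w) + ρ s * H (pl (z s)) (pl (Q s w)) (pl (Q s w))) -
      G (z 0) w w * q s) (Set.Icc 0 δ) := by
    refine antitoneOn_of_deriv_nonpos (convex_Icc 0 δ) ?_ ?_ ?_
    · intro t ht
      obtain ⟨D, hD, -⟩ := key t ht
      exact hD.continuousAt.continuousWithinAt
    · intro t ht
      obtain ⟨D, hD, -⟩ := key t (interior_subset ht)
      exact hD.differentiableAt.differentiableWithinAt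
    · intro t ht
      obtain ⟨D, hD, hD'⟩ := key t (interior_subset ht)
      rw [hD.deriv]
      exact hD'
  have h1 := hanti h0 ⟨hδ, le_rfl⟩ hδ
  simp only [hp.Q0] at h1
  linarith

end Pool.Agent.Lib.MP_6fca61_gt
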