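import Pool.Agent.Lib.MP_6fca61_gt.Loc

/-!
# MP_6fca61_gt (project PW): the inverse of a metric
-/

set_option autoImplicit false
set_option maxSynthPendingDepth 3

open scoped Manifold ContDiff Topology

namespace Pool.Agent.Lib.MP_6fca61_gt

variable {E : Type*} [NormedAddCommGroup E] [NormedSpace ℝ E] [FiniteDimensional ℝ E]
variable {U : Set E} {G : E → E →L[ℝ] E →L[ℝ] ℝ} {z : E}

/-- Proof. `G z : E → E*` is injective by positivity, `dim E* = dim E`, so it is a continuous
linear equivalence `A`, and `(G z).inverse = A.symm` (`ContinuousLinearMap.inverse_equiv` or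
`ContinuousLinearMap.IsInvertible`). -/
theorem Met.isInvertible (hM : Met U G) (hz : z ∈ U) : (G z).IsInvertible := by
  have hfd : FiniteDimensional ℝ (E →L[ℝ] ℝ) :=
    LinearEquiv.finiteDimensional (LinearMap.toContinuousLinearMap (𝕜 := ℝ) (E := E) (F' := ℝ))
  have hdim : Module.finrank ℝ E = Module.finrank ℝ (E →L[ℝ] ℝ) := by
    rw [← (LinearMap.toContinuousLinearMap (𝕜 := ℝ) (E := E) (F' := ℝ)).finrank_eq]
    exact (Subspace.dual_finrank_eq (K := ℝ) (V := E)).symm
  have hinj : Function.Injective ((G z : E →L[ℝ] E →L[ℝ] ℝ) : E →ₗ[ℝ] (E →L[ℝ] ℝ)) := by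
    rw [injective_iff_map_eq_zero]
    intro u hu
    by_contra hne
    have h1 := hM.pos z hz u hne
    have h2 : G z u = 0 := hu
    rw [h2] at h1
    exact lt_irrefl _ h1
  refine ⟨(LinearMap.linearEquivOfInjective _ hinj hdim).toContinuousLinearEquiv, ?_⟩
  ext u v
  rfl

theorem Met.inv_spec (hM : Met U G) (hz : z ∈ U) (l : E →L[ℝ] ℝ) : G z ((G z).inverse l) = l := by
  obtain ⟨e, he⟩ := hM.isInvertible hz
  rw [← he, ContinuousLinearMap.inverse_equiv]
  exact e.apply_symm_apply l

omit [FiniteDimensional ℝ E] in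
/-- Proof. `G z (u - v) (u - v) = 0`. -/
theorem Met.ext (hM : Met U G) (hz : z ∈ U) {u v : E} (h : ∀ w, G z u w = G z v w) : u = v := by
  by_contra hne
  have h1 := hM.pos z hz (u - v) (sub_ne_zero.2 hne)
  have h3 : G z (u - v) = G z u - G z v := map_sub _ _ _
  rw [h3] at h1
  have h2 : (G z u - G z v) (u - v) = G z u (u - v) - G z v (u - v) := rfl
  rw [h2, h (u - v), sub_self] at h1
  exact lt_irrefl _ h1

/-- Proof. `inverse` is smooth at invertible operators (`contDiffAt_map_inverse`,
`ContDiffAt.continuousLinearMap_inverse` or similar; finite dimensional spaces are complete). -/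
theorem Met.smooth_inv (hM : Met U G) : ContDiffOn ℝ ∞ (fun z => (G z).inverse) U := by
  have hc : CompleteSpace E := FiniteDimensional.complete ℝ E
  intro z hz
  obtain ⟨e, he⟩ := hM.isInvertible hz
  have h1 : ContDiffAt ℝ ∞ ContinuousLinearMap.inverse (G z) := by
    rw [← he]
    exact contDiffAt_map_inverse e
  have h2 : ContDiffAt ℝ ∞ G z := hM.smooth.contDiffAt (hM.isOpen.mem_nhds hz)
  exact (h1.comp z h2).contDiffWithinAt

end Pool.Agent.Lib.MP_6fca61_gt
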