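import Pool.Agent.Lib.MP_6fca61_gt.Defs

/-!
# MP_6fca61_gt: definitions for the proofs (metrics on open sets, product charts, pieces)
-/

set_option autoImplicit false
set_option maxSynthPendingDepth 3

open scoped Manifold ContDiff Topology

namespace Pool.Agent.Lib.MP_6fca61_gt

noncomputable section

section loc

variable {E : Type*} [NormedAddCommGroup E] [NormedSpace ℝ E]
variable {E' : Type*} [NormedAddCommGroup E'] [NormedSpace ℝ E']

/-- `G` is a smooth metric on the open set `U`. -/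
structure Met (U : Set E) (G : E → E →L[ℝ] E →L[ℝ] ℝ) : Prop where
  isOpen : IsOpen U
  smooth : ContDiffOn ℝ ∞ G U
  symm : ∀ z ∈ U, ∀ u v, G z u v = G z v u
  pos : ∀ z ∈ U, ∀ u, u ≠ 0 → 0 < G z u u

/-- The linear map `pl` is a Riemannian submersion from `(U, G)` to `(V, H)`. -/
structure LS (U : Set E) (G : E → E →L[ℝ] E →L[ℝ] ℝ) (V : Set E') (H : E' → E' →L[ℝ] E' →L[ℝ] ℝ)
    (pl : E →L[ℝ] E') : Prop where
  metG : Met U G
  metH : Met V H
  maps : ∀ z ∈ U, pl z ∈ V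
  surj : Function.Surjective pl
  sub : ∀ z ∈ U, ∀ w, (∀ k, pl k = 0 → G z w k = 0) → G z w w = H (pl z) (pl w) (pl w)

/-- The horizontal lift of a vector (under `LS`): `G(hor x, w) = H(x, pl w)` for all `w`. -/
def hor (G : E → E →L[ℝ] E →L[ℝ] ℝ) (H : E' → E' →L[ℝ] E' →L[ℝ] ℝ) (pl : E →L[ℝ] E') (z : E) :
    E' →L[ℝ] E :=
  (G z).inverse.comp (((ContinuousLinearMap.compL ℝ E E' ℝ).flip pl).comp (H (pl z)))

/-- O'Neill's vector `A_x y = [x, y]^v / 2`. -/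
def avec (G : E → E →L[ℝ] E →L[ℝ] ℝ) (H : E' → E' →L[ℝ] E' →L[ℝ] ℝ) (pl : E →L[ℝ] E') (z : E)
    (x y : E') : E :=
  (1 / 2 : ℝ) • (fderiv ℝ (hor G H pl) z (hor G H pl z x) y
    - fderiv ℝ (hor G H pl) z (hor G H pl z y) x)

/-- The boundary term `[w w, x]_H - [w w, hor x]_G`. -/
def tau (G : E → E →L[ℝ] E →L[ℝ] ℝ) (H : E' → E' →L[ℝ] E' →L[ℝ] ℝ) (pl : E →L[ℝ] E') (z : E)
    (x : E') (w : E) : ℝ :=
  chr H (pl z) (pl w) (pl w) x - chr G z w w (hor G H pl z x)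

/-- Half of the second derivative at `s = 0` of `G(z + s W)(w + s W', w + s W')`. -/
def e2 (G : E → E →L[ℝ] E →L[ℝ] ℝ) (z W w W' : E) : ℝ :=
  fderiv ℝ (fderiv ℝ G) z W W w w / 2 + 2 * fderiv ℝ G z W w W' + G z W' W'

/-- A piece of a horizontal geodesic `z` with projection `pl z` and `(pl z)' = v`, and of the
parallel translation `Q` along `z`. -/
structure Piece (U : Set E) (G : E → E →L[ℝ] E →L[ℝ] ℝ) (H : E' → E' →L[ℝ] E' →L[ℝ] ℝ)
    (pl : E →L[ℝ] E') (ε : ℝ) (z : ℝ → E) (v : ℝ → E') (Q : ℝ → E →L[ℝ] E) : Prop where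
  mem : ∀ t ∈ Set.Icc 0 ε, z t ∈ U
  dz : ∀ t ∈ Set.Icc 0 ε, HasDerivAt z (hor G H pl (z t) (v t)) t
  dv : ∀ t ∈ Set.Icc 0 ε, HasDerivAt v (-Gam H (pl (z t)) (v t) (v t)) t
  dQ : ∀ t ∈ Set.Icc 0 ε, ∀ p, HasDerivAt (fun s => Q s p)
    (-Gam G (z t) (hor G H pl (z t) (v t)) (Q t p)) t
  Q0 : ∀ p, Q 0 p = p

/-- `Ψ` is an isometric change of coordinates from `(U, G)` into `(U', G')`. -/
structure Tr (U : Set E) (G : E → E →L[ℝ] E →L[ℝ] ℝ) (U' : Set E) (G' : E → E →L[ℝ] E →L[ℝ] ℝ)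
    (Ψ : E → E) : Prop where
  metG : Met U G
  metG' : Met U' G'
  smooth : ContDiffOn ℝ ∞ Ψ U
  maps : ∀ z ∈ U, Ψ z ∈ U'
  pull : ∀ z ∈ U, ∀ u v, G z u v = G' (Ψ z) (fderiv ℝ Ψ z u) (fderiv ℝ Ψ z v)

/-- Changes of coordinates of a Riemannian submersion. -/
structure LTr (U : Set E) (G : E → E →L[ℝ] E →L[ℝ] ℝ) (V : Set E')
    (H : E' → E' →L[ℝ] E' →L[ℝ] ℝ) (pl : E →L[ℝ] E') (U' : Set E)
    (G' : E → E →L[ℝ] E →L[ℝ] ℝ) (V' : Set E') (H' : E' → E' →L[ℝ] E' →L[ℝ] ℝ)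
    (pl' : E →L[ℝ] E') (Ψ : E → E) (ψ : E' → E') : Prop where
  ls : LS U G V H pl
  ls' : LS U' G' V' H' pl'
  tM : Tr U G U' G' Ψ
  tB : Tr V H V' H' ψ
  comm : ∀ z ∈ U, pl' (Ψ z) = ψ (pl z)

end loc

section man

variable {E : Type*} [NormedAddCommGroup E] [NormedSpace ℝ E]
variable {M : Type*} [TopologicalSpace M] [ChartedSpace E M]
variable {E' : Type*} [NormedAddCommGroup E'] [NormedSpace ℝ E']
variable {B : Type*} [TopologicalSpace B] [ChartedSpace E' B]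

/-- `g` is a Riemannian metric: symmetric, positive, and smooth in all charts. -/
structure GF (g : Fam E M) : Prop where
  symm : ∀ (p : M) (u v : E), g p u v = g p v u
  pos : ∀ (p : M) (u : E), u ≠ 0 → 0 < g p u u
  smooth : ∀ e ∈ IsManifold.maximalAtlas 𝓘(ℝ, E) ∞ M, ContDiffOn ℝ ∞ (locG g e) e.target

/-- The differential of a chart. -/
def dch (e : OpenPartialHomeomorph M E) (p : M) : E →L[ℝ] E :=
  mfderiv 𝓘(ℝ, E) 𝓘(ℝ, E) e p

/-- The differential of the inverse of a chart. -/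
def dsy (e : OpenPartialHomeomorph M E) (z : E) : E →L[ℝ] E :=
  mfderiv 𝓘(ℝ, E) 𝓘(ℝ, E) e.symm z

variable (E E') in
/-- The differential of the map `π`. -/
def dpi (π : M → B) (p : M) : E →L[ℝ] E' :=
  mfderiv 𝓘(ℝ, E) 𝓘(ℝ, E') π p

/-- The charts `e` of `M` and `e'` of `B` are charts in which `π` is the linear map `pl`. -/
structure PC (π : M → B) (e : OpenPartialHomeomorph M E) (e' : OpenPartialHomeomorph B E')
    (pl : E →L[ℝ] E') : Prop where
  he : e ∈ IsManifold.maximalAtlas 𝓘(ℝ, E) ∞ M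
  he' : e' ∈ IsManifold.maximalAtlas 𝓘(ℝ, E') ∞ B
  maps : ∀ p ∈ e.source, π p ∈ e'.source
  eq : ∀ p ∈ e.source, e' (π p) = pl (e p)
  surj : Function.Surjective pl

/-- The horizontal lift of tangent vectors of `B`: `g(lift x, w) = h(x, dπ w)`. -/
def liftM (g : Fam E M) (h : Fam E' B) (π : M → B) (p : M) : E' →L[ℝ] E :=
  (show E →L[ℝ] E →L[ℝ] ℝ from g p).inverse.comp
    (((ContinuousLinearMap.compL ℝ E E' ℝ).flip (dpi E E' π p)).comp
      (show E' →L[ℝ] E' →L[ℝ] ℝ from h (π p)))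

open Classical in
/-- The boundary term on the manifold. -/
def tauM (g : Fam E M) (h : Fam E' B) (π : M → B) (p : M) (x : E') (w : E) : ℝ :=
  if hp : ∃ c : OpenPartialHomeomorph M E × OpenPartialHomeomorph B E' × (E →L[ℝ] E'),
      PC π c.1 c.2.1 c.2.2 ∧ p ∈ c.1.source then
    tau (locG g hp.choose.1) (locG h hp.choose.2.1) hp.choose.2.2 (hp.choose.1 p)
      (dch hp.choose.2.1 (π p) x) (dch hp.choose.1 p w)
  else 0

open Classical in
/-- O'Neill's vector on the manifold. -/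
def avecM (g : Fam E M) (h : Fam E' B) (π : M → B) (p : M) (x y : E') : E :=
  if hp : ∃ c : OpenPartialHomeomorph M E × OpenPartialHomeomorph B E' × (E →L[ℝ] E'),
      PC π c.1 c.2.1 c.2.2 ∧ p ∈ c.1.source then
    dsy hp.choose.1 (hp.choose.1 p) (avec (locG g hp.choose.1) (locG h hp.choose.2.1)
      hp.choose.2.2 (hp.choose.1 p) (dch hp.choose.2.1 (π p) x) (dch hp.choose.2.1 (π p) y))
  else 0

/-- One step along a horizontal geodesic of unit speed: from the point `p` and the velocity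
`x` of the projection to `p'`, `x'`, with parallel translation `T`, and the basic inequality. -/
structure StepR (g : Fam E M) (h : Fam E' B) (π : M → B) (κ Λ δ : ℝ) (p : M) (x : E') (p' : M)
    (x' : E') (T : E →L[ℝ] E) : Prop where
  unit : h (π p') x' x' = 1
  iso : ∀ u w : E, g p' (T u) (T w) = g p u w
  lift : T (liftM g h π p x) = liftM g h π p' x'
  ineq : ∀ w : E, g p w (liftM g h π p x) = 0 → ∀ φ φ' ρ ρ' q q' : ℝ → ℝ,
    (∀ t ∈ Set.Icc 0 δ, HasDerivAt φ (φ' t) t ∧ HasDerivAt ρ (ρ' t) t ∧ HasDerivAt q (q' t) t ∧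
      ρ' t + ρ t ^ 2 + Λ ≤ 0 ∧ φ' t ^ 2 - κ * φ t ^ 2 ≤ q' t) →
    φ δ ^ 2 * (tauM g h π p' x' (T w) +
        ρ δ * h (π p') (dpi E E' π p' (T w)) (dpi E E' π p' (T w))) -
      φ 0 ^ 2 * (tauM g h π p x w + ρ 0 * h (π p) (dpi E E' π p w) (dpi E E' π p w)) ≤
      g p w w * (q δ - q 0)

end man

end

end Pool.Agent.Lib.MP_6fca61_gt
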