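import Pool.Agent.Lib.MP_6fca61_gt.Loc

/-!
# MP_6fca61_gt (project PW): Riemannian metrics of Mathlib
-/

set_option autoImplicit false
set_option maxSynthPendingDepth 3

open scoped Manifold ContDiff Topology

namespace Pool.Agent.Lib.MP_6fca61_gt

variable {E : Type*} [NormedAddCommGroup E] [NormedSpace ℝ E] [FiniteDimensional ℝ E]
variable {M : Type*} [TopologicalSpace M] [ChartedSpace E M] [IsManifold 𝓘(ℝ, E) ∞ M]

omit [FiniteDimensional ℝ E] in
/-- The image of a constant vector under the differential of the inverse of a chart. -/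
theorem MetM_section {e : OpenPartialHomeomorph M E}
    (he : e ∈ IsManifold.maximalAtlas 𝓘(ℝ, E) ∞ M) (u : E) :
    ContMDiffOn 𝓘(ℝ, E) 𝓘(ℝ, E).tangent ∞
      (fun z => (⟨e.symm z, mfderiv 𝓘(ℝ, E) 𝓘(ℝ, E) e.symm z u⟩ : TangentBundle 𝓘(ℝ, E) M))
      e.target := by
  have h1 := (contMDiffOn_symm_of_mem_maximalAtlas he).contMDiffOn_tangentMapWithin
    (m := ∞) (by simp) e.open_target.uniqueMDiffOn
  have h2 : ContMDiff 𝓘(ℝ, E) 𝓘(ℝ, E).tangent ∞
      (fun z : E => (⟨z, u⟩ : TangentBundle 𝓘(ℝ, E) E)) :=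
    contMDiff_vectorSpace_iff_contDiff.2 contDiff_const
  have h3 := h1.comp (h2.contMDiffOn (s := e.target)) (fun z hz => hz)
  refine h3.congr fun z hz => ?_
  simp only [Function.comp_apply, tangentMapWithin]
  rw [mfderivWithin_of_isOpen e.open_target hz]

/-- Proof. For `e` in the maximal atlas and constant vectors `u`, `v` of `E`, the function
`z ↦ locG g e z u v = g (e.symm z) (D e.symm u) (D e.symm v)` is smooth on `e.target`: the
sections `z ↦ ⟨e.symm z, mfderiv e.symm z u⟩` of the tangent bundle along `e.symm` are smooth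
(`ContMDiffOn.contMDiffOn_tangentMapWithin` or `ContMDiffAt.mfderiv_const`,
`contMDiffOn_symm_of_mem_maximalAtlas`), `g.contMDiff`, and `ContMDiffAt.clm_bundle_apply₂`
(compare the proof of `ContMDiffWithinAt.inner_bundle` in
Mathlib.Geometry.Manifold.VectorBundle.Riemannian). Then use that `E` is finite dimensional
(`contDiffOn_clm_apply` twice). -/
theorem gf (g : Bundle.ContMDiffRiemannianMetric 𝓘(ℝ, E) ∞ E
    (fun p : M => TangentSpace 𝓘(ℝ, E) p)) : GF (fun p : M => g.inner p) := by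
  refine ⟨fun p u v => g.symm p u v, fun p u hu => g.pos p u hu, fun e he => ?_⟩
  rw [contDiffOn_clm_apply]
  intro u
  rw [contDiffOn_clm_apply]
  intro v
  rw [← contMDiffOn_iff_contDiffOn]
  intro z hz
  have hu := MetM_section he u z hz
  have hv := MetM_section he v z hz
  have hb : ContMDiffWithinAt 𝓘(ℝ, E) 𝓘(ℝ, E) ∞ e.symm e.target z :=
    contMDiffOn_symm_of_mem_maximalAtlas he z hz
  have h1 : ContMDiffWithinAt 𝓘(ℝ, E) (𝓘(ℝ, E).prod 𝓘(ℝ)) ∞
      (fun m => Bundle.TotalSpace.mk' ℝ (E := Bundle.Trivial M ℝ) (e.symm m)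
        (g.inner (e.symm m) (mfderiv 𝓘(ℝ, E) 𝓘(ℝ, E) e.symm m u)
          (mfderiv 𝓘(ℝ, E) 𝓘(ℝ, E) e.symm m v))) e.target z := by
    apply ContMDiffWithinAt.clm_bundle_apply₂ (F₁ := E) (F₂ := E)
    · exact ContMDiffAt.comp_contMDiffWithinAt z (g.contMDiff.contMDiffAt) hb
    · exact hu
    · exact hv
  simp only [Bundle.contMDiffWithinAt_totalSpace] at h1
  exact h1.2

end Pool.Agent.Lib.MP_6fca61_gt
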