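import Pool.Agent.Lib.MP_6fca61_gt.AveC

/-!
# MP_6fca61_gt (project PW): the curvature of the base is bounded by the horizontal curvature
-/

set_option autoImplicit false
set_option maxSynthPendingDepth 3

open scoped Manifold ContDiff Topology

namespace Pool.Agent.Lib.MP_6fca61_gt

variable {E : Type*} [NormedAddCommGroup E] [NormedSpace ℝ E] [FiniteDimensional ℝ E]
variable {E' : Type*} [NormedAddCommGroup E'] [NormedSpace ℝ E'] [FiniteDimensional ℝ E']
variable {M : Type*} [TopologicalSpace M] [ChartedSpace E M] [IsManifold 𝓘(ℝ, E) ∞ M]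
variable {B : Type*} [TopologicalSpace B] [ChartedSpace E' B] [IsManifold 𝓘(ℝ, E') ∞ B]
variable {g : Fam E M} {h : Fam E' B} {π : M → B}

/-- Proof. Let `b ∈ B`, `x, y ∈ T_b B`. The field `p ↦ avecM p x y` on the fibre over `b` is
continuous (`avecM_cont`) and tangent to the fibre (`dpi_avecM`), so it vanishes at some `p` with
`π p = b` (`NoField`); there `curv h b x y = curv g p (lift x) (lift y) ≤ Λ area` (`oneillM`,
`hor_lift`), and the areas are equal (`lift_spec`, `dpi_lift`). -/
theorem secB (hg : GF g) (hh : GF h) (hπ : IsRiemSubm g h π) (hF : ∀ b, NoField E E' π b)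
    {Λ : ℝ} (hΛ : HorSecLe E' g π Λ) : SecLe h Λ := by
  intro b x y
  obtain ⟨p, hpb, hp0⟩ := hF b (fun p => (avecM (E := E) (E' := E') g h π p x y : E))
    (avecM_cont hg hh hπ b x y) (fun p _ => dpi_avecM hg hh hπ p x y)
  subst hpb
  have hp0' : avecM g h π p x y = 0 := hp0
  have h1 := oneillM hg hh hπ p x y
  have h3 : g p (avecM g h π p x y : E) (avecM g h π p x y : E) = 0 := by
    rw [hp0']
    exact map_zero _
  rw [h3, mul_zero, add_zero] at h1
  have h2 := hΛ p (liftM g h π p x) (liftM g h π p y) (hor_lift hg hh hπ p x)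
    (hor_lift hg hh hπ p y)
  have hx : ∀ a c : E', g p (liftM g h π p a) (liftM g h π p c) = h (π p) a c := by
    intro a c
    have h4 := lift_spec hg hh hπ p a (liftM g h π p c)
    rw [dpi_lift hg hh hπ p c] at h4
    exact h4
  have h5 : area g p (liftM g h π p x) (liftM g h π p y) = area h (π p) x y := by
    unfold area
    have a1 := hx x x
    have a2 := hx y y
    have a3 := hx x y
    rw [a1, a2, a3]
  rw [h5] at h2
  exact h1.le.trans h2

end Pool.Agent.Lib.MP_6fca61_gt
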