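import Pool.Agent.Lib.MP_6fca61_gt.OdeL

/-!
# MP_6fca61_gt (project PW): uniform existence on compact sets
-/

set_option autoImplicit false
set_option maxSynthPendingDepth 3

open scoped Manifold ContDiff Topology

namespace Pool.Agent.Lib.MP_6fca61_gt

variable {E : Type*} [NormedAddCommGroup E] [NormedSpace ℝ E] [FiniteDimensional ℝ E]
variable {E' : Type*} [NormedAddCommGroup E'] [NormedSpace ℝ E'] [FiniteDimensional ℝ E']
variable {U : Set E} {G : E → E →L[ℝ] E →L[ℝ] ℝ} {V : Set E'}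
  {H : E' → E' →L[ℝ] E' →L[ℝ] ℝ} {pl : E →L[ℝ] E'}

omit [FiniteDimensional ℝ E] [FiniteDimensional ℝ E'] in
theorem Piece.mono {ε δ : ℝ} {z : ℝ → E} {v : ℝ → E'} {Q : ℝ → E →L[ℝ] E}
    (hp : Piece U G H pl ε z v Q) (hδ : δ ≤ ε) : Piece U G H pl δ z v Q where
  mem := fun t ht => hp.mem t ⟨ht.1, ht.2.trans hδ⟩
  dz := fun t ht => hp.dz t ⟨ht.1, ht.2.trans hδ⟩
  dv := fun t ht => hp.dv t ⟨ht.1, ht.2.trans hδ⟩
  dQ := fun t ht => hp.dQ t ⟨ht.1, ht.2.trans hδ⟩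
  Q0 := hp.Q0

omit [FiniteDimensional ℝ E] [FiniteDimensional ℝ E'] in
private theorem OdeK_cont (h : LS U G V H pl) {K : Set E} (hKU : K ⊆ U) (S : Set E') :
    ContinuousOn (fun p : E × E' => H (pl p.1) p.2 p.2) (K ×ˢ S) := by
  have h1 : ContinuousOn (fun p : E × E' => H (pl p.1)) (K ×ˢ S) := by
    refine ContinuousOn.comp (t := V) h.metH.smooth.continuousOn
      (pl.continuous.comp continuous_fst).continuousOn ?_
    intro p hp
    exact h.maps _ (hKU hp.1)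
  exact (h1.clm_apply continuous_snd.continuousOn).clm_apply continuous_snd.continuousOn

omit [FiniteDimensional ℝ E] in
private theorem OdeK_compact (h : LS U G V H pl) {K : Set E} (hK : IsCompact K) (hKU : K ⊆ U) :
    IsCompact {p : E × E' | p.1 ∈ K ∧ H (pl p.1) p.2 p.2 = 1} := by
  have hc : IsCompact (K ×ˢ Metric.sphere (0 : E') 1) := hK.prod (isCompact_sphere 0 1)
  obtain ⟨c, hc0, hcf⟩ := hc.exists_forall_le' (OdeK_cont h hKU _) (a := 0) (by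
    rintro ⟨z, x⟩ ⟨hz, hx⟩
    refine h.metH.pos _ (h.maps _ (hKU hz)) x ?_
    intro hx0
    rw [hx0, mem_sphere_zero_iff_norm, norm_zero] at hx
    exact zero_ne_one hx)
  have hb : ∀ z ∈ K, ∀ v : E', H (pl z) v v = 1 → ‖v‖ ≤ 1 + 1 / c := by
    intro z hz v hv
    have hv0 : v ≠ 0 := by
      intro h0
      rw [h0, map_zero] at hv
      exact zero_ne_one hv
    have hn : 0 < ‖v‖ := norm_pos_iff.2 hv0
    have h1 : c ≤ H (pl z) (‖v‖⁻¹ • v) (‖v‖⁻¹ • v) := by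
      refine hcf (z, ‖v‖⁻¹ • v) ⟨hz, ?_⟩
      rw [mem_sphere_zero_iff_norm, norm_smul, norm_inv, norm_norm, inv_mul_cancel₀ hn.ne']
    have h2 : H (pl z) (‖v‖⁻¹ • v) (‖v‖⁻¹ • v) = ‖v‖⁻¹ * ‖v‖⁻¹ := by
      rw [map_smul, map_smul]
      change ‖v‖⁻¹ * (‖v‖⁻¹ * H (pl z) v v) = _
      rw [hv, mul_one]
    rw [h2] at h1
    have h3 : c * ‖v‖ ^ 2 ≤ 1 := by
      have h4 : c * ‖v‖ ^ 2 ≤ (‖v‖⁻¹ * ‖v‖⁻¹) * ‖v‖ ^ 2 :=
        mul_le_mul_of_nonneg_right h1 (by positivity)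
      have h5 : (‖v‖⁻¹ * ‖v‖⁻¹) * ‖v‖ ^ 2 = 1 := by
        field_simp
      rw [h5] at h4
      exact h4
    by_contra hlt
    push Not at hlt
    have h6 : 0 < 1 / c := by positivity
    have h7 : c * (1 / c) = 1 := by field_simp
    nlinarith
  have hc2 : IsCompact (K ×ˢ Metric.closedBall (0 : E') (1 + 1 / c)) :=
    hK.prod (isCompact_closedBall 0 _)
  have hcl : IsClosed ((K ×ˢ Metric.closedBall (0 : E') (1 + 1 / c)) ∩
      (fun p : E × E' => H (pl p.1) p.2 p.2) ⁻¹' {1}) :=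
    (OdeK_cont h hKU _).preimage_isClosed_of_isClosed hc2.isClosed isClosed_singleton
  have he : {p : E × E' | p.1 ∈ K ∧ H (pl p.1) p.2 p.2 = 1} =
      (K ×ˢ Metric.closedBall (0 : E') (1 + 1 / c)) ∩
      (fun p : E × E' => H (pl p.1) p.2 p.2) ⁻¹' {1} := by
    ext ⟨z, v⟩
    constructor
    · rintro ⟨h1, h2⟩
      exact ⟨⟨h1, mem_closedBall_zero_iff.2 (hb z h1 v h2)⟩, h2⟩
    · rintro ⟨⟨h1, _⟩, h2⟩
      exact ⟨h1, h2⟩
  rw [he]
  exact hc2.of_isClosed_subset hcl Set.inter_subset_left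

/-- Proof. The set of the `(z₁, v₁)` with `z₁ ∈ K`, `H (pl z₁) v₁ v₁ = 1` is compact: closed in
`K × E'` and bounded (the minimum of `H (pl z₁) x x` over `z₁ ∈ K`, `‖x‖ = 1` is positive).
Cover it by finitely many balls of `odeL` and take the smallest `ε`. -/
theorem odeK (h : LS U G V H pl) {K : Set E} (hK : IsCompact K) (hKU : K ⊆ U) :
    ∃ ε > 0, ∀ z₁ ∈ K, ∀ v₁, H (pl z₁) v₁ v₁ = 1 →
      ∃ z v Q, z 0 = z₁ ∧ v 0 = v₁ ∧ Piece U G H pl ε z v Q := by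
  obtain ⟨ε, hε, H1⟩ := (OdeK_compact h hK hKU).induction_on
    (p := fun S : Set (E × E') => ∃ ε > 0, ∀ q ∈ S, ∃ (z : ℝ → E) (v : ℝ → E')
      (Q : ℝ → E →L[ℝ] E), z 0 = q.1 ∧ v 0 = q.2 ∧ Piece U G H pl ε z v Q)
    ⟨1, one_pos, fun q hq => absurd hq (Set.notMem_empty q)⟩
    (fun S T hST ⟨ε, hε, hT⟩ => ⟨ε, hε, fun q hq => hT q (hST hq)⟩)
    (fun S T ⟨ε, hε, hS⟩ ⟨δ, hδ, hT⟩ => by
      refine ⟨min ε δ, lt_min hε hδ, fun q hq => ?_⟩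
      rcases hq with hq | hq
      · obtain ⟨z, v, Q, h1, h2, h3⟩ := hS q hq
        exact ⟨z, v, Q, h1, h2, h3.mono (min_le_left _ _)⟩
      · obtain ⟨z, v, Q, h1, h2, h3⟩ := hT q hq
        exact ⟨z, v, Q, h1, h2, h3.mono (min_le_right _ _)⟩)
    (fun q hq => by
      obtain ⟨r, hr, ε, hε, H2⟩ := odeL h (hKU hq.1) q.2
      refine ⟨Metric.ball q.1 r ×ˢ Metric.ball q.2 r, ?_, ε, hε, ?_⟩
      · refine mem_nhdsWithin_of_mem_nhds ?_
        exact prod_mem_nhds (Metric.ball_mem_nhds _ hr) (Metric.ball_mem_nhds _ hr)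
      · rintro ⟨z, v⟩ ⟨h1, h2⟩
        exact H2 z v h1 h2)
  exact ⟨ε, hε, fun z₁ hz₁ v₁ hv₁ => H1 (z₁, v₁) ⟨hz₁, hv₁⟩⟩

end Pool.Agent.Lib.MP_6fca61_gt
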