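import Pool.Agent.Lib.MP_6fca61_gt.StepP
import Pool.Agent.Lib.MP_6fca61_gt.OdeK
import Pool.Agent.Lib.MP_6fca61_gt.PCex

/-!
# MP_6fca61_gt (project PW): uniform steps
-/

set_option autoImplicit false
set_option maxSynthPendingDepth 3

open scoped Manifold ContDiff Topology

namespace Pool.Agent.Lib.MP_6fca61_gt

variable {E : Type*} [NormedAddCommGroup E] [NormedSpace ℝ E] [FiniteDimensional ℝ E]
variable {E' : Type*} [NormedAddCommGroup E'] [NormedSpace ℝ E'] [FiniteDimensional ℝ E']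
variable {M : Type*} [TopologicalSpace M] [ChartedSpace E M] [IsManifold 𝓘(ℝ, E) ∞ M]
variable {B : Type*} [TopologicalSpace B] [ChartedSpace E' B] [IsManifold 𝓘(ℝ, E') ∞ B]
variable {g : Fam E M} {h : Fam E' B} {π : M → B}

/-- Proof. For every `p₀` take a product chart with `p₀ ∈ e.source` (`pc_ex`), a compact
neighbourhood `K` of `e p₀` in `e.target`, `ε` from `odeK` (`PC.ls`); the interior of
`e.source ∩ e ⁻¹' K` is a neighbourhood of `p₀`. `M` is compact: finitely many of them cover `M`;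
take the smallest `ε`. For `δ ≤ ε` use `Piece.mono` and `stepP`. -/
theorem stepU [CompactSpace M] (hg : GF g) (hh : GF h) (hπ : IsRiemSubm g h π) {κ Λ : ℝ}
    (hκ : SecGe g κ) (hΛ : SecLe h Λ) : ∃ ε > 0, ∀ δ, 0 < δ → δ ≤ ε → ∀ (p : M) (x : E'),
      h (π p) x x = 1 → ∃ p' x' T, StepR g h π κ Λ δ p x p' x' T := by
  have hprop : ProperSpace E := FiniteDimensional.proper_real E
  obtain ⟨ε, hε, H1⟩ := (isCompact_univ (X := M)).induction_on
    (p := fun S : Set M => ∃ ε > 0, ∀ δ, 0 < δ → δ ≤ ε → ∀ p ∈ S, ∀ x : E',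
      h (π p) x x = 1 → ∃ p' x' T, StepR g h π κ Λ δ p x p' x' T)
    ⟨1, one_pos, fun _ _ _ p hp => absurd hp (Set.notMem_empty p)⟩
    (fun S T hST ⟨ε, hε, hT⟩ => ⟨ε, hε, fun δ h1 h2 p hp => hT δ h1 h2 p (hST hp)⟩)
    (fun S T ⟨ε, hε, hS⟩ ⟨δ, hδ, hT⟩ => by
      refine ⟨min ε δ, lt_min hε hδ, fun η h1 h2 p hp => ?_⟩
      rcases hp with hp | hp
      · exact hS η h1 (h2.trans (min_le_left _ _)) p hp
      · exact hT η h1 (h2.trans (min_le_right _ _)) p hp)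
    (fun p₀ _ => by
      obtain ⟨e, e', pl, hc, hp₀⟩ := pc_ex hπ.subm p₀
      obtain ⟨K, hK, hpK, hKe⟩ := exists_compact_subset e.open_target (e.map_source hp₀)
      obtain ⟨ε, hε, H2⟩ := odeK (hc.ls hg hh hπ) hK hKe
      refine ⟨e.source ∩ e ⁻¹' K, ?_, ε, hε, ?_⟩
      · refine mem_nhdsWithin_of_mem_nhds (Filter.inter_mem (e.open_source.mem_nhds hp₀) ?_)
        exact (e.continuousAt hp₀).preimage_mem_nhds (mem_interior_iff_mem_nhds.1 hpK)
      · rintro δ hδ hδε p ⟨hp, hpK'⟩ x hx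
        have h1 : locG h e' (pl (e p)) (dch e' (π p) x) (dch e' (π p) x) = 1 := by
          rw [← hc.eq p hp, ← g_loc hc.he' (hc.maps p hp)]
          exact hx
        obtain ⟨z, v, Q, hz, hv, hP⟩ := H2 (e p) hpK' (dch e' (π p) x) h1
        exact stepP hg hh hπ hc hp hκ hΛ hδ hx hz hv (hP.mono hδε))
  exact ⟨ε, hε, fun δ h1 h2 p x hx => H1 δ h1 h2 p (Set.mem_univ p) x hx⟩

end Pool.Agent.Lib.MP_6fca61_gt
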