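import Pool.Agent.Lib.MP_6fca61_gt.Core
import Pool.Agent.Lib.MP_6fca61_gt.StepU
import Pool.Agent.Lib.MP_6fca61_gt.SecB
import Pool.Agent.Lib.MP_6fca61_gt.MetM

/-!
# MP_6fca61_gt (project PW): the pinching theorems
-/

set_option autoImplicit false
set_option maxSynthPendingDepth 3

open scoped Manifold ContDiff Topology

namespace Pool.Agent.Lib.MP_6fca61_gt

variable {E : Type*} [NormedAddCommGroup E] [NormedSpace ℝ E] [FiniteDimensional ℝ E]
variable {E' : Type*} [NormedAddCommGroup E'] [NormedSpace ℝ E'] [FiniteDimensional ℝ E']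
variable {M : Type*} [TopologicalSpace M] [ChartedSpace E M] [IsManifold 𝓘(ℝ, E) ∞ M]
variable {B : Type*} [TopologicalSpace B] [ChartedSpace E' B] [IsManifold 𝓘(ℝ, E') ∞ B]

/-- The dimension estimate for an upper bound of the curvature of the base. -/
theorem mainB [CompactSpace M] [Nonempty M]
    (g : Bundle.ContMDiffRiemannianMetric 𝓘(ℝ, E) ∞ E (fun p : M => TangentSpace 𝓘(ℝ, E) p))
    (h : Bundle.ContMDiffRiemannianMetric 𝓘(ℝ, E') ∞ E' (fun p : B => TangentSpace 𝓘(ℝ, E') p))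
    (π : M → B) (hπ : IsRiemSubm (fun p => g.inner p) (fun p => h.inner p) π)
    {κ Λ : ℝ} (hκ : 0 < κ) (hsec : SecGe (fun p => g.inner p) κ)
    (hB : SecLe (fun p => h.inner p) Λ) {m : ℕ} (hm : 2 ≤ m)
    (hΛ : Λ < (m : ℝ) ^ 2 * κ) (hb : 0 < Module.finrank ℝ E') :
    Module.finrank ℝ E - Module.finrank ℝ E' ≤ (m - 2) * (Module.finrank ℝ E' - 1) :=
  core (gf g) (gf h) hπ hκ (stepU (gf g) (gf h) hπ hsec hB) hm hΛ hb

/-- The dimension estimate under a pinching condition, for fibres without nowhere vanishing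
tangent vector fields. -/
theorem mainP [CompactSpace M] [Nonempty M]
    (g : Bundle.ContMDiffRiemannianMetric 𝓘(ℝ, E) ∞ E (fun p : M => TangentSpace 𝓘(ℝ, E) p))
    (h : Bundle.ContMDiffRiemannianMetric 𝓘(ℝ, E') ∞ E' (fun p : B => TangentSpace 𝓘(ℝ, E') p))
    (π : M → B) (hπ : IsRiemSubm (fun p => g.inner p) (fun p => h.inner p) π)
    (hF : ∀ b, NoField E E' π b) {κ Λ : ℝ} (hκ : 0 < κ) (hsec : SecGe (fun p => g.inner p) κ)
    (hhor : HorSecLe E' (fun p => g.inner p) π Λ) {m : ℕ} (hm : 2 ≤ m)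
    (hΛ : Λ < (m : ℝ) ^ 2 * κ) (hb : 0 < Module.finrank ℝ E') :
    Module.finrank ℝ E - Module.finrank ℝ E' ≤ (m - 2) * (Module.finrank ℝ E' - 1) :=
  mainB g h π hπ hκ hsec (secB (gf g) (gf h) hπ hF hhor) hm hΛ hb

end Pool.Agent.Lib.MP_6fca61_gt
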