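import Pool.Agent.Lib.MP_6fca61_gt.VOdeL

/-!
# MP_6fca61_gt (project PW): uniform existence on compact sets, vertical version
-/

set_option autoImplicit false
set_option maxSynthPendingDepth 3

open scoped Manifold ContDiff Topology

namespace Pool.Agent.Lib.MP_6fca61_gt

variable {E : Type*} [NormedAddCommGroup E] [NormedSpace ℝ E] [FiniteDimensional ℝ E]
variable {E' : Type*} [NormedAddCommGroup E'] [NormedSpace ℝ E'] [FiniteDimensional ℝ E']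
variable {U : Set E} {G : E → E →L[ℝ] E →L[ℝ] ℝ} {V : Set E'}
  {H : E' → E' →L[ℝ] E' →L[ℝ] ℝ} {pl : E →L[ℝ] E'}

private theorem VOdeK_cont (h : LS U G V H pl) {K : Set E} (hKU : K ⊆ U) (S : Set E') :
    ContinuousOn (fun p : E × E' => H (pl p.1) p.2 p.2) (K ×ˢ S) := by
  have h1 : ContinuousOn (fun p : E × E' => H (pl p.1)) (K ×ˢ S) := by
    refine h.metH.smooth.continuousOn.comp (pl.continuous.comp continuous_fst).continuousOn ?_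
    intro p hp
    exact h.maps _ (hKU hp.1)
  exact (h1.clm_apply continuousOn_snd).clm_apply continuousOn_snd

private theorem VOdeK_bound (h : LS U G V H pl) {K : Set E} (hK : IsCompact K) (hKU : K ⊆ U) :
    ∃ R : ℝ, ∀ z₁ ∈ K, ∀ v₁, H (pl z₁) v₁ v₁ = 1 → ‖v₁‖ ≤ R := by
  have hS : IsCompact (Metric.sphere (0 : E') 1) := isCompact_sphere _ _
  have hu : ∀ v : E', v ≠ 0 → ‖v‖⁻¹ • v ∈ Metric.sphere (0 : E') 1 := by
    intro v hv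
    rw [mem_sphere_zero_iff_norm, norm_smul, norm_inv, norm_norm,
      inv_mul_cancel₀ (norm_ne_zero_iff.2 hv)]
  have hv0 : ∀ (z₁ : E) (v₁ : E'), H (pl z₁) v₁ v₁ = 1 → v₁ ≠ 0 := by
    rintro z₁ v₁ h1 rfl
    rw [map_zero] at h1
    exact zero_ne_one h1
  rcases (K ×ˢ Metric.sphere (0 : E') 1).eq_empty_or_nonempty with he | hne
  · refine ⟨0, fun z₁ hz₁ v₁ hv₁ => ?_⟩
    have h1 : (z₁, ‖v₁‖⁻¹ • v₁) ∈ K ×ˢ Metric.sphere (0 : E') 1 :=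
      ⟨hz₁, hu v₁ (hv0 z₁ v₁ hv₁)⟩
    rw [he] at h1
    exact absurd h1 (Set.notMem_empty _)
  · obtain ⟨p, hp, hmin⟩ := (hK.prod hS).exists_isMinOn hne (VOdeK_cont h hKU _)
    have hp2 : p.2 ≠ 0 := by
      intro h0
      have h1 := hp.2
      rw [mem_sphere_zero_iff_norm, h0, norm_zero] at h1
      exact zero_ne_one h1
    have hc : 0 < H (pl p.1) p.2 p.2 := h.metH.pos _ (h.maps _ (hKU hp.1)) _ hp2
    refine ⟨(H (pl p.1) p.2 p.2)⁻¹ + 1, fun z₁ hz₁ v₁ hv₁ => ?_⟩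
    have hn := hv0 z₁ v₁ hv₁
    have hn' : 0 < ‖v₁‖ := norm_pos_iff.2 hn
    have h1 : H (pl p.1) p.2 p.2 ≤ H (pl z₁) (‖v₁‖⁻¹ • v₁) (‖v₁‖⁻¹ • v₁) :=
      isMinOn_iff.1 hmin (z₁, ‖v₁‖⁻¹ • v₁) ⟨hz₁, hu v₁ hn⟩
    rw [map_smul, map_smul, smul_apply, smul_eq_mul, smul_eq_mul, hv₁, mul_one] at h1
    have h2 : H (pl p.1) p.2 p.2 * ‖v₁‖ ^ 2 ≤ 1 := by
      have h3 := mul_le_mul_of_nonneg_right h1 (sq_nonneg ‖v₁‖)
      have h4 : ‖v₁‖⁻¹ * ‖v₁‖⁻¹ * ‖v₁‖ ^ 2 = 1 := by field_simp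
      rwa [h4] at h3
    have h5 : ‖v₁‖ ^ 2 ≤ (H (pl p.1) p.2 p.2)⁻¹ := by
      rw [inv_eq_one_div, le_div_iff₀ hc, mul_comm]
      exact h2
    nlinarith [sq_nonneg (‖v₁‖ - 1)]

omit [FiniteDimensional ℝ E] [FiniteDimensional ℝ E'] in
theorem VPiece.mono {ε δ : ℝ} {z : ℝ → E} {v : ℝ → E'} {R : ℝ → E →L[ℝ] E}
    (hp : VPiece U G H pl ε z v R) (hδ : δ ≤ ε) : VPiece U G H pl δ z v R :=
  have hs : Set.Icc 0 δ ⊆ Set.Icc 0 ε := Set.Icc_subset_Icc_right hδ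
  ⟨fun t ht => hp.mem t (hs ht), fun t ht => hp.dz t (hs ht), fun t ht => hp.dv t (hs ht),
    fun t ht => hp.dR t (hs ht), hp.R0⟩

/-- Proof. As `odeK` (module OdeK.lean). -/
theorem vodeK (h : LS U G V H pl) {K : Set E} (hK : IsCompact K) (hKU : K ⊆ U) :
    ∃ ε > 0, ∀ z₁ ∈ K, ∀ v₁, H (pl z₁) v₁ v₁ = 1 →
      ∃ z v R, z 0 = z₁ ∧ v 0 = v₁ ∧ VPiece U G H pl ε z v R := by
  obtain ⟨R₀, hR₀⟩ := VOdeK_bound h hK hKU
  have hC : IsCompact ((K ×ˢ Metric.closedBall (0 : E') R₀) ∩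
      (fun p : E × E' => H (pl p.1) p.2 p.2) ⁻¹' {1}) := by
    have h1 : IsCompact (K ×ˢ Metric.closedBall (0 : E') R₀) := hK.prod (isCompact_closedBall _ _)
    refine h1.of_isClosed_subset ?_ Set.inter_subset_left
    exact (VOdeK_cont h hKU _).preimage_isClosed_of_isClosed h1.isClosed isClosed_singleton
  have key : ∃ ε > 0, ∀ p ∈ ((K ×ˢ Metric.closedBall (0 : E') R₀) ∩
      (fun p : E × E' => H (pl p.1) p.2 p.2) ⁻¹' {1}),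
      ∃ z v R, z 0 = p.1 ∧ v 0 = p.2 ∧ VPiece U G H pl ε z v R := by
    refine hC.induction_on (p := fun S => ∃ ε > 0, ∀ p ∈ S,
      ∃ z v R, z 0 = p.1 ∧ v 0 = p.2 ∧ VPiece U G H pl ε z v R) ?_ ?_ ?_ ?_
    · exact ⟨1, one_pos, fun p hp => absurd hp (Set.notMem_empty _)⟩
    · rintro s t hst ⟨ε, hε, h1⟩
      exact ⟨ε, hε, fun p hp => h1 p (hst hp)⟩
    · rintro s t ⟨ε, hε, h1⟩ ⟨δ, hδ, h2⟩
      refine ⟨min ε δ, lt_min hε hδ, fun p hp => ?_⟩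
      rcases hp with hp | hp
      · obtain ⟨z, v, R, e1, e2, hp⟩ := h1 p hp
        exact ⟨z, v, R, e1, e2, hp.mono (min_le_left _ _)⟩
      · obtain ⟨z, v, R, e1, e2, hp⟩ := h2 p hp
        exact ⟨z, v, R, e1, e2, hp.mono (min_le_right _ _)⟩
    · rintro ⟨z₀, v₀⟩ hp
      obtain ⟨r, hr, ε, hε, h1⟩ := vodeL h (hKU hp.1.1) v₀
      refine ⟨Metric.ball z₀ r ×ˢ Metric.ball v₀ r, mem_nhdsWithin_of_mem_nhds
        (prod_mem_nhds (Metric.ball_mem_nhds _ hr) (Metric.ball_mem_nhds _ hr)), ε, hε,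
        fun p hp => h1 p.1 p.2 hp.1 hp.2⟩
  obtain ⟨ε, hε, h1⟩ := key
  refine ⟨ε, hε, fun z₁ hz₁ v₁ hv₁ => ?_⟩
  exact h1 (z₁, v₁) ⟨⟨hz₁, mem_closedBall_zero_iff.2 (hR₀ z₁ hz₁ v₁ hv₁)⟩, hv₁⟩

end Pool.Agent.Lib.MP_6fca61_gt
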