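import Pool.Agent.Lib.MP_6fca61_gt.VStepP
import Pool.Agent.Lib.MP_6fca61_gt.VOdeK
import Pool.Agent.Lib.MP_6fca61_gt.PCex

/-!
# MP_6fca61_gt (project PW): uniform vertical steps
-/

set_option autoImplicit false
set_option maxSynthPendingDepth 3

open scoped Manifold ContDiff Topology

namespace Pool.Agent.Lib.MP_6fca61_gt

variable {E : Type*} [NormedAddCommGroup E] [NormedSpace ℝ E] [FiniteDimensional ℝ E]
variable {E' : Type*} [NormedAddCommGroup E'] [NormedSpace ℝ E'] [FiniteDimensional ℝ E']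
variable {M : Type*} [TopologicalSpace M] [ChartedSpace E M] [IsManifold 𝓘(ℝ, E) ∞ M]
variable {B : Type*} [TopologicalSpace B] [ChartedSpace E' B] [IsManifold 𝓘(ℝ, E') ∞ B]
variable {g : Fam E M} {h : Fam E' B} {π : M → B}

/-- the statement near a point -/
private theorem VStepU_local (hg : GF g) (hh : GF h) (hπ : IsRiemSubm g h π) {κ r β : ℝ}
    {f : ℕ} (hf : f + Module.finrank ℝ E' = Module.finrank ℝ E)
    (hβ : (r - κ * (Module.finrank ℝ E' - 1)) / 3 - κ * f ≤ β)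
    (hκ : SecGe g κ) (hr : RicLe h r) (p₀ : M) : ∃ N ∈ 𝓝 p₀, ∃ ε > 0, ∀ δ, 0 < δ → δ ≤ ε →
      ∀ p ∈ N, ∀ (x : E')
      (u : Fin f → E), h (π p) x x = 1 → (∀ i, dpi E E' π p (u i) = 0) →
      ONF (show E →L[ℝ] E →L[ℝ] ℝ from g p) u → ∃ p' x' u', StepV g h π β δ p x u p' x' u' := by
  obtain ⟨e, e', pl, hc, hp₀⟩ := pc_ex hπ.subm p₀
  have hE : LocallyCompactSpace E := inferInstance
  obtain ⟨K, hK, hpK, hKt⟩ := exists_compact_subset e.open_target (e.map_source hp₀)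
  obtain ⟨ε, hε, hode⟩ := vodeK (PC.ls hg hh hπ hc) hK hKt
  refine ⟨e.source ∩ e ⁻¹' (interior K),
    (e.isOpen_inter_preimage isOpen_interior).mem_nhds ⟨hp₀, hpK⟩, ε, hε, ?_⟩
  rintro δ hδ hδε p ⟨hp1, hp2⟩ x u hx hu huo
  have h1 : h (π p) x x = locG h e' (e' (π p)) (dch e' (π p) x) (dch e' (π p) x) :=
    g_loc hc.he' (hc.maps p hp1) x x
  rw [hc.eq p hp1, hx] at h1
  obtain ⟨z, v, R, hz, hv, hP⟩ := hode (e p) (interior_subset hp2) (dch e' (π p) x) h1.symm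
  exact vstepP hg hh hπ hc hp1 hf hβ hκ hr hδ hx hu huo hz hv (hP.mono hδε)

/-- Proof. As `stepU` (module StepU.lean). -/
theorem vstepU [CompactSpace M] (hg : GF g) (hh : GF h) (hπ : IsRiemSubm g h π) {κ r β : ℝ}
    {f : ℕ} (hf : f + Module.finrank ℝ E' = Module.finrank ℝ E)
    (hβ : (r - κ * (Module.finrank ℝ E' - 1)) / 3 - κ * f ≤ β)
    (hκ : SecGe g κ) (hr : RicLe h r) : ∃ ε > 0, ∀ δ, 0 < δ → δ ≤ ε → ∀ (p : M) (x : E')
      (u : Fin f → E), h (π p) x x = 1 → (∀ i, dpi E E' π p (u i) = 0) →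
      ONF (show E →L[ℝ] E →L[ℝ] ℝ from g p) u → ∃ p' x' u', StepV g h π β δ p x u p' x' u' := by
  have key : ∃ ε > 0, ∀ δ, 0 < δ → δ ≤ ε → ∀ p ∈ (Set.univ : Set M), ∀ (x : E')
      (u : Fin f → E), h (π p) x x = 1 → (∀ i, dpi E E' π p (u i) = 0) →
      ONF (show E →L[ℝ] E →L[ℝ] ℝ from g p) u → ∃ p' x' u', StepV g h π β δ p x u p' x' u' := by
    refine isCompact_univ.induction_on (p := fun s : Set M => ∃ ε > 0, ∀ δ, 0 < δ → δ ≤ ε →
      ∀ p ∈ s, ∀ (x : E')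
      (u : Fin f → E), h (π p) x x = 1 → (∀ i, dpi E E' π p (u i) = 0) →
      ONF (show E →L[ℝ] E →L[ℝ] ℝ from g p) u → ∃ p' x' u', StepV g h π β δ p x u p' x' u')
      ?_ ?_ ?_ ?_
    · exact ⟨1, one_pos, fun δ _ _ p hp => absurd hp (Set.notMem_empty p)⟩
    · rintro s t hst ⟨ε, hε, h1⟩
      exact ⟨ε, hε, fun δ hδ hδε p hp => h1 δ hδ hδε p (hst hp)⟩
    · rintro s t ⟨ε, hε, h1⟩ ⟨ε', hε', h2⟩
      refine ⟨min ε ε', lt_min hε hε', fun δ hδ hδε p hp => ?_⟩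
      rcases hp with hp | hp
      · exact h1 δ hδ (hδε.trans (min_le_left _ _)) p hp
      · exact h2 δ hδ (hδε.trans (min_le_right _ _)) p hp
    · intro p₀ _
      obtain ⟨N, hN, h1⟩ := VStepU_local hg hh hπ hf hβ hκ hr p₀
      exact ⟨N, mem_nhdsWithin_of_mem_nhds hN, h1⟩
  obtain ⟨ε, hε, h1⟩ := key
  exact ⟨ε, hε, fun δ hδ hδε p => h1 δ hδ hδε p (Set.mem_univ p)⟩

end Pool.Agent.Lib.MP_6fca61_gt
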