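import Pool.Agent.Lib.MP_6fca61_gt.VCore
import Pool.Agent.Lib.MP_6fca61_gt.VStepU
import Pool.Agent.Lib.MP_6fca61_gt.MetM

/-!
# MP_6fca61_gt (project PW): the Ricci theorem
-/

set_option autoImplicit false
set_option maxSynthPendingDepth 3

open scoped Manifold ContDiff Topology

namespace Pool.Agent.Lib.MP_6fca61_gt

variable {E : Type*} [NormedAddCommGroup E] [NormedSpace ℝ E] [FiniteDimensional ℝ E]
variable {E' : Type*} [NormedAddCommGroup E'] [NormedSpace ℝ E'] [FiniteDimensional ℝ E']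
variable {M : Type*} [TopologicalSpace M] [ChartedSpace E M] [IsManifold 𝓘(ℝ, E) ∞ M]
variable {B : Type*} [TopologicalSpace B] [ChartedSpace E' B] [IsManifold 𝓘(ℝ, E') ∞ B]

/-- The Ricci curvature of the base of a Riemannian submersion of a compact positively curved
manifold. -/
theorem mainR [CompactSpace M] [Nonempty M]
    (g : Bundle.ContMDiffRiemannianMetric 𝓘(ℝ, E) ∞ E (fun p : M => TangentSpace 𝓘(ℝ, E) p))
    (h : Bundle.ContMDiffRiemannianMetric 𝓘(ℝ, E') ∞ E' (fun p : B => TangentSpace 𝓘(ℝ, E') p))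
    (π : M → B) (hπ : IsRiemSubm (fun p => g.inner p) (fun p => h.inner p) π) {κ r : ℝ}
    (hsec : SecGe (fun p => g.inner p) κ) (hr : RicLe (fun p => h.inner p) r) {f : ℕ}
    (hf : f + Module.finrank ℝ E' = Module.finrank ℝ E) (hb : 0 < Module.finrank ℝ E') :
    κ * (Module.finrank ℝ E' - 1 + 3 * f) ≤ r := by
  have hs := vstepU (gf g) (gf h) hπ hf
    (β := (r - κ * (Module.finrank ℝ E' - 1)) / 3 - κ * f) le_rfl hsec hr
  have h1 := vcore (gf g) (gf h) (dpi_surj hπ.subm) hf hb hs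
  linarith

end Pool.Agent.Lib.MP_6fca61_gt
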