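import Pool.Agent.Lib.MP_6fca61_gt.Geo

/-!
# MP_6fca61_gt (project PW): local existence
-/

set_option autoImplicit false
set_option maxSynthPendingDepth 3

open scoped Manifold ContDiff Topology

namespace Pool.Agent.Lib.MP_6fca61_gt

variable {E : Type*} [NormedAddCommGroup E] [NormedSpace ℝ E] [FiniteDimensional ℝ E]
variable {E' : Type*} [NormedAddCommGroup E'] [NormedSpace ℝ E'] [FiniteDimensional ℝ E']
variable {U : Set E} {G : E → E →L[ℝ] E →L[ℝ] ℝ} {V : Set E'}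
  {H : E' → E' →L[ℝ] E' →L[ℝ] ℝ} {pl : E →L[ℝ] E'}

open Metric Set in
/-- Picard-Lindelöf with a uniform time, a uniform radius and a prescribed neighbourhood. -/
private theorem OdeL_pl {X : Type*} [NormedAddCommGroup X] [NormedSpace ℝ X] [CompleteSpace X]
    {f : X → X} {x₀ : X} {W : Set X} (hW : W ∈ 𝓝 x₀) (hf : ContDiffAt ℝ 1 f x₀) :
    ∃ r > 0, ∃ ε > 0, ∀ x ∈ closedBall x₀ r, ∃ α : ℝ → X, α 0 = x ∧
      ∀ t ∈ Ioo (-ε) ε, HasDerivAt α (f (α t)) t ∧ α t ∈ W := by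
  obtain ⟨ε, hε, a, r, L, K, hr, hpl⟩ := IsPicardLindelof.of_contDiffAt_one hf
  obtain ⟨b, hb, hbW⟩ := Metric.nhds_basis_closedBall.mem_iff.1 hW
  have h0 := hpl 0
  have hra : r ≤ a := by
    have h1 := h0.mul_max_le
    have h2 : (0:ℝ) ≤ (L : ℝ) * max ((0:ℝ) + ε - (0:ℝ)) ((0:ℝ) - ((0:ℝ) - ε)) :=
      mul_nonneg L.coe_nonneg (le_max_of_le_left (by linarith))
    have h3 : (0:ℝ) ≤ (a : ℝ) - r := h2.trans h1
    exact_mod_cast (sub_nonneg.1 h3)
  obtain ⟨a', ha'0, ha'a, ha'b⟩ : ∃ a' : NNReal, 0 < a' ∧ a' ≤ a ∧ (a' : ℝ) ≤ b := by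
    refine ⟨min a ⟨b, hb.le⟩, lt_min (hr.trans_le hra) (by exact_mod_cast hb), min_le_left _ _, ?_⟩
    exact_mod_cast min_le_right a (⟨b, hb.le⟩ : NNReal)
  obtain ⟨ε', hε', h'⟩ := h0.exists_shrink_radius hε ha'a (r' := a' / 2)
    (NNReal.half_lt_self ha'0.ne')
  refine ⟨((a' / 2 : NNReal) : ℝ), by exact_mod_cast (half_pos ha'0), ε', hε', fun x hx => ?_⟩
  obtain ⟨α, hα⟩ := ODE.FunSpace.exists_isFixedPt_next h' hx
  refine ⟨α.compProj, ?_, fun t ht => ⟨?_, ?_⟩⟩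
  · have h1 : α.compProj 0 = α ⟨0, by simp [hε'.le]⟩ :=
      ODE.FunSpace.compProj_val (t := ⟨0, by simp [hε'.le]⟩)
    rw [h1, ← hα, ODE.FunSpace.next_apply₀]
  · have ht' : t ∈ Ioo (0 - ε') (0 + ε') := by simpa using ht
    have hd : HasDerivWithinAt α.compProj (f (α.compProj t)) (Icc (0 - ε') (0 + ε')) t := by
      refine (ODE.hasDerivWithinAt_picard_Icc (t₀ := 0) (by simp [hε'.le])
        h'.continuousOn_uncurry α.continuous_compProj.continuousOn
        (fun _ _ => α.compProj_mem_closedBall h'.mul_max_le) x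
        (Ioo_subset_Icc_self ht')).congr_of_mem ?_ (Ioo_subset_Icc_self ht')
      intro t' ht''
      nth_rw 1 [← hα]
      rw [ODE.FunSpace.compProj_of_mem ht'', ODE.FunSpace.next_apply]
    exact hd.hasDerivAt (Icc_mem_nhds ht'.1 ht'.2)
  · refine hbW (closedBall_subset_closedBall ha'b ?_)
    exact α.compProj_mem_closedBall h'.mul_max_le

/-- Proof. Picard-Lindelöf in the space `E × E' × (E →L[ℝ] E)` for the vector field
`(z, v, Q) ↦ (hor z v, -Γ_H(pl z)(v, v), -GB z (hor z v) ∘ Q)` (`gam_smooth` for `G` and for `H`,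
`hor_smooth`), which is `C¹` near `(z₀, v₀, 1)`. Mathlib has the local existence with a uniform
time and a uniform radius of the initial values, e.g.
`ContDiffAt.exists_forall_mem_closedBall_exists_eq_forall_mem_Ioo_hasDerivAt` or
`IsPicardLindelof`. The solutions stay in `U` for a uniform time: the solution is continuous in
the ball in which the theorem gives it; one may shrink (use that the solution stays in a fixed
ball around the initial value, or multiply by a cut-off, or use that the domain of the vector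
field can be replaced by a closed ball contained in `U × _ × _`). Take `ε` smaller than the
existence time, so that the derivative exists on `[0, ε]`. -/
theorem odeL (h : LS U G V H pl) {z₀ : E} (hz₀ : z₀ ∈ U) (v₀ : E') :
    ∃ r > 0, ∃ ε > 0, ∀ z₁ v₁, dist z₁ z₀ < r → dist v₁ v₀ < r →
      ∃ z v Q, z 0 = z₁ ∧ v 0 = v₁ ∧ Piece U G H pl ε z v Q := by
  have : CompleteSpace E := FiniteDimensional.complete ℝ E
  have : CompleteSpace E' := FiniteDimensional.complete ℝ E'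
  obtain ⟨GG, hGG, hGG'⟩ := gam_smooth h.metG
  obtain ⟨GH, hGH, hGH'⟩ := gam_smooth h.metH
  have hU : U ∈ 𝓝 z₀ := h.metG.isOpen.mem_nhds hz₀
  have hV : V ∈ 𝓝 (pl z₀) := h.metH.isOpen.mem_nhds (h.maps z₀ hz₀)
  -- the vector field
  let f : E × E' × (E →L[ℝ] E) → E × E' × (E →L[ℝ] E) := fun x =>
    (hor G H pl x.1 x.2.1, -(GH (pl x.1) x.2.1 x.2.1),
      -((GG x.1 (hor G H pl x.1 x.2.1)).comp x.2.2))
  let x₀ : E × E' × (E →L[ℝ] E) := (z₀, v₀, ContinuousLinearMap.id ℝ E)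
  have hf1 : ContDiffAt ℝ 1 (fun x : E × E' × (E →L[ℝ] E) => hor G H pl x.1 x.2.1) x₀ := by
    have h1 : ContDiffAt ℝ 1 (hor G H pl) z₀ :=
      ((hor_smooth h).contDiffAt hU).of_le (by exact_mod_cast le_top)
    have h2 : ContDiffAt ℝ 1 (fun x : E × E' × (E →L[ℝ] E) => hor G H pl x.1) x₀ :=
      ContDiffAt.comp x₀ (g := hor G H pl) (f := Prod.fst) h1 contDiffAt_fst
    exact h2.clm_apply contDiffAt_snd.fst
  have hf2 : ContDiffAt ℝ 1 (fun x : E × E' × (E →L[ℝ] E) => GH (pl x.1) x.2.1 x.2.1) x₀ := by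
    have h1 : ContDiffAt ℝ 1 GH (pl z₀) :=
      (hGH.contDiffAt hV).of_le (by exact_mod_cast le_top)
    have h0 : ContDiffAt ℝ 1 (fun x : E × E' × (E →L[ℝ] E) => pl x.1) x₀ :=
      pl.contDiff.contDiffAt.comp x₀ contDiffAt_fst
    have h2 : ContDiffAt ℝ 1 (fun x : E × E' × (E →L[ℝ] E) => GH (pl x.1)) x₀ :=
      ContDiffAt.comp x₀ (g := GH) (f := fun x : E × E' × (E →L[ℝ] E) => pl x.1) h1 h0
    exact (h2.clm_apply contDiffAt_snd.fst).clm_apply contDiffAt_snd.fst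
  have hf3 : ContDiffAt ℝ 1 (fun x : E × E' × (E →L[ℝ] E) =>
      (GG x.1 (hor G H pl x.1 x.2.1)).comp x.2.2) x₀ := by
    have h1 : ContDiffAt ℝ 1 GG z₀ :=
      (hGG.contDiffAt hU).of_le (by exact_mod_cast le_top)
    have h2 : ContDiffAt ℝ 1 (fun x : E × E' × (E →L[ℝ] E) => GG x.1) x₀ :=
      ContDiffAt.comp x₀ (g := GG) (f := Prod.fst) h1 contDiffAt_fst
    exact (h2.clm_apply hf1).clm_comp contDiffAt_snd.snd
  have hf : ContDiffAt ℝ 1 f x₀ := hf1.prodMk (hf2.neg.prodMk hf3.neg)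
  have hW : {x : E × E' × (E →L[ℝ] E) | x.1 ∈ U} ∈ 𝓝 x₀ :=
    continuous_fst.continuousAt.preimage_mem_nhds hU
  obtain ⟨r, hr, ε, hε, hα⟩ := OdeL_pl hW hf
  refine ⟨r, hr, ε / 2, half_pos hε, fun z₁ v₁ hz₁ hv₁ => ?_⟩
  obtain ⟨α, hα0, hα1⟩ := hα (z₁, v₁, ContinuousLinearMap.id ℝ E) (by
    rw [Metric.mem_closedBall, Prod.dist_eq, Prod.dist_eq]
    refine max_le hz₁.le (max_le hv₁.le ?_)
    change dist (ContinuousLinearMap.id ℝ E) (ContinuousLinearMap.id ℝ E) ≤ r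
    rw [dist_self]
    exact hr.le)
  have hIcc : ∀ t ∈ Set.Icc 0 (ε / 2), t ∈ Set.Ioo (-ε) ε := by
    rintro t ⟨h1, h2⟩
    exact ⟨by linarith, by linarith⟩
  refine ⟨fun t => (α t).1, fun t => (α t).2.1, fun t => (α t).2.2,
    congrArg Prod.fst hα0, congrArg (fun x => x.2.1) hα0, ?_, ?_, ?_, ?_, ?_⟩
  · intro t ht
    exact (hα1 t (hIcc t ht)).2
  · intro t ht
    have h1 := (hα1 t (hIcc t ht)).1
    exact (ContinuousLinearMap.fst ℝ E (E' × (E →L[ℝ] E))).hasFDerivAt.comp_hasDerivAt t h1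
  · intro t ht
    obtain ⟨h1, h2⟩ := hα1 t (hIcc t ht)
    have h3 := ((ContinuousLinearMap.fst ℝ E' (E →L[ℝ] E)).comp
      (ContinuousLinearMap.snd ℝ E (E' × (E →L[ℝ] E)))).hasFDerivAt.comp_hasDerivAt t h1
    rw [← hGH' _ (h.maps _ h2)]
    exact h3
  · intro t ht p
    obtain ⟨h1, h2⟩ := hα1 t (hIcc t ht)
    have h3 := ((ContinuousLinearMap.apply ℝ E p).comp
      ((ContinuousLinearMap.snd ℝ E' (E →L[ℝ] E)).comp
      (ContinuousLinearMap.snd ℝ E (E' × (E →L[ℝ] E))))).hasFDerivAt.comp_hasDerivAt t h1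
    rw [← hGG' _ h2]
    exact h3
  · intro p
    rw [hα0]
    rfl

end Pool.Agent.Lib.MP_6fca61_gt
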