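import Pool.Agent.Lib.MP_6fca61_gt.VDefs

/-!
# MP_6fca61_gt (project PW): orthonormal bases of bilinear forms
-/

set_option autoImplicit false
set_option maxSynthPendingDepth 3

open scoped Manifold ContDiff Topology

namespace Pool.Agent.Lib.MP_6fca61_gt

variable {E : Type*} [NormedAddCommGroup E] [NormedSpace ℝ E] [FiniteDimensional ℝ E]
variable {E' : Type*} [NormedAddCommGroup E'] [NormedSpace ℝ E'] [FiniteDimensional ℝ E']

omit [FiniteDimensional ℝ E] in
private theorem OnB_sum {ι : Type*} [Fintype ι] {β : E →L[ℝ] E →L[ℝ] ℝ} {u : ι → E}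
    (hu : ONF β u) (c : ι → ℝ) (j : ι) : β (∑ i, c i • u i) (u j) = c j := by
  classical
  rw [map_sum, sum_apply, Finset.sum_eq_single j]
  · rw [map_smul, smul_apply, hu.1, smul_eq_mul, mul_one]
  · intro i _ hij
    rw [map_smul, smul_apply, hu.2 i j hij, smul_zero]
  · intro h
    exact absurd (Finset.mem_univ j) h

private theorem OnB_aux (β : E →L[ℝ] E →L[ℝ] ℝ) (hs : ∀ u v, β u v = β v u)
    (hp : ∀ u, u ≠ 0 → 0 < β u u) (W : Submodule ℝ E) (k : ℕ) (hk : k ≤ Module.finrank ℝ W) :
    ∃ u : Fin k → E, (∀ i, u i ∈ W) ∧ ONF β u := by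
  induction k with
  | zero => exact ⟨fun i => i.elim0, fun i => i.elim0, fun i => i.elim0, fun i => i.elim0⟩
  | succ k ih =>
    obtain ⟨u, huW, hu⟩ := ih (by omega)
    obtain ⟨w, hw, hws⟩ : ∃ w ∈ W, w ∉ Submodule.span ℝ (Set.range u) := by
      by_contra hcon
      push Not at hcon
      have h1 : W ≤ Submodule.span ℝ (Set.range u) := fun w hw => hcon w hw
      have h2 := Submodule.finrank_mono h1
      have h3 := finrank_range_le_card (R := ℝ) u
      rw [Fintype.card_fin] at h3
      have h4 : Module.finrank ℝ (Submodule.span ℝ (Set.range u)) ≤ k := h3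
      omega
    obtain ⟨r, hr⟩ : ∃ r, r = w - ∑ i, β w (u i) • u i := ⟨_, rfl⟩
    have hr0 : r ≠ 0 := by
      intro h0
      rw [hr, sub_eq_zero] at h0
      apply hws
      rw [h0]
      exact Submodule.sum_mem _ fun i _ =>
        Submodule.smul_mem _ _ (Submodule.subset_span ⟨i, rfl⟩)
    have hrW : r ∈ W := by
      rw [hr]
      exact W.sub_mem hw (W.sum_mem fun i _ => W.smul_mem _ (huW i))
    have hru : ∀ j, β r (u j) = 0 := by
      intro j
      rw [hr, map_sub, sub_apply, OnB_sum hu, sub_self]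
    have hpos := hp r hr0
    obtain ⟨a, ha, ha2⟩ : ∃ a : ℝ, 0 < a ∧ a * a * β r r = 1 := by
      refine ⟨1 / Real.sqrt (β r r), by positivity, ?_⟩
      have h1 := Real.mul_self_sqrt hpos.le
      have h2 : Real.sqrt (β r r) ≠ 0 := (Real.sqrt_pos.2 hpos).ne'
      calc 1 / Real.sqrt (β r r) * (1 / Real.sqrt (β r r)) * β r r
          = β r r / (Real.sqrt (β r r) * Real.sqrt (β r r)) := by field_simp
        _ = 1 := by rw [h1, div_self hpos.ne']
    refine ⟨Fin.snoc (α := fun _ => E) u (a • r), fun i => ?_, fun i => ?_, fun i j hij => ?_⟩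
    · induction i using Fin.lastCases with
      | last => rw [Fin.snoc_last]; exact W.smul_mem _ hrW
      | cast i => rw [Fin.snoc_castSucc]; exact huW i
    · induction i using Fin.lastCases with
      | last =>
        rw [Fin.snoc_last]
        simp only [map_smul, smul_apply, smul_eq_mul]
        rw [← ha2]
        ring
      | cast i => rw [Fin.snoc_castSucc]; exact hu.1 i
    · induction i using Fin.lastCases with
      | last =>
        induction j using Fin.lastCases with
        | last => exact absurd rfl hij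
        | cast j =>
          rw [Fin.snoc_last, Fin.snoc_castSucc, map_smul, smul_apply, hru, smul_zero]
      | cast i =>
        induction j using Fin.lastCases with
        | last =>
          rw [Fin.snoc_last, Fin.snoc_castSucc, map_smul, hs, hru, smul_zero]
        | cast j =>
          rw [Fin.snoc_castSucc, Fin.snoc_castSucc]
          exact hu.2 i j fun h => hij (congrArg _ h)

/-- Proof. Gram-Schmidt for the form `β` on the subspace `W` (e.g. put the inner product
`β` on a copy of `W`, or induction on the dimension). -/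
theorem onb_ex (β : E →L[ℝ] E →L[ℝ] ℝ) (hs : ∀ u v, β u v = β v u) (hp : ∀ u, u ≠ 0 → 0 < β u u)
    (W : Submodule ℝ E) {f : ℕ} (hf : Module.finrank ℝ W = f) :
    ∃ u : Fin f → E, (∀ i, u i ∈ W) ∧ ONF β u :=
  OnB_aux β hs hp W f hf.ge

omit [FiniteDimensional ℝ E] in
/-- Proof. `v = ∑ β(v, u i) u i`: orthonormal vectors are linearly independent, so they span
`W` by the dimension. -/
theorem onb_parseval (β : E →L[ℝ] E →L[ℝ] ℝ) (hs : ∀ u v, β u v = β v u)
    (hp : ∀ u, u ≠ 0 → 0 < β u u) (W : Submodule ℝ E) [FiniteDimensional ℝ W] {f : ℕ}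
    (hf : Module.finrank ℝ W = f)
    {u : Fin f → E} (hW : ∀ i, u i ∈ W) (hu : ONF β u) {v : E} (hv : v ∈ W) :
    β v v = ∑ i, β v (u i) ^ 2 := by
  obtain ⟨u', hu'⟩ : ∃ u' : Fin f → W, ∀ i, (u' i : E) = u i := ⟨fun i => ⟨u i, hW i⟩, fun _ => rfl⟩
  have hli : LinearIndependent ℝ u' := by
    rw [Fintype.linearIndependent_iff]
    intro g hg i
    have h1 := congrArg (Subtype.val : W → E) hg
    have h2 : ((∑ i, g i • u' i : W) : E) = ∑ i, g i • u i := by
      rw [Submodule.coe_sum]
      exact Finset.sum_congr rfl fun i _ => by rw [Submodule.coe_smul, hu']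
    rw [h2] at h1
    have h3 := OnB_sum hu g i
    rw [h1] at h3
    rw [← h3]
    simp
  have hspan := hli.span_eq_top_of_card_eq_finrank' (by rw [Fintype.card_fin, hf])
  have hvs : (⟨v, hv⟩ : W) ∈ Submodule.span ℝ (Set.range u') := by
    rw [hspan]
    exact Submodule.mem_top
  obtain ⟨c, hc⟩ := (Submodule.mem_span_range_iff_exists_fun ℝ).1 hvs
  have hvc : v = ∑ i, c i • u i := by
    have h1 := congrArg (Subtype.val : W → E) hc
    rw [Submodule.coe_sum] at h1
    rw [← show ((⟨v, hv⟩ : W) : E) = v from rfl, ← h1]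
    exact Finset.sum_congr rfl fun i _ => by rw [Submodule.coe_smul, hu']
  have hci : ∀ i, β v (u i) = c i := fun i => by rw [hvc, OnB_sum hu]
  have h1 : β v v = ∑ i, c i * β v (u i) := by
    conv_lhs => rw [show β v v = β v (∑ i, c i • u i) by rw [← hvc]]
    rw [map_sum]
    exact Finset.sum_congr rfl fun i _ => by rw [map_smul, smul_eq_mul]
  rw [h1]
  exact Finset.sum_congr rfl fun i _ => by rw [hci, pow_two]

end Pool.Agent.Lib.MP_6fca61_gt
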