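import Pool.Agent.Lib.MP_6fca61_gt.Ch

/-!
# MP_6fca61_gt (project PW): the differential in product charts
-/

set_option autoImplicit false
set_option maxSynthPendingDepth 3

open scoped Manifold ContDiff Topology

namespace Pool.Agent.Lib.MP_6fca61_gt

variable {E : Type*} [NormedAddCommGroup E] [NormedSpace ℝ E] [FiniteDimensional ℝ E]
variable {E' : Type*} [NormedAddCommGroup E'] [NormedSpace ℝ E'] [FiniteDimensional ℝ E']
variable {M : Type*} [TopologicalSpace M] [ChartedSpace E M] [IsManifold 𝓘(ℝ, E) ∞ M]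
variable {B : Type*} [TopologicalSpace B] [ChartedSpace E' B] [IsManifold 𝓘(ℝ, E') ∞ B]
variable {g : Fam E M} {h : Fam E' B} {π : M → B}
variable {e : OpenPartialHomeomorph M E} {e' : OpenPartialHomeomorph B E'} {pl : E →L[ℝ] E'}
  {p : M}

omit [FiniteDimensional ℝ E] [FiniteDimensional ℝ E'] in
/-- Proof. Differentiate `e' ∘ π = pl ∘ e` at `p` (`π` is smooth: `IsSubmersion.contMDiff`). -/
theorem PC.d (hs : Manifold.IsSubmersion 𝓘(ℝ, E) 𝓘(ℝ, E') ∞ π) (hc : PC π e e' pl)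
    (hp : p ∈ e.source) (u : E) : dch e' (π p) (dpi E E' π p u) = pl (dch e p u) := by
  have hd1 : MDifferentiableAt 𝓘(ℝ, E) 𝓘(ℝ, E') π p :=
    hs.contMDiff.contMDiffAt.mdifferentiableAt (by simp)
  have hd2 : MDifferentiableAt 𝓘(ℝ, E') 𝓘(ℝ, E') e' (π p) :=
    ((contMDiffOn_of_mem_maximalAtlas hc.he').contMDiffAt
      (e'.open_source.mem_nhds (hc.maps p hp))).mdifferentiableAt (by simp)
  have hd3 : MDifferentiableAt 𝓘(ℝ, E) 𝓘(ℝ, E) e p :=
    ((contMDiffOn_of_mem_maximalAtlas hc.he).contMDiffAt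
      (e.open_source.mem_nhds hp)).mdifferentiableAt (by simp)
  have hd4 : MDifferentiableAt 𝓘(ℝ, E) 𝓘(ℝ, E') pl (e p) :=
    pl.differentiableAt.mdifferentiableAt
  have h1 := mfderiv_comp p hd2 hd1
  have h2 := mfderiv_comp p hd4 hd3
  have h3 : (e' ∘ π : M → E') =ᶠ[𝓝 p] (pl ∘ e : M → E') := by
    filter_upwards [e.open_source.mem_nhds hp] with q hq
    exact hc.eq q hq
  have h4 : mfderiv 𝓘(ℝ, E) 𝓘(ℝ, E') (e' ∘ π : M → E') p =
      mfderiv 𝓘(ℝ, E) 𝓘(ℝ, E') (pl ∘ e : M → E') p := h3.mfderiv_eq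
  rw [h1, h2] at h4
  have h5 := congrArg (fun L : E →L[ℝ] E' => L u) h4
  have h6 : mfderiv 𝓘(ℝ, E) 𝓘(ℝ, E') pl (e p) = pl := by
    rw [mfderiv_eq_fderiv]
    exact pl.fderiv
  have h7 : mfderiv 𝓘(ℝ, E) 𝓘(ℝ, E') pl (e p) (dch e p u) = pl (dch e p u) := by
    rw [h6]
    rfl
  rw [← h7]
  exact h5

omit [FiniteDimensional ℝ E] [FiniteDimensional ℝ E'] in
/-- Proof. `PC.d` and the injectivity of `dch`; `maps` from `PC.maps` and `PC.eq`; `sub` from
`isom` and `g_loc` (for `z = e p`). -/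
theorem PC.ls (hg : GF g) (hh : GF h) (hπ : IsRiemSubm g h π) (hc : PC π e e' pl) :
    LS e.target (locG g e) e'.target (locG h e') pl := by
  refine ⟨hg.met hc.he, hh.met hc.he', ?_, hc.surj, ?_⟩
  · intro z hz
    have h1 : e.symm z ∈ e.source := e.map_target hz
    have h2 := hc.eq _ h1
    rw [e.right_inv hz] at h2
    rw [← h2]
    exact e'.map_source (hc.maps _ h1)
  · intro z hz w hw
    have hp : e.symm z ∈ e.source := e.map_target hz
    have hez : e (e.symm z) = z := e.right_inv hz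
    have h2 := hc.eq _ hp
    rw [hez] at h2
    -- the tangent vector
    obtain ⟨u, hu⟩ : ∃ u : E, dch e (e.symm z) u = w := ⟨dsy e z w, dch_dsy hc.he hz w⟩
    have hg1 : ∀ u' : E, g (e.symm z) u u' = locG g e z w (dch e (e.symm z) u') := by
      intro u'
      have h3 := g_loc (g := g) hc.he hp u u'
      rw [hez, hu] at h3
      exact h3
    have hor : Hor E' g π (e.symm z) u := by
      intro w' hw'
      rw [hg1 w']
      apply hw
      have h3 := PC.d hπ.subm hc hp w'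
      have h4 : dpi E E' π (e.symm z) w' = 0 := hw'
      rw [h4, map_zero] at h3
      exact h3.symm
    have h3 := hπ.isom _ u hor
    have h4 := hg1 u
    rw [hu] at h4
    have h5 := g_loc (g := h) hc.he' (hc.maps _ hp) (dpi E E' π (e.symm z) u)
      (dpi E E' π (e.symm z) u)
    rw [PC.d hπ.subm hc hp u, hu, h2] at h5
    rw [← h4, ← h5, ← h3]
    rfl

end Pool.Agent.Lib.MP_6fca61_gt
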