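import Pool.Agent.Lib.MP_6fca61_gt.TrC
import Pool.Agent.Lib.MP_6fca61_gt.HorS

/-!
# MP_6fca61_gt (project PW): change of coordinates, horizontal lifts and the boundary term
-/

set_option autoImplicit false
set_option maxSynthPendingDepth 3

open scoped Manifold ContDiff Topology

namespace Pool.Agent.Lib.MP_6fca61_gt

variable {E : Type*} [NormedAddCommGroup E] [NormedSpace ℝ E] [FiniteDimensional ℝ E]
variable {E' : Type*} [NormedAddCommGroup E'] [NormedSpace ℝ E'] [FiniteDimensional ℝ E']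
variable {U U₁ : Set E} {G G₁ : E → E →L[ℝ] E →L[ℝ] ℝ} {V V₁ : Set E'}
  {H H₁ : E' → E' →L[ℝ] E' →L[ℝ] ℝ} {pl pl₁ : E →L[ℝ] E'} {Ψ : E → E} {ψ : E' → E'} {z : E}

omit [FiniteDimensional ℝ E] in
theorem TrH_diff {W W₁ : Set E} {K K₁ : E → E →L[ℝ] E →L[ℝ] ℝ} {Φ : E → E} {y : E}
    (h : Tr W K W₁ K₁ Φ) (hy : y ∈ W) :
    HasFDerivAt Φ (fderiv ℝ Φ y) y ∧
      HasFDerivAt (fderiv ℝ Φ) (fderiv ℝ (fderiv ℝ Φ) y) y := by
  have h1 : ContDiffAt ℝ ∞ Φ y := h.smooth.contDiffAt (h.metG.isOpen.mem_nhds hy)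
  have h2 : ContDiffAt ℝ 1 (fderiv ℝ Φ) y := h1.fderiv_right (by norm_cast)
  exact ⟨(h1.differentiableAt (by simp)).hasFDerivAt,
    (h2.differentiableAt one_ne_zero).hasFDerivAt⟩

/-- Proof. Differentiate `h.comm` on the open set `U`. -/
theorem LTr.d1 (h : LTr U G V H pl U₁ G₁ V₁ H₁ pl₁ Ψ ψ) (hz : z ∈ U) (a : E) :
    pl₁ (fderiv ℝ Ψ z a) = fderiv ℝ ψ (pl z) (pl a) := by
  have hU : U ∈ 𝓝 z := h.tM.metG.isOpen.mem_nhds hz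
  have h1 : HasFDerivAt (fun y => pl₁ (Ψ y)) (pl₁.comp (fderiv ℝ Ψ z)) z :=
    pl₁.hasFDerivAt.comp z (TrH_diff h.tM hz).1
  have h2 : HasFDerivAt (fun y => ψ (pl y)) ((fderiv ℝ ψ (pl z)).comp pl) z :=
    (TrH_diff h.tB (h.ls.maps z hz)).1.comp z pl.hasFDerivAt
  have h3 : HasFDerivAt (fun y => pl₁ (Ψ y)) ((fderiv ℝ ψ (pl z)).comp pl) z := by
    refine h2.congr_of_eventuallyEq ?_
    filter_upwards [hU] with y hy
    exact h.comm y hy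
  have h4 := h1.unique h3
  exact DFunLike.congr_fun h4 a

/-- Proof. Differentiate `LTr.d1`. -/
theorem LTr.d2 (h : LTr U G V H pl U₁ G₁ V₁ H₁ pl₁ Ψ ψ) (hz : z ∈ U) (a b : E) :
    pl₁ (fderiv ℝ (fderiv ℝ Ψ) z a b) = fderiv ℝ (fderiv ℝ ψ) (pl z) (pl a) (pl b) := by
  have hU : U ∈ 𝓝 z := h.tM.metG.isOpen.mem_nhds hz
  have h1 : HasFDerivAt (fun y => pl₁ (fderiv ℝ Ψ y b))
      ((pl₁.comp (ContinuousLinearMap.apply ℝ E b)).comp (fderiv ℝ (fderiv ℝ Ψ) z)) z :=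
    (pl₁.comp (ContinuousLinearMap.apply ℝ E b)).hasFDerivAt.comp z (TrH_diff h.tM hz).2
  have h2 : HasFDerivAt (fun y => fderiv ℝ ψ (pl y) (pl b))
      ((ContinuousLinearMap.apply ℝ E' (pl b)).comp
        ((fderiv ℝ (fderiv ℝ ψ) (pl z)).comp pl)) z := by
    have h5 : HasFDerivAt (fun y => fderiv ℝ ψ (pl y))
        ((fderiv ℝ (fderiv ℝ ψ) (pl z)).comp pl) z :=
      (TrH_diff h.tB (h.ls.maps z hz)).2.comp z pl.hasFDerivAt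
    exact (ContinuousLinearMap.apply ℝ E' (pl b)).hasFDerivAt.comp z h5
  have h3 : HasFDerivAt (fun y => pl₁ (fderiv ℝ Ψ y b))
      ((ContinuousLinearMap.apply ℝ E' (pl b)).comp
        ((fderiv ℝ (fderiv ℝ ψ) (pl z)).comp pl)) z := by
    refine h2.congr_of_eventuallyEq ?_
    filter_upwards [hU] with y hy
    exact h.d1 hy b
  have h4 := h1.unique h3
  exact DFunLike.congr_fun h4 a

/-- Proof. Pair with `DΨ w` (`Tr.bij`): `G₁(DΨ hor x, DΨ w) = G(hor x, w) = H(x, pl w)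
= H₁(Dψ x, Dψ pl w) = H₁(Dψ x, pl₁ DΨ w)`, `LTr.d1`, `hor_spec`, `Met.ext`. -/
theorem LTr.hor_tr (h : LTr U G V H pl U₁ G₁ V₁ H₁ pl₁ Ψ ψ) (hz : z ∈ U) (x : E') :
    hor G₁ H₁ pl₁ (Ψ z) (fderiv ℝ ψ (pl z) x) = fderiv ℝ Ψ z (hor G H pl z x) := by
  have hz' : Ψ z ∈ U₁ := h.tM.maps z hz
  refine h.tM.metG'.ext hz' fun w' => ?_
  obtain ⟨w, rfl⟩ := (h.tM.bij hz).2 w'
  rw [hor_spec h.ls' hz', h.comm z hz, h.d1 hz, ← h.tB.pull (pl z) (h.ls.maps z hz),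
    ← hor_spec h.ls hz, h.tM.pull z hz]

/-- Proof. `Tr.chr_tr` for `Ψ` and for `ψ`: the two additional terms are `G₁(D²Ψ(w, w),
DΨ hor x) = H₁(pl₁ D²Ψ(w, w), Dψ x)` (`LTr.hor_tr`, `hor_spec`) and `H₁(D²ψ(pl w, pl w), Dψ x)`;
they are equal by `LTr.d2`. -/
theorem LTr.tau_tr (h : LTr U G V H pl U₁ G₁ V₁ H₁ pl₁ Ψ ψ) (hz : z ∈ U) (x : E') (w : E) :
    tau G₁ H₁ pl₁ (Ψ z) (fderiv ℝ ψ (pl z) x) (fderiv ℝ Ψ z w) = tau G H pl z x w := by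
  have hz' : Ψ z ∈ U₁ := h.tM.maps z hz
  have hV : pl z ∈ V := h.ls.maps z hz
  have hV' : ψ (pl z) ∈ V₁ := h.tB.maps _ hV
  unfold tau
  rw [h.comm z hz, h.d1 hz, h.hor_tr hz, h.tB.chr_tr hV, h.tM.chr_tr hz]
  have h1 : G₁ (Ψ z) (fderiv ℝ (fderiv ℝ Ψ) z w w) (fderiv ℝ Ψ z (hor G H pl z x)) =
      H₁ (ψ (pl z)) (fderiv ℝ (fderiv ℝ ψ) (pl z) (pl w) (pl w)) (fderiv ℝ ψ (pl z) x) := by
    rw [h.tM.metG'.symm _ hz', ← h.hor_tr hz, hor_spec h.ls' hz', h.comm z hz, h.d2 hz,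
      h.tB.metG'.symm _ hV']
  rw [h1]
  ring

end Pool.Agent.Lib.MP_6fca61_gt
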