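import Pool.Agent.Lib.MP_6fca61_gt.ChT
import Pool.Agent.Lib.MP_6fca61_gt.PCd
import Pool.Agent.Lib.MP_6fca61_gt.TrH

/-!
# MP_6fca61_gt (project PW): changes of product charts
-/

set_option autoImplicit false
set_option maxSynthPendingDepth 3

open scoped Manifold ContDiff Topology

namespace Pool.Agent.Lib.MP_6fca61_gt

variable {E : Type*} [NormedAddCommGroup E] [NormedSpace ℝ E] [FiniteDimensional ℝ E]
variable {E' : Type*} [NormedAddCommGroup E'] [NormedSpace ℝ E'] [FiniteDimensional ℝ E']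
variable {M : Type*} [TopologicalSpace M] [ChartedSpace E M] [IsManifold 𝓘(ℝ, E) ∞ M]
variable {B : Type*} [TopologicalSpace B] [ChartedSpace E' B] [IsManifold 𝓘(ℝ, E') ∞ B]
variable {g : Fam E M} {h : Fam E' B} {π : M → B}

omit [FiniteDimensional ℝ E] [FiniteDimensional ℝ E'] in
/-- Proof. `ls`: `PC.ls` restricted to smaller open sets; `tM`, `tB`: `tr_ch`; `comm`: for
`z = e₁ p`, `pl₂ (e₂ p) = e₂' (π p)`, `pl₁ z = e₁' (π p)`. -/
theorem PC.ltr (hg : GF g) (hh : GF h) (hπ : IsRiemSubm g h π)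
    {e₁ e₂ : OpenPartialHomeomorph M E} {e₁' e₂' : OpenPartialHomeomorph B E'}
    {pl₁ pl₂ : E →L[ℝ] E'} (h₁ : PC π e₁ e₁' pl₁) (h₂ : PC π e₂ e₂' pl₂) :
    LTr (e₁.symm.trans e₂).source (locG g e₁) (e₁'.symm.trans e₂').source (locG h e₁') pl₁
      e₂.target (locG g e₂) e₂'.target (locG h e₂') pl₂ (e₁.symm.trans e₂)
      (e₁'.symm.trans e₂') := by
  have hl := h₁.ls hg hh hπ
  have hT := tr_ch hg h₁.he h₂.he
  have hB := tr_ch hh h₁.he' h₂.he'
  have key : ∀ z ∈ (e₁.symm.trans e₂).source, pl₁ z = e₁' (π (e₁.symm z)) := by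
    intro z hz
    have h3 := h₁.eq (e₁.symm z) (e₁.map_target hz.1)
    rw [e₁.right_inv hz.1] at h3
    exact h3.symm
  refine ⟨⟨hT.metG, hB.metG, fun z hz => ?_, hl.surj, fun z hz => hl.sub z hz.1⟩,
    h₂.ls hg hh hπ, hT, hB, fun z hz => ?_⟩
  · have hz1 : e₁.symm z ∈ e₁.source := e₁.map_target hz.1
    rw [key z hz]
    refine ⟨e₁'.map_source (h₁.maps _ hz1), ?_⟩
    show e₁'.symm (e₁' (π (e₁.symm z))) ∈ e₂'.source
    rw [e₁'.left_inv (h₁.maps _ hz1)]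
    exact h₂.maps _ hz.2
  · have hz1 : e₁.symm z ∈ e₁.source := e₁.map_target hz.1
    have h4 := h₂.eq (e₁.symm z) hz.2
    rw [key z hz]
    show pl₂ (e₂ (e₁.symm z)) = e₂' (e₁'.symm (e₁' (π (e₁.symm z))))
    rw [e₁'.left_inv (h₁.maps _ hz1), h4]

end Pool.Agent.Lib.MP_6fca61_gt
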