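import Pool.Agent.Lib.MP_6fca61_gt.GamS

/-!
# MP_6fca61_gt (project PW): the second variation identity
-/

set_option autoImplicit false
set_option maxSynthPendingDepth 3

open scoped Manifold ContDiff Topology

namespace Pool.Agent.Lib.MP_6fca61_gt

variable {E : Type*} [NormedAddCommGroup E] [NormedSpace ℝ E] [FiniteDimensional ℝ E]
variable {U : Set E} {G : E → E →L[ℝ] E →L[ℝ] ℝ}

omit [FiniteDimensional ℝ E] in
private theorem SV_symm (hM : Met U G) {z : E} (hz : z ∈ U) (u v : E) :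
    fderiv ℝ (fderiv ℝ G) z u v = fderiv ℝ (fderiv ℝ G) z v u := by
  have h1 : ContDiffAt ℝ ∞ G z := hM.smooth.contDiffAt (hM.isOpen.mem_nhds hz)
  have h2 : IsSymmSndFDerivAt ℝ G z := h1.isSymmSndFDerivAt (by
    rw [minSmoothness_of_isRCLikeNormedField]
    exact WithTop.coe_le_coe.mpr (le_top : (2 : ℕ∞) ≤ ⊤))
  exact h2 u v

omit [FiniteDimensional ℝ E] in
private theorem SV_diff (hM : Met U G) {z : E} (hz : z ∈ U) :
    HasFDerivAt (fderiv ℝ G) (fderiv ℝ (fderiv ℝ G) z) z := by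
  have h1 : ContDiffOn ℝ ∞ (fderiv ℝ G) U := hM.smooth.fderiv_of_isOpen hM.isOpen (by simp)
  exact ((h1.contDiffAt (hM.isOpen.mem_nhds hz)).differentiableAt (by simp)).hasFDerivAt

/-- Proof. By `chr_apply`, `chr(W, W, Z) = DG(W)(W, Z) - DG(Z)(W, W) / 2` (all at `z s`). Its
derivative at `t` is, with `Z' = -Γ(Z, Z)` and the symmetry of `D²G` and of `G`:
`D²G(Z, W)(W, Z) + DG(W')(W, Z) + DG(W)(W', Z) + DG(W)(W, Z') - D²G(Z, Z)(W, W)/2
- DG(Z')(W, W)/2 - DG(Z)(W', W)`, where `DG(W)(W, Z') - DG(Z')(W, W)/2 = chr(W, W, Z')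
= - G(Γ(W, W), Γ(Z, Z))`. On the other side, `G(W' + Γ(Z, W), W' + Γ(Z, W)) = G(W', W')
+ 2 chr(Z, W, W') + G(Γ(Z, W), Γ(Z, W))`, `2 chr(Z, W, W') = DG(Z)(W, W') + DG(W)(Z, W')
- DG(W')(Z, W)`, and the definition of `Rm G z W Z`. Everything cancels. -/
theorem sv (hM : Met U G) {z Z W : ℝ → E} {t : ℝ} {W' : E} (hz : z t ∈ U)
    (h1 : HasDerivAt z (Z t) t) (h2 : HasDerivAt Z (-Gam G (z t) (Z t) (Z t)) t)
    (h3 : HasDerivAt W W' t) :
    HasDerivAt (fun s => chr G (z s) (W s) (W s) (Z s))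
      (e2 G (z t) (W t) (Z t) W' - G (z t) (W' + Gam G (z t) (Z t) (W t))
        (W' + Gam G (z t) (Z t) (W t)) + Rm G (z t) (W t) (Z t)) t := by
  have hD : HasDerivAt (fun s => fderiv ℝ G (z s)) (fderiv ℝ (fderiv ℝ G) (z t) (Z t)) t :=
    (SV_diff hM hz).comp_hasDerivAt t h1
  have hA := ((hD.clm_apply h3).clm_apply h3).clm_apply h2
  have hB := ((hD.clm_apply h2).clm_apply h3).clm_apply h3
  have hAB := hA.sub (hB.const_mul (1 / 2 : ℝ))
  have hfun : (fun s => chr G (z s) (W s) (W s) (Z s)) =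
      (fun s => fderiv ℝ G (z s) (W s) (W s) (Z s)) -
        fun s => (1 / 2 : ℝ) * fderiv ℝ G (z s) (Z s) (W s) (W s) := by
    funext s
    change chr G (z s) (W s) (W s) (Z s) = fderiv ℝ G (z s) (W s) (W s) (Z s) -
      (1 / 2 : ℝ) * fderiv ℝ G (z s) (Z s) (W s) (W s)
    rw [chr_apply]
    ring
  rw [hfun]
  refine hAB.congr_deriv ?_
  -- the boundary identities
  have e1 : chr G (z t) (W t) (W t) (Gam G (z t) (Z t) (Z t)) =
      G (z t) (Gam G (z t) (W t) (W t)) (Gam G (z t) (Z t) (Z t)) := (gam_spec hM hz _ _ _).symm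
  rw [chr_apply] at e1
  have e2' : G (z t) (Gam G (z t) (Z t) (W t)) W' = chr G (z t) (Z t) (W t) W' :=
    gam_spec hM hz _ _ _
  rw [chr_apply] at e2'
  have e3 : G (z t) W' (Gam G (z t) (Z t) (W t)) = G (z t) (Gam G (z t) (Z t) (W t)) W' :=
    hM.symm _ hz _ _
  have e4 : Gam G (z t) (W t) (Z t) = Gam G (z t) (Z t) (W t) := gam_symm hM hz _ _
  have e5 : fderiv ℝ (fderiv ℝ G) (z t) (Z t) (W t) (W t) (Z t) =
      fderiv ℝ (fderiv ℝ G) (z t) (W t) (Z t) (W t) (Z t) := by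
    rw [SV_symm hM hz (Z t) (W t)]
  have e6 := fd_symm hM hz (W t) W' (Z t)
  have e7 := fd_symm hM hz W' (W t) (Z t)
  have e8 := fd_symm hM hz (Z t) W' (W t)
  unfold e2 Rm
  rw [e4]
  simp only [map_add, map_neg, add_apply, neg_apply]
  rw [e5, e3, e2', ← e1]
  linarith [e6, e7, e8]

end Pool.Agent.Lib.MP_6fca61_gt
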