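import Pool.Agent.Lib.MP_6fca61_gt.Defs

/-!
# MP_6fca61_gt: definitions for the statements
-/

set_option autoImplicit false
set_option maxSynthPendingDepth 3

open scoped Manifold ContDiff Topology

namespace Pool.Agent.Lib.MP_6fca61_gt

noncomputable section

section loc

variable {E : Type*} [NormedAddCommGroup E] [NormedSpace ℝ E]

/-- The derivative at `z` of the function `G(u, v)` in the direction `w`. -/
def D1 (G : E → E →L[ℝ] E →L[ℝ] ℝ) (z w u v : E) : ℝ :=
  fderiv ℝ (fun y => G y u v) z w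

/-- The second derivative at `z` of the function `G(u, v)` in the directions `a` and `b`. -/
def D2 (G : E → E →L[ℝ] E →L[ℝ] ℝ) (z a b u v : E) : ℝ :=
  fderiv ℝ (fun y => D1 G y b u v) z a

/-- The Christoffel symbol `Γ(u, v)` of the metric `G` at `z`: the vector `c` with
`G(c, w) = (D_u G(v, w) + D_v G(u, w) - D_w G(u, v)) / 2` for all `w`. -/
def Chri (G : E → E →L[ℝ] E →L[ℝ] ℝ) (z u v : E) : E :=
  Classical.epsilon fun c => ∀ w, G z c w = (D1 G z u v w + D1 G z v u w - D1 G z w u v) / 2

/-- The curvature `⟨R(u, v) v, u⟩` of the metric `G` at the point `z`, in coordinates. -/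
def Riem (G : E → E →L[ℝ] E →L[ℝ] ℝ) (z u v : E) : ℝ :=
  (2 * D2 G z u v u v - D2 G z u u v v - D2 G z v v u u) / 2
    + G z (Chri G z u v) (Chri G z u v) - G z (Chri G z u u) (Chri G z v v)

end loc

section man

variable {E : Type*} [NormedAddCommGroup E] [NormedSpace ℝ E]
variable {M : Type*} [TopologicalSpace M] [ChartedSpace E M]

variable (E M) in
/-- The smooth Riemannian metrics on `M`. -/
def RMet [IsManifold 𝓘(ℝ, E) ∞ M] : Type _ :=
  Bundle.ContMDiffRiemannianMetric 𝓘(ℝ, E) ∞ E (fun p : M => TangentSpace 𝓘(ℝ, E) p)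

/-- The scalar products on the tangent spaces. -/
def RMet.fam [IsManifold 𝓘(ℝ, E) ∞ M] (g : RMet E M) : Fam E M :=
  fun p => Bundle.ContMDiffRiemannianMetric.inner g p

/-- The curvature `⟨R(u, v) v, u⟩` of the metric `g` at the point `p`, computed in the preferred
chart at `p` (the one used by Mathlib to identify the tangent space at `p` with `E`). -/
def cur (g : Fam E M) (p : M) (u v : TangentSpace 𝓘(ℝ, E) p) : ℝ :=
  Riem (locG g (chartAt E p)) (chartAt E p p) u v

/-- All sectional curvatures are at least `κ`. -/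
def SecMin (g : Fam E M) (κ : ℝ) : Prop :=
  ∀ (p : M) (u v : TangentSpace 𝓘(ℝ, E) p), κ * area g p u v ≤ cur g p u v

/-- All sectional curvatures are at most `Λ`. -/
def SecMax (g : Fam E M) (Λ : ℝ) : Prop :=
  ∀ (p : M) (u v : TangentSpace 𝓘(ℝ, E) p), cur g p u v ≤ Λ * area g p u v

/-- The Ricci curvatures `∑ ⟨R(x, e i) e i, x⟩` (`e` an orthonormal basis) in the directions of
the unit vectors `x` are at most `r`. -/
def RicMax (g : Fam E M) (r : ℝ) : Prop :=
  ∀ (p : M) (x : TangentSpace 𝓘(ℝ, E) p)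
    (e : Fin (Module.finrank ℝ E) → TangentSpace 𝓘(ℝ, E) p), g p x x = 1 →
    (∀ i, g p (e i) (e i) = 1) → (∀ i j, i ≠ j → g p (e i) (e j) = 0) →
    ∑ i, cur g p x (e i) ≤ r

variable {E' : Type*} [NormedAddCommGroup E'] [NormedSpace ℝ E']
variable {B : Type*} [TopologicalSpace B] [ChartedSpace E' B]

variable (E') in
/-- All sectional curvatures of horizontal planes are at most `Λ`. -/
def HorSecMax (g : Fam E M) (π : M → B) (Λ : ℝ) : Prop :=
  ∀ (p : M) (u v : TangentSpace 𝓘(ℝ, E) p), Hor E' g π p u → Hor E' g π p v →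
    cur g p u v ≤ Λ * area g p u v

end man

end

end Pool.Agent.Lib.MP_6fca61_gt
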