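import Pool.Agent.Lib.MP_6fca61_gt.Loc

/-!
# MP_6fca61_gt (project PW, Ricci part): definitions
-/

set_option autoImplicit false
set_option maxSynthPendingDepth 3

open scoped Manifold ContDiff Topology

namespace Pool.Agent.Lib.MP_6fca61_gt

noncomputable section

section loc

variable {E : Type*} [NormedAddCommGroup E] [NormedSpace ℝ E]
variable {E' : Type*} [NormedAddCommGroup E'] [NormedSpace ℝ E']

/-- The vectors `u i` are orthonormal for the bilinear form `β`. -/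
def ONF {ι : Type*} (β : E →L[ℝ] E →L[ℝ] ℝ) (u : ι → E) : Prop :=
  (∀ i, β (u i) (u i) = 1) ∧ ∀ i j, i ≠ j → β (u i) (u j) = 0

/-- A piece of a horizontal geodesic `z` with projection `pl z` and `(pl z)' = v`, and of the
vertical parallel translation `R` along `z`. -/
structure VPiece (U : Set E) (G : E → E →L[ℝ] E →L[ℝ] ℝ) (H : E' → E' →L[ℝ] E' →L[ℝ] ℝ)
    (pl : E →L[ℝ] E') (ε : ℝ) (z : ℝ → E) (v : ℝ → E') (R : ℝ → E →L[ℝ] E) : Prop where
  mem : ∀ t ∈ Set.Icc 0 ε, z t ∈ U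
  dz : ∀ t ∈ Set.Icc 0 ε, HasDerivAt z (hor G H pl (z t) (v t)) t
  dv : ∀ t ∈ Set.Icc 0 ε, HasDerivAt v (-Gam H (pl (z t)) (v t) (v t)) t
  dR : ∀ t ∈ Set.Icc 0 ε, ∀ k, HasDerivAt (fun s => R s k)
    (-Gam G (z t) (hor G H pl (z t) (v t)) (R t k) + hor G H pl (z t)
      (pl (Gam G (z t) (hor G H pl (z t) (v t)) (R t k)))) t
  R0 : ∀ k, R 0 k = k

end loc

section man

variable {E : Type*} [NormedAddCommGroup E] [NormedSpace ℝ E]
variable {M : Type*} [TopologicalSpace M] [ChartedSpace E M]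
variable {E' : Type*} [NormedAddCommGroup E'] [NormedSpace ℝ E']
variable {B : Type*} [TopologicalSpace B] [ChartedSpace E' B]

/-- The Ricci curvature `∑ ⟨R(x, e i) e i, x⟩` in the directions of the unit vectors `x` is at
most `r` (`e` is an orthonormal basis). -/
def RicLe (h : Fam E' B) (r : ℝ) : Prop :=
  ∀ (b : B) (x : TangentSpace 𝓘(ℝ, E') b) (e : Fin (Module.finrank ℝ E') →
    TangentSpace 𝓘(ℝ, E') b), h b x x = 1 → (∀ i, h b (e i) (e i) = 1) →
    (∀ i j, i ≠ j → h b (e i) (e j) = 0) → ∑ i, curv h b x (e i) ≤ r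

/-- One step along a horizontal geodesic of unit speed with a parallel orthonormal frame of the
vertical spaces, `u` at `p` and `u'` at `p'`. -/
structure StepV {f : ℕ} (g : Fam E M) (h : Fam E' B) (π : M → B) (β δ : ℝ) (p : M) (x : E')
    (u : Fin f → E) (p' : M) (x' : E') (u' : Fin f → E) : Prop where
  unit : h (π p') x' x' = 1
  ver : ∀ i, dpi E E' π p' (u' i) = 0
  on : ONF (show E →L[ℝ] E →L[ℝ] ℝ from g p') u'
  ineq : ∀ φ φ' q q' : ℝ → ℝ,
    (∀ t ∈ Set.Icc 0 δ, HasDerivAt φ (φ' t) t ∧ HasDerivAt q (q' t) t ∧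
      (f : ℝ) * φ' t ^ 2 + β * φ t ^ 2 ≤ q' t) →
    φ δ ^ 2 * ∑ i, tauM g h π p' x' (u' i) - φ 0 ^ 2 * ∑ i, tauM g h π p x (u i) ≤ q δ - q 0

end man

end

end Pool.Agent.Lib.MP_6fca61_gt
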