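import Pool.Agent.Lib.MP_6fca61_gt.St
import Pool.Agent.Lib.MP_6fca61_gt.VDefs
import Pool.Agent.Lib.MP_6fca61_gt.GamS
import Pool.Agent.Lib.MP_6fca61_gt.CurvM
import Pool.Agent.Lib.MP_6fca61_gt.MetM

/-!
# MP_6fca61_gt: the definitions in the statements agree with those in the proofs
-/

set_option autoImplicit false
set_option maxSynthPendingDepth 3

open scoped Manifold ContDiff Topology

namespace Pool.Agent.Lib.MP_6fca61_gt

section loc

variable {E : Type*} [NormedAddCommGroup E] [NormedSpace ℝ E]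
variable {U : Set E} {G : E → E →L[ℝ] E →L[ℝ] ℝ} {z : E}

theorem D1_eq (hM : Met U G) (hz : z ∈ U) (w u v : E) : D1 G z w u v = fderiv ℝ G z w u v := by
  have h1 : HasFDerivAt G (fderiv ℝ G z) z :=
    ((hM.smooth.contDiffAt (hM.isOpen.mem_nhds hz)).differentiableAt (by simp)).hasFDerivAt
  have h2 := (h1.clm_apply (hasFDerivAt_const u z)).clm_apply (hasFDerivAt_const v z)
  unfold D1
  rw [h2.fderiv]
  simp

theorem D2_eq (hM : Met U G) (hz : z ∈ U) (a b u v : E) :
    D2 G z a b u v = fderiv ℝ (fderiv ℝ G) z a b u v := by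
  have h1 : HasFDerivAt (fderiv ℝ G) (fderiv ℝ (fderiv ℝ G) z) z :=
    (((hM.smooth.contDiffAt (hM.isOpen.mem_nhds hz)).fderiv_right (m := ∞)
      (by simp)).differentiableAt (by simp)).hasFDerivAt
  have h2 := ((h1.clm_apply (hasFDerivAt_const b z)).clm_apply
    (hasFDerivAt_const u z)).clm_apply (hasFDerivAt_const v z)
  have h3 : (fun y => D1 G y b u v) =ᶠ[𝓝 z] fun y => fderiv ℝ G y b u v := by
    filter_upwards [hM.isOpen.mem_nhds hz] with y hy
    exact D1_eq hM hy b u v
  unfold D2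
  rw [h3.fderiv_eq, h2.fderiv]
  simp

variable [FiniteDimensional ℝ E]

theorem Chri_eq (hM : Met U G) (hz : z ∈ U) (u v : E) : Chri G z u v = Gam G z u v := by
  have hG : ∀ w, G z (Gam G z u v) w =
      (D1 G z u v w + D1 G z v u w - D1 G z w u v) / 2 := by
    intro w
    have h1 := congrArg (fun l : E →L[ℝ] ℝ => l w) (hM.inv_spec hz (chr G z u v))
    refine Eq.trans h1 ?_
    rw [D1_eq hM hz, D1_eq hM hz, D1_eq hM hz]
    simp [chr]
    ring
  have h2 : ∀ w, G z (Chri G z u v) w =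
      (D1 G z u v w + D1 G z v u w - D1 G z w u v) / 2 :=
    Classical.epsilon_spec (p := fun c => ∀ w, G z c w =
      (D1 G z u v w + D1 G z v u w - D1 G z w u v) / 2) ⟨_, hG⟩
  exact hM.ext hz fun w => (h2 w).trans (hG w).symm

theorem Riem_eq (hM : Met U G) (hz : z ∈ U) (u v : E) : Riem G z u v = Rm G z u v := by
  unfold Riem Rm
  rw [D2_eq hM hz, D2_eq hM hz, D2_eq hM hz, Chri_eq hM hz, Chri_eq hM hz, Chri_eq hM hz]

end loc

section man

variable {E : Type*} [NormedAddCommGroup E] [NormedSpace ℝ E] [FiniteDimensional ℝ E]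
variable {M : Type*} [TopologicalSpace M] [ChartedSpace E M] [IsManifold 𝓘(ℝ, E) ∞ M]
variable {E' : Type*} [NormedAddCommGroup E'] [NormedSpace ℝ E']
variable {B : Type*} [TopologicalSpace B] [ChartedSpace E' B]
variable {g : Fam E M} {π : M → B}

theorem cur_eq (hg : GF g) (p : M) (u v : E) : cur g p u v = curv g p u v :=
  Riem_eq (hg.met (IsManifold.chart_mem_maximalAtlas p))
    ((chartAt E p).map_source (mem_chart_source E p)) u v

theorem secGe (hg : GF g) {κ : ℝ} (h : SecMin g κ) : SecGe g κ := fun p u v =>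
  (h p u v).trans_eq (cur_eq hg p u v)

theorem secLe (hg : GF g) {κ : ℝ} (h : SecMax g κ) : SecLe g κ := fun p u v =>
  (cur_eq hg p u v).symm.trans_le (h p u v)

theorem horSecLe (hg : GF g) {κ : ℝ} (h : HorSecMax E' g π κ) : HorSecLe E' g π κ :=
  fun p u v hu hv => (cur_eq hg p u v).symm.trans_le (h p u v hu hv)

theorem ricLe (hg : GF g) {r : ℝ} (h : RicMax g r) : RicLe g r := fun p x e hx h1 h2 =>
  (Finset.sum_congr rfl fun i _ => (cur_eq hg p x (e i)).symm).trans_le (h p x e hx h1 h2)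

end man

end Pool.Agent.Lib.MP_6fca61_gt
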