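import Pool.Agent.Lib.MP_6fca61_gt.PCtr
import Pool.Agent.Lib.MP_6fca61_gt.PCex
import Pool.Agent.Lib.MP_6fca61_gt.GamS

/-!
# MP_6fca61_gt (project PW): the boundary term on the manifold
-/

set_option autoImplicit false
set_option maxSynthPendingDepth 3

open scoped Manifold ContDiff Topology

namespace Pool.Agent.Lib.MP_6fca61_gt

variable {E : Type*} [NormedAddCommGroup E] [NormedSpace ℝ E] [FiniteDimensional ℝ E]
variable {E' : Type*} [NormedAddCommGroup E'] [NormedSpace ℝ E'] [FiniteDimensional ℝ E']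
variable {M : Type*} [TopologicalSpace M] [ChartedSpace E M] [IsManifold 𝓘(ℝ, E) ∞ M]
variable {B : Type*} [TopologicalSpace B] [ChartedSpace E' B] [IsManifold 𝓘(ℝ, E') ∞ B]
variable {g : Fam E M} {h : Fam E' B} {π : M → B}
variable {e : OpenPartialHomeomorph M E} {e' : OpenPartialHomeomorph B E'} {pl : E →L[ℝ] E'}
  {p : M}

/-- Proof. `LTr.tau_tr` for the chosen product chart and `(e, e', pl)` (`PC.ltr`, `fd_ch`). -/
theorem tauM_eq (hg : GF g) (hh : GF h) (hπ : IsRiemSubm g h π) (hc : PC π e e' pl)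
    (hp : p ∈ e.source) (x : E') (w : E) : tauM g h π p x w =
      tau (locG g e) (locG h e') pl (e p) (dch e' (π p) x) (dch e p w) := by
  have hp' : ∃ c : OpenPartialHomeomorph M E × OpenPartialHomeomorph B E' × (E →L[ℝ] E'),
      PC π c.1 c.2.1 c.2.2 ∧ p ∈ c.1.source := ⟨(e, e', pl), hc, hp⟩
  rw [tauM, dif_pos hp']
  obtain ⟨hc1, hp1⟩ := hp'.choose_spec
  generalize hp'.choose = c at hc1 hp1
  have ht := hc1.ltr hg hh hπ hc
  have hz : c.1 p ∈ (c.1.symm.trans e).source := by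
    refine ⟨c.1.map_source hp1, ?_⟩
    show c.1.symm (c.1 p) ∈ e.source
    rw [c.1.left_inv hp1]
    exact hp
  have h1 := ht.tau_tr hz (dch c.2.1 (π p) x) (dch c.1 p w)
  have h2 := fd_ch hc1.he hc.he hp1 hp w
  have h3 := fd_ch hc1.he' hc.he' (hc1.maps p hp1) (hc.maps p hp) x
  have h4 : (c.1.symm.trans e) (c.1 p) = e p := by
    show e (c.1.symm (c.1 p)) = e p
    rw [c.1.left_inv hp1]
  rw [← hc1.eq p hp1, h3, h2, h4] at h1
  exact h1.symm

end Pool.Agent.Lib.MP_6fca61_gt
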