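import Pool.Agent.Lib.MP_6fca61_gt.IneqI
import Pool.Agent.Lib.MP_6fca61_gt.TauS
import Pool.Agent.Lib.MP_6fca61_gt.LiftS
import Pool.Agent.Lib.MP_6fca61_gt.CurvM

/-!
# MP_6fca61_gt (project PW): one step in a product chart
-/

set_option autoImplicit false
set_option maxSynthPendingDepth 3

open scoped Manifold ContDiff Topology

namespace Pool.Agent.Lib.MP_6fca61_gt

variable {E : Type*} [NormedAddCommGroup E] [NormedSpace ℝ E] [FiniteDimensional ℝ E]
variable {E' : Type*} [NormedAddCommGroup E'] [NormedSpace ℝ E'] [FiniteDimensional ℝ E']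
variable {M : Type*} [TopologicalSpace M] [ChartedSpace E M] [IsManifold 𝓘(ℝ, E) ∞ M]
variable {B : Type*} [TopologicalSpace B] [ChartedSpace E' B] [IsManifold 𝓘(ℝ, E') ∞ B]
variable {g : Fam E M} {h : Fam E' B} {π : M → B}
variable {e : OpenPartialHomeomorph M E} {e' : OpenPartialHomeomorph B E'} {pl : E →L[ℝ] E'}
  {p : M}

/-- curvature bounds in a chart, lower bound -/
theorem StepP_ge (hg : GF g) (he : e ∈ IsManifold.maximalAtlas 𝓘(ℝ, E) ∞ M) {κ : ℝ}
    (hκ : SecGe g κ) (y : E) (hy : y ∈ e.target) (u w : E) :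
    κ * (locG g e y u u * locG g e y w w - locG g e y u w ^ 2) ≤ Rm (locG g e) y u w := by
  have hp : e.symm y ∈ e.source := e.map_target hy
  have hey : e (e.symm y) = y := e.right_inv hy
  have h1 := hκ (e.symm y) (dsy e y u : E) (dsy e y w : E)
  rw [curv_ch hg he hp] at h1
  unfold area at h1
  rw [g_loc he hp, g_loc he hp, g_loc he hp, dch_dsy he hy, dch_dsy he hy, hey] at h1
  exact h1

/-- curvature bounds in a chart, upper bound -/
theorem StepP_le (hg : GF g) (he : e ∈ IsManifold.maximalAtlas 𝓘(ℝ, E) ∞ M) {Λ : ℝ}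
    (hΛ : SecLe g Λ) (y : E) (hy : y ∈ e.target) (u w : E) :
    Rm (locG g e) y u w ≤ Λ * (locG g e y u u * locG g e y w w - locG g e y u w ^ 2) := by
  have hp : e.symm y ∈ e.source := e.map_target hy
  have hey : e (e.symm y) = y := e.right_inv hy
  have h1 := hΛ (e.symm y) (dsy e y u : E) (dsy e y w : E)
  rw [curv_ch hg he hp] at h1
  unfold area at h1
  rw [g_loc he hp, g_loc he hp, g_loc he hp, dch_dsy he hy, dch_dsy he hy, hey] at h1
  exact h1

/-- Proof. `p' = e.symm (z δ)`, `x' = dsy e' (pl (z δ)) (v δ)`, `T w = dsy e (z δ) (Q δ (dch e p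
w))`. `unit`: `piece_unit`; `iso`: `piece_iso`; `lift`: `piece_hor`, `dch_lift`; `ineq`:
`piece_ineq` for `dch e p w`, with `tauM_eq`, `PC.d`, `g_loc`; the curvature bounds in the charts
from `curv_ch` and `g_loc` (every point of `e.target` is `e q`, every vector is `dch e q u`,
`dch_dsy`). -/
theorem stepP (hg : GF g) (hh : GF h) (hπ : IsRiemSubm g h π) (hc : PC π e e' pl)
    (hp : p ∈ e.source) {κ Λ δ : ℝ} (hκ : SecGe g κ) (hΛ : SecLe h Λ) (hδ : 0 < δ) {x : E'}
    (hx : h (π p) x x = 1) {z : ℝ → E} {v : ℝ → E'} {Q : ℝ → E →L[ℝ] E} (hz : z 0 = e p)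
    (hv : v 0 = dch e' (π p) x)
    (hP : Piece e.target (locG g e) (locG h e') pl δ z v Q) :
    ∃ p' x' T, StepR g h π κ Λ δ p x p' x' T := by
  have hls := hc.ls hg hh hπ
  have he := hc.he
  have he' := hc.he'
  have hδm : δ ∈ Set.Icc (0 : ℝ) δ := ⟨hδ.le, le_rfl⟩
  have hz₁ : z δ ∈ e.target := hP.mem δ hδm
  obtain ⟨p', hp'def⟩ : ∃ p', p' = e.symm (z δ) := ⟨_, rfl⟩
  have hp' : p' ∈ e.source := by rw [hp'def]; exact e.map_target hz₁
  have hep' : e p' = z δ := by rw [hp'def]; exact e.right_inv hz₁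
  have hπp : π p ∈ e'.source := hc.maps p hp
  have hπp' : π p' ∈ e'.source := hc.maps p' hp'
  have heπ : e' (π p) = pl (e p) := hc.eq p hp
  have heπ' : e' (π p') = pl (z δ) := by rw [hc.eq p' hp', hep']
  have hpl : pl (z δ) ∈ e'.target := by rw [← heπ']; exact e'.map_source hπp'
  have hsy : e'.symm (pl (z δ)) = π p' := by rw [← heπ']; exact e'.left_inv hπp'
  have ha : ∀ u : E, dch e p' (dsy e (z δ) u) = u := by
    intro u
    rw [hp'def]
    exact dch_dsy he hz₁ u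
  have hb : ∀ u : E', dch e' (π p') (dsy e' (pl (z δ)) u) = u := by
    intro u
    rw [← hsy]
    exact dch_dsy he' hpl u
  have hv1 : locG h e' (pl (z 0)) (v 0) (v 0) = 1 := by
    rw [hz, hv, ← heπ, ← g_loc he' hπp]
    exact hx
  have hl0 : dch e p (liftM g h π p x) = hor (locG g e) (locG h e') pl (z 0) (v 0) := by
    rw [dch_lift hg hh hπ hc hp, hz, hv]
  refine ⟨p', dsy e' (pl (z δ)) (v δ), (dsy e (z δ)).comp ((Q δ).comp (dch e p)),
    ⟨?_, ?_, ?_, ?_⟩⟩
  · rw [g_loc he' hπp', hb, heπ']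
    exact piece_unit hls hP hv1 hδm
  · intro u w
    rw [g_loc he hp', g_loc he hp]
    show locG g e (e p') (dch e p' (dsy e (z δ) (Q δ (dch e p u))))
      (dch e p' (dsy e (z δ) (Q δ (dch e p w)))) = _
    rw [ha, ha, hep', piece_iso hls hP _ _ hδm, hz]
  · show dsy e (z δ) (Q δ (dch e p (liftM g h π p x))) = _
    rw [hl0, piece_hor hls hP hδm]
    have h1 := dch_lift hg hh hπ hc hp' (dsy e' (pl (z δ)) (v δ))
    rw [hb, hep'] at h1
    rw [← h1, ← hep']
    exact dsy_dch he hp' _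
  · intro w hw φ φ' ρ ρ' q q' hF
    have e1 := tauM_eq hg hh hπ hc hp' (dsy e' (pl (z δ)) (v δ))
      (dsy e (z δ) (Q δ (dch e p w)))
    have e2 := tauM_eq hg hh hπ hc hp x w
    rw [hb, ha, hep'] at e1
    rw [← hv, ← hz] at e2
    have e3 : h (π p') (dpi E E' π p' (dsy e (z δ) (Q δ (dch e p w))))
        (dpi E E' π p' (dsy e (z δ) (Q δ (dch e p w)))) =
        locG h e' (pl (z δ)) (pl (Q δ (dch e p w))) (pl (Q δ (dch e p w))) := by
      rw [g_loc he' hπp', PC.d hπ.subm hc hp', ha, heπ']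
    have e4 : h (π p) (dpi E E' π p w) (dpi E E' π p w) =
        locG h e' (pl (z 0)) (pl (dch e p w)) (pl (dch e p w)) := by
      rw [g_loc he' hπp, PC.d hπ.subm hc hp, heπ, hz]
    have e5 : g p w w = locG g e (z 0) (dch e p w) (dch e p w) := by
      rw [g_loc he hp, hz]
    have hw' : locG g e (z 0) (dch e p w) (hor (locG g e) (locG h e') pl (z 0) (v 0)) = 0 := by
      rw [← hl0, hz, ← g_loc he hp]
      exact hw
    have h1 := piece_ineq hls hP hδ.le hv1 (StepP_ge hg he hκ) (StepP_le hh he' hΛ)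
      (dch e p w) hw' φ φ' ρ ρ' q q' hF
    show φ δ ^ 2 * (tauM g h π p' (dsy e' (pl (z δ)) (v δ)) (dsy e (z δ) (Q δ (dch e p w))) +
        ρ δ * h (π p') (dpi E E' π p' (dsy e (z δ) (Q δ (dch e p w))))
          (dpi E E' π p' (dsy e (z δ) (Q δ (dch e p w))))) -
      φ 0 ^ 2 * (tauM g h π p x w + ρ 0 * h (π p) (dpi E E' π p w) (dpi E E' π p w)) ≤
      g p w w * (q δ - q 0)
    rw [e1, e2, e3, e4, e5]
    exact h1

end Pool.Agent.Lib.MP_6fca61_gt
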