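import Pool.Agent.Lib.MP_6fca61_gt.VTrig
import Pool.Agent.Lib.MP_6fca61_gt.OnB
import Pool.Agent.Lib.MP_6fca61_gt.PCd
import Pool.Agent.Lib.MP_6fca61_gt.PCex
import Pool.Agent.Lib.MP_6fca61_gt.Ch

/-!
# MP_6fca61_gt (project PW): the Ricci estimate
-/

set_option autoImplicit false
set_option maxSynthPendingDepth 3

open scoped Manifold ContDiff Topology

namespace Pool.Agent.Lib.MP_6fca61_gt

variable {E : Type*} [NormedAddCommGroup E] [NormedSpace ℝ E] [FiniteDimensional ℝ E]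
variable {E' : Type*} [NormedAddCommGroup E'] [NormedSpace ℝ E'] [FiniteDimensional ℝ E']
variable {M : Type*} [TopologicalSpace M] [ChartedSpace E M] [IsManifold 𝓘(ℝ, E) ∞ M]
variable {B : Type*} [TopologicalSpace B] [ChartedSpace E' B] [IsManifold 𝓘(ℝ, E') ∞ B]
variable {g : Fam E M} {h : Fam E' B} {π : M → B}

omit [FiniteDimensional ℝ E'] in
private theorem VCore_unit {b : E' →L[ℝ] E' →L[ℝ] ℝ} {y : E'} (hp : 0 < b y y) :
    b ((Real.sqrt (b y y))⁻¹ • y) ((Real.sqrt (b y y))⁻¹ • y) = 1 := by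
  have hq : 0 < Real.sqrt (b y y) := Real.sqrt_pos.2 hp
  have e2 : b ((Real.sqrt (b y y))⁻¹ • y) ((Real.sqrt (b y y))⁻¹ • y) =
      (Real.sqrt (b y y))⁻¹ * ((Real.sqrt (b y y))⁻¹ * b y y) := by
    simp [map_smul, smul_eq_mul]
  rw [e2]
  nth_rewrite 3 [← Real.mul_self_sqrt hp.le]
  field_simp

omit [IsManifold 𝓘(ℝ, E) ∞ M] [IsManifold 𝓘(ℝ, E') ∞ B] in
/-- Proof. Take `p₀ ∈ M`, a unit vector `x₀` of `T B` at `π p₀` (`dim E' > 0`) and an orthonormal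
basis `u₀` of `ker (dpi π p₀)` (dimension `f` by the surjectivity `hs` of `dpi`; `onb_ex`). Iterate
`hst` with `δ = ε` (dependent choice) and apply `vtrig` to `a k = ∑ tauM (p k) (x k) (u k i)`. -/
theorem vcore [Nonempty M] (hg : GF g) (hh : GF h)
    (hs : ∀ p, Function.Surjective (dpi E E' π p)) {β : ℝ} {f : ℕ}
    (hf : f + Module.finrank ℝ E' = Module.finrank ℝ E) (hb : 0 < Module.finrank ℝ E')
    (hst : ∃ ε > 0, ∀ δ, 0 < δ → δ ≤ ε → ∀ (p : M) (x : E')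
      (u : Fin f → E), h (π p) x x = 1 → (∀ i, dpi E E' π p (u i) = 0) →
      ONF (show E →L[ℝ] E →L[ℝ] ℝ from g p) u → ∃ p' x' u', StepV g h π β δ p x u p' x' u') :
    0 ≤ β := by
  obtain ⟨ε, hε, hst⟩ := hst
  obtain ⟨p₀⟩ := ‹Nonempty M›
  obtain ⟨x₀, hx₀⟩ : ∃ x₀ : E', h (π p₀) x₀ x₀ = 1 := by
    have : Nontrivial E' := Module.finrank_pos_iff.1 hb
    obtain ⟨y, hy⟩ := exists_ne (0 : E')
    have hp := hh.pos (π p₀) y hy
    exact ⟨_, VCore_unit (E' := E') (b := h (π p₀)) (y := y) hp⟩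
  have hker : Module.finrank ℝ (LinearMap.ker (dpi E E' π p₀ : E →ₗ[ℝ] E')) = f := by
    have h1 := LinearMap.finrank_range_add_finrank_ker (dpi E E' π p₀ : E →ₗ[ℝ] E')
    have h2 : LinearMap.range (dpi E E' π p₀ : E →ₗ[ℝ] E') = ⊤ :=
      LinearMap.range_eq_top.2 (hs p₀)
    rw [h2, finrank_top] at h1
    omega
  obtain ⟨u₀, hu₀, hu₀'⟩ := onb_ex (show E →L[ℝ] E →L[ℝ] ℝ from g p₀) (hg.symm p₀) (hg.pos p₀)
    (LinearMap.ker (dpi E E' π p₀ : E →ₗ[ℝ] E')) hker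
  let S : Type _ := {s : M × E' × (Fin f → E) // h (π s.1) s.2.1 s.2.1 = 1 ∧
    (∀ i, dpi E E' π s.1 (s.2.2 i) = 0) ∧ ONF (show E →L[ℝ] E →L[ℝ] ℝ from g s.1) s.2.2}
  have hstep : ∀ s : S, ∃ s' : S, StepV g h π β ε s.1.1 s.1.2.1 s.1.2.2 s'.1.1 s'.1.2.1
      s'.1.2.2 := by
    rintro ⟨⟨p, x, u⟩, h1, h2, h3⟩
    obtain ⟨p', x', u', h4⟩ := hst ε hε le_rfl p x u h1 h2 h3
    exact ⟨⟨⟨p', x', u'⟩, h4.unit, h4.ver, h4.on⟩, h4⟩
  choose F hF using hstep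
  have s0 : S := ⟨⟨p₀, x₀, u₀⟩, hx₀, fun i => hu₀ i, hu₀'⟩
  let s : ℕ → S := fun k => Nat.rec s0 (fun _ t => F t) k
  have hsucc : ∀ k, s (k + 1) = F (s k) := fun k => rfl
  refine vtrig (β := β) (δ := ε) (f := f)
    (a := fun k => ∑ i, tauM g h π (s k).1.1 (s k).1.2.1 ((s k).1.2.2 i)) hε ?_
  intro k φ φ' q q' hφ
  have h1 := (hF (s k)).ineq φ φ' q q' hφ
  rw [← hsucc] at h1
  exact h1

/-- Proof. `PC.d`, `PC.surj`, `dch_dsy` in a product chart. -/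
theorem dpi_surj (hs : Manifold.IsSubmersion 𝓘(ℝ, E) 𝓘(ℝ, E') ∞ π) (p : M) :
    Function.Surjective (dpi E E' π p) := by
  intro y
  obtain ⟨e, e', pl, hc, hp⟩ := pc_ex hs p
  obtain ⟨v, hv⟩ := hc.surj (dch e' (π p) y)
  refine ⟨dsy e (e p) v, ?_⟩
  have h1 := PC.d hs hc hp (dsy e (e p) v)
  have h2 := dch_dsy hc.he (e.map_source hp) v
  rw [e.left_inv hp] at h2
  rw [h2, hv] at h1
  have h3 := dsy_dch hc.he' (hc.maps p hp) (dpi E E' π p (dsy e (e p) v))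
  rw [h1, dsy_dch hc.he' (hc.maps p hp)] at h3
  exact h3.symm

end Pool.Agent.Lib.MP_6fca61_gt
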