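import Pool.Agent.Lib.MP_6fca61_gt.Cov
import Pool.Agent.Lib.MP_6fca61_gt.Par
import Pool.Agent.Lib.MP_6fca61_gt.Geo

/-!
# MP_6fca61_gt (project PW): the covariant derivative of vertical fields
-/

set_option autoImplicit false
set_option maxSynthPendingDepth 3

open scoped Manifold ContDiff Topology

namespace Pool.Agent.Lib.MP_6fca61_gt

variable {E : Type*} [NormedAddCommGroup E] [NormedSpace ℝ E] [FiniteDimensional ℝ E]
variable {E' : Type*} [NormedAddCommGroup E'] [NormedSpace ℝ E'] [FiniteDimensional ℝ E']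
variable {U : Set E} {G : E → E →L[ℝ] E →L[ℝ] ℝ} {V : Set E'}
  {H : E' → E' →L[ℝ] E' →L[ℝ] ℝ} {pl : E →L[ℝ] E'}

/-- Proof. `D = k' + Γ(Z, k)`, `Z = hor z v`. For constant `y` and `s` near `t`,
`G (z s) (k s) (hor (z s) y) = H(y, pl (k s))`. Its derivative at `t` is `H(y, pl k')` since
`pl (k t) = 0`; on the other hand it is `DG(Z)(k, hor y) + G(k', hor y) + G(k, Dhor(Z) y)`, with
`DG(Z)(k, hor y) = chr(Z, k, hor y) + chr(Z, hor y, k) = G(Γ(Z, k), hor y) + G(Γ(Z, hor y), k)`
(`chr_add`, `gam_spec`); `Dhor(Z) y + Γ(Z, hor y) = avec v y + hor(Γ_H(v, y))` (`cov_hor`, linearity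
of `hor`), and `G(k, hor _) = 0`. So `G(D, hor y) + G(k, avec v y) = H(y, pl k')`, and here
`pl k' = 0`. -/
theorem vcov (h : LS U G V H pl) {z k : ℝ → E} {v : ℝ → E'} {t : ℝ} {k' : E} (hz : z t ∈ U)
    (h1 : HasDerivAt z (hor G H pl (z t) (v t)) t) (hk : HasDerivAt k k' t)
    (hk0 : pl (k t) = 0) (hk' : pl k' = 0) (y : E') :
    G (z t) (k' + Gam G (z t) (hor G H pl (z t) (v t)) (k t)) (hor G H pl (z t) y) =
      -G (z t) (k t) (avec G H pl (z t) (v t) y) := by
  have hG : HasFDerivAt G (fderiv ℝ G (z t)) (z t) :=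
    ((h.metG.smooth.differentiableOn (by simp)).differentiableAt
      (h.metG.isOpen.mem_nhds hz)).hasFDerivAt
  have hH : HasFDerivAt H (fderiv ℝ H (pl (z t))) (pl (z t)) :=
    ((h.metH.smooth.differentiableOn (by simp)).differentiableAt
      (h.metH.isOpen.mem_nhds (h.maps _ hz))).hasFDerivAt
  have hD : HasFDerivAt (hor G H pl) (fderiv ℝ (hor G H pl) (z t)) (z t) :=
    (((hor_smooth h).differentiableOn (by simp)).differentiableAt
      (h.metG.isOpen.mem_nhds hz)).hasFDerivAt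
  have dG : HasDerivAt (fun s => G (z s)) (fderiv ℝ G (z t) (hor G H pl (z t) (v t))) t :=
    hG.comp_hasDerivAt t h1
  have dhor : HasDerivAt (fun s => hor G H pl (z s))
      (fderiv ℝ (hor G H pl) (z t) (hor G H pl (z t) (v t))) t := hD.comp_hasDerivAt t h1
  have dpz : HasDerivAt (fun s => pl (z s)) (pl (hor G H pl (z t) (v t))) t :=
    pl.hasFDerivAt.comp_hasDerivAt t h1
  have dpk : HasDerivAt (fun s => pl (k s)) (pl k') t := pl.hasFDerivAt.comp_hasDerivAt t hk
  have dH : HasDerivAt (fun s => H (pl (z s)))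
      (fderiv ℝ H (pl (z t)) (pl (hor G H pl (z t) (v t)))) t := hH.comp_hasDerivAt t dpz
  have dhy := dhor.clm_apply (hasDerivAt_const t y)
  have dL := (dG.clm_apply hk).clm_apply dhy
  have dR := (dH.clm_apply (hasDerivAt_const t y)).clm_apply dpk
  have hev : (fun s => G (z s) (k s) (hor G H pl (z s) y)) =ᶠ[𝓝 t]
      fun s => H (pl (z s)) y (pl (k s)) := by
    have h2 : ∀ᶠ s in 𝓝 t, z s ∈ U :=
      h1.continuousAt.eventually_mem (h.metG.isOpen.mem_nhds hz)
    filter_upwards [h2] with s hs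
    rw [h.metG.symm _ hs, hor_spec h hs]
  have hE := (dL.congr_of_eventuallyEq hev.symm).unique dR
  rw [hk0, hk'] at hE
  simp only [map_zero, add_zero, ContinuousLinearMap.add_apply] at hE
  have e1 := chr_add h.metG hz (hor G H pl (z t) (v t)) (k t) (hor G H pl (z t) y)
  rw [← gam_spec h.metG hz, ← gam_spec h.metG hz] at e1
  have e2 := cov_hor h hz (v t) y
  have e3 : G (z t) (k t) (hor G H pl (z t) (-Gam H (pl (z t)) (v t) y)) = 0 := by
    rw [h.metG.symm _ hz, hor_spec h hz, hk0, map_zero]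
  rw [← e2, map_add, map_add, map_add, e3]
  rw [h.metG.symm _ hz (Gam G (z t) (hor G H pl (z t) (v t)) (hor G H pl (z t) y)) (k t)] at e1
  rw [← e1] at hE
  simp only [ContinuousLinearMap.add_apply]
  linarith

end Pool.Agent.Lib.MP_6fca61_gt
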