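import Pool.Agent.Lib.MP_6fca61_gt.ON
import Pool.Agent.Lib.MP_6fca61_gt.OnB
import Pool.Agent.Lib.MP_6fca61_gt.Cov

/-!
# MP_6fca61_gt (project PW): the sum over a vertical frame
-/

set_option autoImplicit false
set_option maxSynthPendingDepth 3

open scoped Manifold ContDiff Topology

namespace Pool.Agent.Lib.MP_6fca61_gt

variable {E : Type*} [NormedAddCommGroup E] [NormedSpace ℝ E] [FiniteDimensional ℝ E]
variable {E' : Type*} [NormedAddCommGroup E'] [NormedSpace ℝ E'] [FiniteDimensional ℝ E']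
variable {U : Set E} {G : E → E →L[ℝ] E →L[ℝ] ℝ} {V : Set E'}
  {H : E' → E' →L[ℝ] E' →L[ℝ] ℝ} {pl : E →L[ℝ] E'} {z : E}

/-- Proof. Take an `H (pl z)`-orthonormal basis `e j` of `E'` (`onb_ex`, `W = ⊤`). `D i` is
horizontal (`hD2`), i.e. `D i = hor (pl (D i))` (`hor_unique`), so `G(D i, D i) = H(pl D i, pl D i)
= ∑_j H(pl D i, e j)² = ∑_j G(D i, hor e j)² = ∑_j G(u i, avec x (e j))²` (`onb_parseval`,
`hor_spec`). `avec x (e j)` is vertical (`pl_avec`), `u` is an orthonormal basis of `ker pl`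
(dimension `f`), so `∑_i G(u i, avec x (e j))² = G(avec x (e j), avec x (e j))`. By `oneill`,
`3 ∑_j G(avec, avec) = ∑_j Rm_H(x, e j) - ∑_j Rm_G(hor x, hor e j) ≤ r - κ ∑_j (1 - H(x, e j)²)
= r - κ (dim E' - 1)`. -/
theorem vsum (h : LS U G V H pl) (hz : z ∈ U) {x : E'} (hx : H (pl z) x x = 1) {f : ℕ}
    (hf : f + Module.finrank ℝ E' = Module.finrank ℝ E) {u : Fin f → E} (hu : ∀ i, pl (u i) = 0)
    (huo : ONF (G z) u) {D : Fin f → E}
    (hD1 : ∀ i y, G z (D i) (hor G H pl z y) = -G z (u i) (avec G H pl z x y))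
    (hD2 : ∀ i k, pl k = 0 → G z (D i) k = 0) {κ r : ℝ}
    (hκ : ∀ u w, κ * (G z u u * G z w w - G z u w ^ 2) ≤ Rm G z u w)
    (hr : ∀ e : Fin (Module.finrank ℝ E') → E', ONF (H (pl z)) e →
      ∑ i, Rm H (pl z) x (e i) ≤ r) :
    ∑ i, G z (D i) (D i) ≤ (r - κ * (Module.finrank ℝ E' - 1)) / 3 := by
  classical
  have hV := h.maps z hz
  have hHs := h.metH.symm (pl z) hV
  have hHp := h.metH.pos (pl z) hV
  have hGs := h.metG.symm z hz
  have hGp := h.metG.pos z hz
  obtain ⟨e, -, he⟩ := onb_ex (H (pl z)) hHs hHp (⊤ : Submodule ℝ E')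
    (f := Module.finrank ℝ E') (finrank_top ℝ E')
  have hpH : ∀ v : E', H (pl z) v v = ∑ j, H (pl z) v (e j) ^ 2 := fun v =>
    onb_parseval (H (pl z)) hHs hHp (⊤ : Submodule ℝ E') (finrank_top ℝ E')
      (fun _ => Submodule.mem_top) he Submodule.mem_top
  let K : Submodule ℝ E := LinearMap.ker (pl : E →ₗ[ℝ] E')
  have hK : Module.finrank ℝ K = f := by
    have h1 := LinearMap.finrank_range_add_finrank_ker (pl : E →ₗ[ℝ] E')
    have h2 : LinearMap.range (pl : E →ₗ[ℝ] E') = ⊤ := LinearMap.range_eq_top.2 h.surj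
    rw [h2, finrank_top] at h1
    change Module.finrank ℝ E' + Module.finrank ℝ K = _ at h1
    omega
  have hpG : ∀ v : E, pl v = 0 → G z v v = ∑ i, G z v (u i) ^ 2 := fun v hv =>
    onb_parseval (G z) hGs hGp K hK (fun i => hu i) huo hv
  have hhor : ∀ a b : E', G z (hor G H pl z a) (hor G H pl z b) = H (pl z) a b := by
    intro a b
    rw [hor_spec h hz, pl_hor h hz]
  have hD : ∀ i, G z (D i) (D i) = ∑ j, G z (u i) (avec G H pl z x (e j)) ^ 2 := by
    intro i
    have h1 : hor G H pl z (pl (D i)) = D i := hor_unique h hz (hD2 i)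
    have h2 : G z (D i) (D i) = H (pl z) (pl (D i)) (pl (D i)) := by
      have h3 := hor_spec h hz (pl (D i)) (D i)
      rwa [h1] at h3
    rw [h2, hpH]
    refine Finset.sum_congr rfl fun j _ => ?_
    have h4 : H (pl z) (pl (D i)) (e j) = G z (D i) (hor G H pl z (e j)) := by
      rw [← hhor, h1]
    rw [h4, hD1]
    ring
  have hsw : ∑ i, G z (D i) (D i) =
      ∑ j, G z (avec G H pl z x (e j)) (avec G H pl z x (e j)) := by
    rw [Finset.sum_congr rfl fun i _ => hD i, Finset.sum_comm]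
    refine Finset.sum_congr rfl fun j _ => ?_
    rw [hpG _ (pl_avec h hz x (e j))]
    refine Finset.sum_congr rfl fun i _ => ?_
    rw [hGs (u i)]
  have hon : ∀ j, 3 * G z (avec G H pl z x (e j)) (avec G H pl z x (e j)) ≤
      Rm H (pl z) x (e j) - κ * (1 - H (pl z) x (e j) ^ 2) := by
    intro j
    have h1 := oneill h hz x (e j)
    have h2 := hκ (hor G H pl z x) (hor G H pl z (e j))
    rw [hhor, hhor, hhor, hx, he.1 j] at h2
    linarith
  have hsum : ∑ j, 3 * G z (avec G H pl z x (e j)) (avec G H pl z x (e j)) ≤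
      r - κ * (Module.finrank ℝ E' - 1) := by
    calc ∑ j, 3 * G z (avec G H pl z x (e j)) (avec G H pl z x (e j))
        ≤ ∑ j, (Rm H (pl z) x (e j) - κ * (1 - H (pl z) x (e j) ^ 2)) :=
          Finset.sum_le_sum fun j _ => hon j
      _ = ∑ j, Rm H (pl z) x (e j) - κ * (Module.finrank ℝ E' - 1) := by
          rw [Finset.sum_sub_distrib, ← Finset.mul_sum, Finset.sum_sub_distrib, ← hpH, hx]
          simp
      _ ≤ r - κ * (Module.finrank ℝ E' - 1) := by linarith [hr e he]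
  rw [hsw]
  rw [← Finset.mul_sum] at hsum
  linarith

end Pool.Agent.Lib.MP_6fca61_gt
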