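import Pool.Agent.Lib.MP_6fca61_gt.SV
import Pool.Agent.Lib.MP_6fca61_gt.Sec2
import Pool.Agent.Lib.MP_6fca61_gt.Geo
import Pool.Agent.Lib.MP_6fca61_gt.Par
import Pool.Agent.Lib.MP_6fca61_gt.VSum

/-!
# MP_6fca61_gt (project PW): the differential inequality for vertical fields
-/

set_option autoImplicit false
set_option maxSynthPendingDepth 3

open scoped Manifold ContDiff Topology

namespace Pool.Agent.Lib.MP_6fca61_gt

variable {E : Type*} [NormedAddCommGroup E] [NormedSpace ℝ E] [FiniteDimensional ℝ E]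
variable {E' : Type*} [NormedAddCommGroup E'] [NormedSpace ℝ E'] [FiniteDimensional ℝ E']
variable {U : Set E} {G : E → E →L[ℝ] E →L[ℝ] ℝ} {V : Set E'}
  {H : E' → E' →L[ℝ] E' →L[ℝ] ℝ} {pl : E →L[ℝ] E'}

omit [FiniteDimensional ℝ E] in
private theorem VIneqD_gamr (z u : E) : Gam G z u 0 = 0 := by
  have h := gam_smul (G := G) z u 0 1 0
  simpa using h

omit [FiniteDimensional ℝ E] in
private theorem VIneqD_gaml (z u : E) : Gam G z 0 u = 0 := by
  have h := gam_smul (G := G) z 0 u 0 1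
  simpa using h

omit [FiniteDimensional ℝ E] in
private theorem VIneqD_zero (z w : E) : e2 G z 0 w 0 = 0 ∧ Rm G z 0 w = 0 := by
  constructor
  · unfold e2
    simp
  · unfold Rm
    simp [VIneqD_gaml]

omit [FiniteDimensional ℝ E] in
private theorem VIneqD_bil (B : E →L[ℝ] E →L[ℝ] ℝ) (x y : E) (a b : ℝ) (h1 : B x y = 0)
    (h2 : B y x = 0) (h3 : B x x = 1) :
    B (a • x + b • y) (a • x + b • y) = a ^ 2 + b ^ 2 * B y y := by
  simp only [map_add, map_smul, add_apply, smul_apply,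
    smul_eq_mul, h1, h2, h3]
  ring

omit [FiniteDimensional ℝ E] in
private theorem VIneqD_nonneg (hM : Met U G) {z : E} (hz : z ∈ U) (w : E) : 0 ≤ G z w w := by
  by_cases hw : w = 0
  · rw [hw]
    simp
  · exact (hM.pos z hz w hw).le

/-- Proof. `W i = φ u i`, `Z = hor z v`. `tau G H pl z v (u i) = -chr_G(u i, u i, Z)` if
`pl (u i) = 0`, `chr` is bilinear. Here `pl (u i s) = 0` is only assumed at `s = t`, and
`pl (u' i) = 0`; the remaining term `chr_H(pl u i, pl u i, v)` is quadratic in `pl u i`, so its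
derivative at `t` is `0`. By `sv` (with `geo`) the derivative is `∑ (-e2_G + G(DW, DW)
- Rm_G(W i, Z))`, `DW = φ' u i + φ D i`. `e2_G ≥ 0` by `sec2` (`pl W i = 0`, `pl W i' = 0`, so
`e2_H = 0`), `G(DW, DW) = φ'² + φ² G(D i, D i)` (`D i ⟂ u i` by `hD2`), `Rm_G(W i, Z) ≥ κ φ²`
(`G(Z, Z) = 1`, `G(u i, Z) = H(pl u i, v) = 0`). Sum: `≤ f φ'² + φ² (∑ G(D i, D i) - κ f)` and
`hS`. -/
theorem vineqD (h : LS U G V H pl) {κ β α : ℝ} {f : ℕ} {z : ℝ → E} {u : Fin f → ℝ → E}
    {u' : Fin f → E} {v : ℝ → E'} {φ : ℝ → ℝ} {t φ' : ℝ} (hz : z t ∈ U)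
    (h1 : HasDerivAt z (hor G H pl (z t) (v t)) t)
    (h2 : HasDerivAt v (-Gam H (pl (z t)) (v t) (v t)) t)
    (hu : ∀ i, HasDerivAt (u i) (u' i) t) (hu0 : ∀ i, pl (u i t) = 0) (hu1 : ∀ i, pl (u' i) = 0)
    (huo : ∀ i, G (z t) (u i t) (u i t) = 1)
    (hD2 : ∀ i k, pl k = 0 →
      G (z t) (u' i + Gam G (z t) (hor G H pl (z t) (v t)) (u i t)) k = 0)
    (hv : H (pl (z t)) (v t) (v t) = 1)
    (hκ : ∀ u w, κ * (G (z t) u u * G (z t) w w - G (z t) u w ^ 2) ≤ Rm G (z t) u w)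
    (hS : ∑ i, G (z t) (u' i + Gam G (z t) (hor G H pl (z t) (v t)) (u i t))
      (u' i + Gam G (z t) (hor G H pl (z t) (v t)) (u i t)) ≤ α)
    (hβ : α - κ * f ≤ β) (hφ : HasDerivAt φ φ' t) :
    ∃ D, HasDerivAt (fun s => φ s ^ 2 * ∑ i, tau G H pl (z s) (v s) (u i s)) D t ∧
      D ≤ f * φ' ^ 2 + β * φ t ^ 2 := by
  have hgeo := geo h hz h1 h2
  have hVm := h.maps _ hz
  have hplz : HasDerivAt (fun s => pl (z s)) (v t) t := by
    have h3 := pl.hasFDerivAt.comp_hasDerivAt t h1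
    rw [pl_hor h hz] at h3
    exact h3
  have hW : ∀ i, HasDerivAt (fun s => φ s • u i s) (φ t • u' i + φ' • u i t) t :=
    fun i => hφ.smul (hu i)
  have hpl0 : ∀ i, pl (φ t • u i t) = 0 := by
    intro i
    rw [map_smul, hu0, smul_zero]
  have hpl1 : ∀ i, pl (φ t • u' i + φ' • u i t) = 0 := by
    intro i
    rw [map_add, map_smul, map_smul, hu1, hu0, smul_zero, smul_zero, add_zero]
  have hplW : ∀ i, HasDerivAt (fun s => pl (φ s • u i s)) 0 t := by
    intro i
    have h3 := pl.hasFDerivAt.comp_hasDerivAt t (hW i)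
    rw [hpl1] at h3
    exact h3
  have hA : ∀ i, HasDerivAt
      (fun s => chr H (pl (z s)) (pl (φ s • u i s)) (pl (φ s • u i s)) (v s)) 0 t := by
    intro i
    have h3 := sv h.metH (z := fun s => pl (z s)) (Z := v) (W := fun s => pl (φ s • u i s))
      (t := t) hVm hplz h2 (hplW i)
    beta_reduce at h3
    rw [hpl0, VIneqD_gamr, (VIneqD_zero _ _).1, (VIneqD_zero _ _).2, add_zero, add_zero,
      map_zero, sub_zero] at h3
    exact h3
  have hB : ∀ i, HasDerivAt
      (fun s => chr G (z s) (φ s • u i s) (φ s • u i s) (hor G H pl (z s) (v s)))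
      (e2 G (z t) (φ t • u i t) (hor G H pl (z t) (v t)) (φ t • u' i + φ' • u i t) -
        G (z t) (φ t • u' i + φ' • u i t +
          Gam G (z t) (hor G H pl (z t) (v t)) (φ t • u i t))
          (φ t • u' i + φ' • u i t + Gam G (z t) (hor G H pl (z t) (v t)) (φ t • u i t)) +
        Rm G (z t) (φ t • u i t) (hor G H pl (z t) (v t))) t :=
    fun i => sv h.metG (Z := fun s => hor G H pl (z s) (v s)) (W := fun s => φ s • u i s)
      hz h1 hgeo (hW i)
  have hF : (fun s => φ s ^ 2 * ∑ i, tau G H pl (z s) (v s) (u i s)) = fun s => ∑ i,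
      (chr H (pl (z s)) (pl (φ s • u i s)) (pl (φ s • u i s)) (v s) -
        chr G (z s) (φ s • u i s) (φ s • u i s) (hor G H pl (z s) (v s))) := by
    funext s
    rw [Finset.mul_sum]
    refine Finset.sum_congr rfl fun i _ => ?_
    have h3 := chr_smul (G := H) (pl (z s)) (pl (u i s)) (pl (u i s)) (v s) (φ s) (φ s) 1
    have h4 := chr_smul (G := G) (z s) (u i s) (u i s) (hor G H pl (z s) (v s)) (φ s) (φ s) 1
    rw [one_smul] at h3 h4
    rw [map_smul, h3, h4]
    unfold tau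
    ring
  rw [hF]
  refine ⟨_, HasDerivAt.fun_sum fun i _ => (hA i).sub (hB i), ?_⟩
  have hZh : ∀ k, pl k = 0 → G (z t) (hor G H pl (z t) (v t)) k = 0 := by
    intro k hk
    rw [hor_spec h hz, hk, map_zero]
  have hZZ : G (z t) (hor G H pl (z t) (v t)) (hor G H pl (z t) (v t)) = 1 := by
    rw [hor_spec h hz, pl_hor h hz, hv]
  have hterm : ∀ i, 0 - (e2 G (z t) (φ t • u i t) (hor G H pl (z t) (v t))
        (φ t • u' i + φ' • u i t) -
        G (z t) (φ t • u' i + φ' • u i t +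
          Gam G (z t) (hor G H pl (z t) (v t)) (φ t • u i t))
          (φ t • u' i + φ' • u i t + Gam G (z t) (hor G H pl (z t) (v t)) (φ t • u i t)) +
        Rm G (z t) (φ t • u i t) (hor G H pl (z t) (v t))) ≤
      φ' ^ 2 + φ t ^ 2 * G (z t) (u' i + Gam G (z t) (hor G H pl (z t) (v t)) (u i t))
        (u' i + Gam G (z t) (hor G H pl (z t) (v t)) (u i t)) - κ * φ t ^ 2 := by
    intro i
    have h3 : 0 ≤ e2 G (z t) (φ t • u i t) (hor G H pl (z t) (v t))
        (φ t • u' i + φ' • u i t) := by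
      rw [sec2 h hz hZh, hpl0, hpl1, (VIneqD_zero _ _).1, zero_add]
      exact VIneqD_nonneg h.metG hz _
    have h4 : φ t • u' i + φ' • u i t + Gam G (z t) (hor G H pl (z t) (v t)) (φ t • u i t) =
        φ' • u i t + φ t • (u' i + Gam G (z t) (hor G H pl (z t) (v t)) (u i t)) := by
      have h5 := gam_smul (G := G) (z t) (hor G H pl (z t) (v t)) (u i t) 1 (φ t)
      rw [one_smul, one_mul] at h5
      rw [h5, smul_add]
      abel
    have h6 := hD2 i (u i t) (hu0 i)
    have h7 : G (z t) (u i t) (u' i + Gam G (z t) (hor G H pl (z t) (v t)) (u i t)) = 0 := by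
      rw [h.metG.symm _ hz]
      exact h6
    have h8 : G (z t) (φ' • u i t + φ t • (u' i + Gam G (z t) (hor G H pl (z t) (v t)) (u i t)))
        (φ' • u i t + φ t • (u' i + Gam G (z t) (hor G H pl (z t) (v t)) (u i t))) =
        φ' ^ 2 + φ t ^ 2 * G (z t) (u' i + Gam G (z t) (hor G H pl (z t) (v t)) (u i t))
        (u' i + Gam G (z t) (hor G H pl (z t) (v t)) (u i t)) := by
      exact VIneqD_bil (G (z t)) _ _ φ' (φ t) h7 h6 (huo i)
    have h9 : G (z t) (φ t • u i t) (hor G H pl (z t) (v t)) = 0 := by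
      rw [h.metG.symm _ hz]
      exact hZh _ (hpl0 i)
    have h10 : G (z t) (φ t • u i t) (φ t • u i t) = φ t ^ 2 := by
      have h5 := VIneqD_bil (G (z t)) (u i t) 0 (φ t) 0 (by simp) (by simp) (huo i)
      simpa using h5
    have h11 := hκ (φ t • u i t) (hor G H pl (z t) (v t))
    rw [h9, h10, hZZ] at h11
    rw [h4, h8]
    linarith
  refine (Finset.sum_le_sum fun i _ => hterm i).trans ?_
  rw [Finset.sum_sub_distrib, Finset.sum_add_distrib, ← Finset.mul_sum, Finset.sum_const,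
    Finset.sum_const, Finset.card_univ, Fintype.card_fin, nsmul_eq_mul, nsmul_eq_mul]
  have h12 := mul_le_mul_of_nonneg_left hS (sq_nonneg (φ t))
  have h13 := mul_le_mul_of_nonneg_left hβ (sq_nonneg (φ t))
  linarith

end Pool.Agent.Lib.MP_6fca61_gt
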