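import Pool.Agent.Lib.MP_6fca61_gt.VIneqD
import Pool.Agent.Lib.MP_6fca61_gt.VCov
import Pool.Agent.Lib.MP_6fca61_gt.IneqI

/-!
# MP_6fca61_gt (project PW): the inequality for vertical fields on a piece
-/

set_option autoImplicit false
set_option maxSynthPendingDepth 3

open scoped Manifold ContDiff Topology

namespace Pool.Agent.Lib.MP_6fca61_gt

variable {E : Type*} [NormedAddCommGroup E] [NormedSpace ℝ E] [FiniteDimensional ℝ E]
variable {E' : Type*} [NormedAddCommGroup E'] [NormedSpace ℝ E'] [FiniteDimensional ℝ E']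
variable {U : Set E} {G : E → E →L[ℝ] E →L[ℝ] ℝ} {V : Set E'}
  {H : E' → E' →L[ℝ] E' →L[ℝ] ℝ} {pl : E →L[ℝ] E'} {δ : ℝ}
  {z : ℝ → E} {v : ℝ → E'} {R : ℝ → E →L[ℝ] E}

private theorem VIneqI_const {F : Type*} [NormedAddCommGroup F] [NormedSpace ℝ F] {f : ℝ → F}
    (hf : ∀ t ∈ Set.Icc 0 δ, HasDerivAt f 0 t) {t : ℝ} (ht : t ∈ Set.Icc 0 δ) : f t = f 0 := by
  refine constant_of_has_deriv_right_zero (a := 0) (b := δ)
    (fun x hx => (hf x hx).continuousAt.continuousWithinAt)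
    (fun x hx => (hf x ⟨hx.1, hx.2.le⟩).hasDerivWithinAt) t ht

private theorem VIneqI_plz (h : LS U G V H pl) (hp : VPiece U G H pl δ z v R) {t : ℝ}
    (ht : t ∈ Set.Icc 0 δ) : HasDerivAt (fun s => pl (z s)) (v t) t := by
  have h1 := pl.hasFDerivAt.comp_hasDerivAt t (hp.dz t ht)
  rw [pl_hor h (hp.mem t ht)] at h1
  exact h1

/-- The derivative of `R k` is vertical. -/
private theorem VIneqI_dver (h : LS U G V H pl) {y : E} (hy : y ∈ U) (g : E) :
    pl (-g + hor G H pl y (pl g)) = 0 := by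
  rw [map_add, map_neg, pl_hor h hy, neg_add_cancel]

/-- Proof. As `piece_unit` (module IneqI.lean). -/
theorem vpiece_unit (h : LS U G V H pl) (hp : VPiece U G H pl δ z v R)
    (hv : H (pl (z 0)) (v 0) (v 0) = 1) {t : ℝ} (ht : t ∈ Set.Icc 0 δ) :
    H (pl (z t)) (v t) (v t) = 1 := by
  rw [← hv]
  refine VIneqI_const (δ := δ) (f := fun s => H (pl (z s)) (v s) (v s)) (fun r hr => ?_) ht
  have h1 := cov_inner h.metH (h.maps _ (hp.mem r hr)) (VIneqI_plz h hp hr) (hp.dv r hr)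
  have h2 : -Gam H (pl (z r)) (v r) (v r) + Gam H (pl (z r)) (v r) (v r) = 0 := neg_add_cancel _
  rw [h2, map_zero, mul_zero] at h1
  exact h1

/-- Proof. The derivative of `pl (R t k)` is `-pl Γ + pl (hor (pl Γ)) = 0` (`pl_hor`). -/
theorem vpiece_ver (h : LS U G V H pl) (hp : VPiece U G H pl δ z v R) {k : E} (hk : pl k = 0)
    {t : ℝ} (ht : t ∈ Set.Icc 0 δ) : pl (R t k) = 0 := by
  have h0 : pl (R 0 k) = 0 := by rw [hp.R0, hk]
  rw [← h0]
  refine VIneqI_const (δ := δ) (f := fun s => pl (R s k)) (fun r hr => ?_) ht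
  have h1 := pl.hasFDerivAt.comp_hasDerivAt r (hp.dR r hr k)
  rw [VIneqI_dver h (hp.mem r hr)] at h1
  exact h1

/-- Proof. The derivative of `G(R k, R l)` is `G(D, R l) + G(R k, D')` with `D = (R k)' + Γ(Z, R k)
= hor(..)` horizontal, `R l` vertical: `0` (`hor_spec`, `vpiece_ver`). -/
theorem vpiece_iso (h : LS U G V H pl) (hp : VPiece U G H pl δ z v R) {k l : E} (hk : pl k = 0)
    (hl : pl l = 0) {t : ℝ} (ht : t ∈ Set.Icc 0 δ) : G (z t) (R t k) (R t l) = G (z 0) k l := by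
  have hN : ∀ j : E, pl j = 0 → G (z t) (R t j) (R t j) = G (z 0) j j := by
    intro j hj
    have h0 : G (z 0) (R 0 j) (R 0 j) = G (z 0) j j := by rw [hp.R0]
    rw [← h0]
    refine VIneqI_const (δ := δ) (f := fun s => G (z s) (R s j) (R s j)) (fun r hr => ?_) ht
    have hz := hp.mem r hr
    have h1 := cov_inner h.metG hz (hp.dz r hr) (hp.dR r hr j)
    set g := Gam G (z r) (hor G H pl (z r) (v r)) (R r j)
    have h2 : -g + hor G H pl (z r) (pl g) + g = hor G H pl (z r) (pl g) := by abel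
    rw [h2, h.metG.symm _ hz, hor_spec h hz, vpiece_ver h hp hj hr, map_zero, mul_zero] at h1
    exact h1
  have h0 : (0 : ℝ) ∈ Set.Icc 0 δ := ⟨le_rfl, ht.1.trans ht.2⟩
  have h1 := hN (k + l) (by rw [map_add, hk, hl, add_zero])
  have h2 := hN k hk
  have h3 := hN l hl
  simp only [map_add, add_apply] at h1
  rw [h2, h3, h.metG.symm _ (hp.mem t ht) (R t l) (R t k),
    h.metG.symm _ (hp.mem 0 h0) l k] at h1
  linarith

/-- Proof. At every `t ∈ [0, δ]` apply `vineqD` to `u i t = R t (u i)`, with `D i = hor(..)`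
horizontal, `vcov`, `vsum` (`α = (r - κ (dim E' - 1)) / 3`), `vpiece_ver`, `vpiece_iso`,
`vpiece_unit`; then `F(t) = φ² ∑ tau - q` has derivative `≤ 0`. -/
theorem vpiece_ineq (h : LS U G V H pl) (hp : VPiece U G H pl δ z v R) (hδ : 0 ≤ δ)
    {κ r β : ℝ} {f : ℕ} (hf : f + Module.finrank ℝ E' = Module.finrank ℝ E)
    (hβ : (r - κ * (Module.finrank ℝ E' - 1)) / 3 - κ * f ≤ β)
    (hv : H (pl (z 0)) (v 0) (v 0) = 1)
    (hκ : ∀ y ∈ U, ∀ u w, κ * (G y u u * G y w w - G y u w ^ 2) ≤ Rm G y u w)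
    (hr : ∀ y ∈ V, ∀ x, H y x x = 1 → ∀ e : Fin (Module.finrank ℝ E') → E', ONF (H y) e →
      ∑ i, Rm H y x (e i) ≤ r)
    {u : Fin f → E} (hu : ∀ i, pl (u i) = 0) (huo : ONF (G (z 0)) u) (φ φ' q q' : ℝ → ℝ)
    (hF : ∀ t ∈ Set.Icc 0 δ, HasDerivAt φ (φ' t) t ∧ HasDerivAt q (q' t) t ∧
      (f : ℝ) * φ' t ^ 2 + β * φ t ^ 2 ≤ q' t) :
    φ δ ^ 2 * ∑ i, tau G H pl (z δ) (v δ) (R δ (u i)) -
      φ 0 ^ 2 * ∑ i, tau G H pl (z 0) (v 0) (u i) ≤ q δ - q 0 := by
  have h0 : (0 : ℝ) ∈ Set.Icc 0 δ := ⟨le_rfl, hδ⟩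
  have hd : (δ : ℝ) ∈ Set.Icc 0 δ := ⟨hδ, le_rfl⟩
  have key : ∀ t ∈ Set.Icc 0 δ, ∃ D, HasDerivAt
      (fun s => φ s ^ 2 * ∑ i, tau G H pl (z s) (v s) (R s (u i)) - q s) D t ∧ D ≤ 0 := by
    intro t ht
    have hz := hp.mem t ht
    obtain ⟨hφ, hq, hle⟩ := hF t ht
    have hvt := vpiece_unit h hp hv ht
    have hon : ONF (G (z t)) (fun i => R t (u i)) := by
      refine ⟨fun i => ?_, fun i j hij => ?_⟩
      · rw [vpiece_iso h hp (hu i) (hu i) ht]
        exact huo.1 i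
      · rw [vpiece_iso h hp (hu i) (hu j) ht]
        exact huo.2 i j hij
    have hD2 : ∀ i k, pl k = 0 → G (z t) (-Gam G (z t) (hor G H pl (z t) (v t)) (R t (u i)) +
        hor G H pl (z t) (pl (Gam G (z t) (hor G H pl (z t) (v t)) (R t (u i)))) +
        Gam G (z t) (hor G H pl (z t) (v t)) (R t (u i))) k = 0 := by
      intro i k hk
      have h2 : ∀ g : E, -g + hor G H pl (z t) (pl g) + g = hor G H pl (z t) (pl g) :=
        fun g => by abel
      rw [h2, hor_spec h hz, hk, map_zero]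
    have hS := vsum h hz hvt hf (u := fun i => R t (u i))
      (D := fun i => -Gam G (z t) (hor G H pl (z t) (v t)) (R t (u i)) +
        hor G H pl (z t) (pl (Gam G (z t) (hor G H pl (z t) (v t)) (R t (u i)))) +
        Gam G (z t) (hor G H pl (z t) (v t)) (R t (u i)))
      (fun i => vpiece_ver h hp (hu i) ht) hon
      (fun i y => vcov h hz (hp.dz t ht) (hp.dR t ht (u i)) (vpiece_ver h hp (hu i) ht)
        (VIneqI_dver h hz _) y)
      hD2 (hκ (z t) hz) (hr (pl (z t)) (h.maps _ hz) (v t) hvt)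
    obtain ⟨D, hD, hDle⟩ := vineqD h (u := fun i s => R s (u i)) (φ := φ) hz (hp.dz t ht)
      (hp.dv t ht) (fun i => hp.dR t ht (u i)) (fun i => vpiece_ver h hp (hu i) ht)
      (fun i => VIneqI_dver h hz _) hon.1 hD2 hvt (hκ (z t) hz) hS hβ hφ
    exact ⟨D - q' t, hD.sub hq, by linarith⟩
  have hanti : AntitoneOn
      (fun s => φ s ^ 2 * ∑ i, tau G H pl (z s) (v s) (R s (u i)) - q s) (Set.Icc 0 δ) := by
    refine antitoneOn_of_deriv_nonpos (convex_Icc 0 δ) (fun t ht => ?_) (fun t ht => ?_)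
      (fun t ht => ?_)
    · obtain ⟨D, hD, -⟩ := key t ht
      exact hD.continuousAt.continuousWithinAt
    · obtain ⟨D, hD, -⟩ := key t (interior_subset ht)
      exact hD.differentiableAt.differentiableWithinAt
    · obtain ⟨D, hD, hD0⟩ := key t (interior_subset ht)
      rw [hD.deriv]
      exact hD0
  have h1 := hanti h0 hd hδ
  simp only [hp.R0] at h1
  linarith

end Pool.Agent.Lib.MP_6fca61_gt
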