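import Pool.Agent.Lib.MP_6fca61_gt.Geo
import Pool.Agent.Lib.MP_6fca61_gt.VDefs

/-!
# MP_6fca61_gt (project PW): local existence with vertical parallel translation
-/

set_option autoImplicit false
set_option maxSynthPendingDepth 3

open scoped Manifold ContDiff Topology

namespace Pool.Agent.Lib.MP_6fca61_gt

variable {E : Type*} [NormedAddCommGroup E] [NormedSpace ℝ E] [FiniteDimensional ℝ E]
variable {E' : Type*} [NormedAddCommGroup E'] [NormedSpace ℝ E'] [FiniteDimensional ℝ E']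
variable {U : Set E} {G : E → E →L[ℝ] E →L[ℝ] ℝ} {V : Set E'}
  {H : E' → E' →L[ℝ] E' →L[ℝ] ℝ} {pl : E →L[ℝ] E'}

/-- Local existence for a vector field, with a uniform time in an open set. -/
private theorem VOdeL_flow {W : Type*} [NormedAddCommGroup W] [NormedSpace ℝ W] [CompleteSpace W]
    {f : W → W} {x₀ : W} (hf : ContDiffAt ℝ 1 f x₀) {O : Set W} (hO : IsOpen O) (hx₀ : x₀ ∈ O) :
    ∃ r > 0, ∃ ε > 0, ∀ x, dist x x₀ < r → ∃ α : ℝ → W, α 0 = x ∧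
      ∀ t ∈ Set.Icc 0 ε, α t ∈ O ∧ HasDerivAt α (f (α t)) t := by
  obtain ⟨ε, hε, a, r, L, K, hr, hpl⟩ := IsPicardLindelof.of_contDiffAt_one hf
  obtain ⟨α, hα, hαc⟩ := (hpl 0).exists_forall_mem_closedBall_eq_hasDerivWithinAt_continuousOn
  have hr' : (0:ℝ) < r := by exact_mod_cast hr
  have hmem : ((x₀, (0:ℝ)) : W × ℝ) ∈ Metric.closedBall x₀ (r:ℝ) ×ˢ Set.Icc (0 - ε) (0 + ε) :=
    ⟨Metric.mem_closedBall_self hr'.le, by constructor <;> linarith⟩
  have hα0 : α (x₀, 0) = x₀ := (hα x₀ (Metric.mem_closedBall_self hr'.le)).1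
  have hnh : α ⁻¹' O ∈ 𝓝[Metric.closedBall x₀ (r:ℝ) ×ˢ Set.Icc (0 - ε) (0 + ε)]
      ((x₀, (0:ℝ)) : W × ℝ) := by
    refine (hαc _ hmem).preimage_mem_nhdsWithin (hO.mem_nhds ?_)
    rw [hα0]
    exact hx₀
  rw [Metric.mem_nhdsWithin_iff] at hnh
  obtain ⟨ρ, hρ, hsub⟩ := hnh
  refine ⟨min r ρ, lt_min hr' hρ, min (ε / 2) (ρ / 2), by positivity, fun x hx => ?_⟩
  have hxr : x ∈ Metric.closedBall x₀ (r:ℝ) := (hx.le.trans (min_le_left _ _) : dist x x₀ ≤ r)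
  refine ⟨fun t => α (x, t), (hα x hxr).1, fun t ht => ?_⟩
  have ht1 : t ≤ ε / 2 := ht.2.trans (min_le_left _ _)
  have ht2 : t ≤ ρ / 2 := ht.2.trans (min_le_right _ _)
  have ht0 := ht.1
  have htm : t ∈ Set.Icc (0 - ε) (0 + ε) := by constructor <;> linarith
  constructor
  · refine hsub ⟨?_, hxr, htm⟩
    rw [Metric.mem_ball, Prod.dist_eq]
    refine max_lt (hx.trans_le (min_le_right _ _)) ?_
    rw [Real.dist_eq, sub_zero, abs_of_nonneg ht0]
    linarith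
  · exact ((hα x hxr).2 t htm).hasDerivAt (Icc_mem_nhds (by linarith) (by linarith))

/-- The same as `odeL` (module OdeL.lean, see there) with `R` instead of `Q`: the vector field is
`(z, v, R) ↦ (hor z v, -Γ_H(pl z)(v, v), (-GB z (hor z v) + hor z ∘ pl ∘ GB z (hor z v)) ∘ R)`. -/
theorem vodeL (h : LS U G V H pl) {z₀ : E} (hz₀ : z₀ ∈ U) (v₀ : E') :
    ∃ r > 0, ∃ ε > 0, ∀ z₁ v₁, dist z₁ z₀ < r → dist v₁ v₀ < r →
      ∃ z v R, z 0 = z₁ ∧ v 0 = v₁ ∧ VPiece U G H pl ε z v R := by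
  have hcE : CompleteSpace E := FiniteDimensional.complete ℝ E
  have hcE' : CompleteSpace E' := FiniteDimensional.complete ℝ E'
  obtain ⟨GB, hGB, hGBe⟩ := gam_smooth h.metG
  obtain ⟨GH, hGH, hGHe⟩ := gam_smooth h.metH
  obtain ⟨f, hf⟩ : ∃ f : E × E' × (E →L[ℝ] E) → E × E' × (E →L[ℝ] E), ∀ p, f p =
      (hor G H pl p.1 p.2.1, -GH (pl p.1) p.2.1 p.2.1,
        (-GB p.1 (hor G H pl p.1 p.2.1) + (hor G H pl p.1).comp
          (pl.comp (GB p.1 (hor G H pl p.1 p.2.1)))).comp p.2.2) := ⟨_, fun _ => rfl⟩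
  have hfs : ContDiffAt ℝ 1 f (z₀, v₀, ContinuousLinearMap.id ℝ E) := by
    have e : f = fun p => (hor G H pl p.1 p.2.1, -GH (pl p.1) p.2.1 p.2.1,
        (-GB p.1 (hor G H pl p.1 p.2.1) + (hor G H pl p.1).comp
          (pl.comp (GB p.1 (hor G H pl p.1 p.2.1)))).comp p.2.2) := funext hf
    rw [e]
    have h1 : ContDiffAt ℝ 1 (fun p : E × E' × (E →L[ℝ] E) => p.1)
        (z₀, v₀, ContinuousLinearMap.id ℝ E) := contDiffAt_fst
    have h2 : ContDiffAt ℝ 1 (fun p : E × E' × (E →L[ℝ] E) => p.2.1)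
        (z₀, v₀, ContinuousLinearMap.id ℝ E) := contDiffAt_snd.fst
    have h3 : ContDiffAt ℝ 1 (fun p : E × E' × (E →L[ℝ] E) => p.2.2)
        (z₀, v₀, ContinuousLinearMap.id ℝ E) := contDiffAt_snd.snd
    have hh0 : ContDiffAt ℝ 1 (hor G H pl) z₀ :=
      ((hor_smooth h).contDiffAt (h.metG.isOpen.mem_nhds hz₀)).of_le (by norm_num)
    have hg0 : ContDiffAt ℝ 1 GB z₀ :=
      (hGB.contDiffAt (h.metG.isOpen.mem_nhds hz₀)).of_le (by norm_num)
    have hH0 : ContDiffAt ℝ 1 GH (pl z₀) :=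
      (hGH.contDiffAt (h.metH.isOpen.mem_nhds (h.maps z₀ hz₀))).of_le (by norm_num)
    have hh : ContDiffAt ℝ 1 (fun p : E × E' × (E →L[ℝ] E) => hor G H pl p.1)
        (z₀, v₀, ContinuousLinearMap.id ℝ E) :=
      ContDiffAt.comp (g := hor G H pl) (f := fun p : E × E' × (E →L[ℝ] E) => p.1)
        (z₀, v₀, ContinuousLinearMap.id ℝ E) hh0 h1
    have hg : ContDiffAt ℝ 1 (fun p : E × E' × (E →L[ℝ] E) => GB p.1)
        (z₀, v₀, ContinuousLinearMap.id ℝ E) :=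
      ContDiffAt.comp (g := GB) (f := fun p : E × E' × (E →L[ℝ] E) => p.1)
        (z₀, v₀, ContinuousLinearMap.id ℝ E) hg0 h1
    have hpl : ContDiffAt ℝ 1 (fun p : E × E' × (E →L[ℝ] E) => pl p.1)
        (z₀, v₀, ContinuousLinearMap.id ℝ E) := pl.contDiff.contDiffAt.comp _ h1
    have hH : ContDiffAt ℝ 1 (fun p : E × E' × (E →L[ℝ] E) => GH (pl p.1))
        (z₀, v₀, ContinuousLinearMap.id ℝ E) :=
      ContDiffAt.comp (g := GH) (f := fun p : E × E' × (E →L[ℝ] E) => pl p.1)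
        (z₀, v₀, ContinuousLinearMap.id ℝ E) hH0 hpl
    have hX := hh.clm_apply h2
    have hGX := hg.clm_apply hX
    have hc : ContDiffAt ℝ 1 (fun _ : E × E' × (E →L[ℝ] E) => pl)
        (z₀, v₀, ContinuousLinearMap.id ℝ E) := contDiffAt_const
    exact hX.prodMk (((hH.clm_apply h2).clm_apply h2).neg.prodMk
      ((hGX.neg.add (hh.clm_comp (hc.clm_comp hGX))).clm_comp h3))
  have hO : IsOpen (U ×ˢ (Set.univ : Set (E' × (E →L[ℝ] E)))) := h.metG.isOpen.prod isOpen_univ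
  obtain ⟨r, hr, ε, hε, hsol⟩ := VOdeL_flow hfs hO ⟨hz₀, Set.mem_univ _⟩
  refine ⟨r, hr, ε, hε, fun z₁ v₁ hz₁ hv₁ => ?_⟩
  obtain ⟨α, hα0, hα⟩ := hsol (z₁, v₁, ContinuousLinearMap.id ℝ E) (by
    rw [Prod.dist_eq, Prod.dist_eq, dist_self]
    exact max_lt hz₁ (max_lt hv₁ hr))
  refine ⟨fun t => (α t).1, fun t => (α t).2.1, fun t => (α t).2.2, ?_, ?_, ?_⟩
  · simp only [hα0]
  · simp only [hα0]
  · have hz : ∀ t ∈ Set.Icc 0 ε, (α t).1 ∈ U := fun t ht => (hα t ht).1.1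
    have hd : ∀ t ∈ Set.Icc 0 ε, HasDerivAt α
        (hor G H pl (α t).1 (α t).2.1, -GH (pl (α t).1) (α t).2.1 (α t).2.1,
        (-GB (α t).1 (hor G H pl (α t).1 (α t).2.1) + (hor G H pl (α t).1).comp
          (pl.comp (GB (α t).1 (hor G H pl (α t).1 (α t).2.1)))).comp (α t).2.2) t := by
      intro t ht
      rw [← hf]
      exact (hα t ht).2
    refine ⟨hz, fun t ht => ?_, fun t ht => ?_, fun t ht k => ?_, fun k => ?_⟩
    · exact (ContinuousLinearMap.fst ℝ E (E' × (E →L[ℝ] E))).hasFDerivAt.comp_hasDerivAt t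
        (hd t ht)
    · have h1 := ((ContinuousLinearMap.fst ℝ E' (E →L[ℝ] E)).comp
        (ContinuousLinearMap.snd ℝ E (E' × (E →L[ℝ] E)))).hasFDerivAt.comp_hasDerivAt t (hd t ht)
      have h2 := hGHe _ (h.maps _ (hz t ht)) (α t).2.1 (α t).2.1
      rw [← h2]
      exact h1
    · have h1 := (((ContinuousLinearMap.apply ℝ E k).comp
        (ContinuousLinearMap.snd ℝ E' (E →L[ℝ] E))).comp
        (ContinuousLinearMap.snd ℝ E (E' × (E →L[ℝ] E)))).hasFDerivAt.comp_hasDerivAt t (hd t ht)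
      have h2 := hGBe _ (hz t ht) (hor G H pl (α t).1 (α t).2.1) ((α t).2.2 k)
      rw [← h2]
      exact h1
    · simp only [hα0]
      rfl

end Pool.Agent.Lib.MP_6fca61_gt
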