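import Pool.Agent.Lib.MP_6fca61_gt.VIneqI
import Pool.Agent.Lib.MP_6fca61_gt.TauS
import Pool.Agent.Lib.MP_6fca61_gt.CurvM
import Pool.Agent.Lib.MP_6fca61_gt.PCd
import Pool.Agent.Lib.MP_6fca61_gt.StepP

/-!
# MP_6fca61_gt (project PW): one vertical step in a product chart
-/

set_option autoImplicit false
set_option maxSynthPendingDepth 3

open scoped Manifold ContDiff Topology

namespace Pool.Agent.Lib.MP_6fca61_gt

variable {E : Type*} [NormedAddCommGroup E] [NormedSpace ℝ E] [FiniteDimensional ℝ E]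
variable {E' : Type*} [NormedAddCommGroup E'] [NormedSpace ℝ E'] [FiniteDimensional ℝ E']
variable {M : Type*} [TopologicalSpace M] [ChartedSpace E M] [IsManifold 𝓘(ℝ, E) ∞ M]
variable {B : Type*} [TopologicalSpace B] [ChartedSpace E' B] [IsManifold 𝓘(ℝ, E') ∞ B]
variable {g : Fam E M} {h : Fam E' B} {π : M → B}
variable {e : OpenPartialHomeomorph M E} {e' : OpenPartialHomeomorph B E'} {pl : E →L[ℝ] E'}
  {p : M}

/-- the bound of the Ricci curvature in a chart -/
private theorem VStepP_ric (hh : GF h) (he' : e' ∈ IsManifold.maximalAtlas 𝓘(ℝ, E') ∞ B) {r : ℝ}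
    (hr : RicLe h r) (y : E') (hy : y ∈ e'.target) (x : E') (hx : locG h e' y x x = 1)
    (b : Fin (Module.finrank ℝ E') → E') (hb : ONF (locG h e' y) b) :
    ∑ i, Rm (locG h e') y x (b i) ≤ r := by
  have hp : e'.symm y ∈ e'.source := e'.map_target hy
  have hey : e' (e'.symm y) = y := e'.right_inv hy
  have key : ∀ u w : E', h (e'.symm y) (dsy e' y u : E') (dsy e' y w : E') =
      locG h e' y u w := by
    intro u w
    rw [g_loc he' hp, dch_dsy he' hy, dch_dsy he' hy, hey]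
  have h1 := hr (e'.symm y) (dsy e' y x : E') (fun i => (dsy e' y (b i) : E'))
    ((key x x).trans hx) (fun i => (key _ _).trans (hb.1 i))
    (fun i j hij => (key _ _).trans (hb.2 i j hij))
  refine le_trans (le_of_eq (Finset.sum_congr rfl fun i _ => ?_)) h1
  rw [curv_ch hh he' hp, dch_dsy he' hy, dch_dsy he' hy, hey]

/-- Proof. As `stepP` (module StepP.lean): `p' = e.symm (z δ)`, `x' = dsy e' (pl (z δ)) (v δ)`,
`u' i = dsy e (z δ) (R δ (dch e p (u i)))`; `vpiece_unit`, `vpiece_ver`, `vpiece_iso`,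
`vpiece_ineq`, `tauM_eq`, `PC.d`, `g_loc`, `curv_ch`, `dch_dsy`. -/
theorem vstepP (hg : GF g) (hh : GF h) (hπ : IsRiemSubm g h π) (hc : PC π e e' pl)
    (hp : p ∈ e.source) {κ r β δ : ℝ} {f : ℕ}
    (hf : f + Module.finrank ℝ E' = Module.finrank ℝ E)
    (hβ : (r - κ * (Module.finrank ℝ E' - 1)) / 3 - κ * f ≤ β)
    (hκ : SecGe g κ) (hr : RicLe h r) (hδ : 0 < δ) {x : E'}
    (hx : h (π p) x x = 1) {u : Fin f → E} (hu : ∀ i, dpi E E' π p (u i) = 0)
    (huo : ONF (show E →L[ℝ] E →L[ℝ] ℝ from g p) u) {z : ℝ → E} {v : ℝ → E'}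
    {R : ℝ → E →L[ℝ] E} (hz : z 0 = e p) (hv : v 0 = dch e' (π p) x)
    (hP : VPiece e.target (locG g e) (locG h e') pl δ z v R) :
    ∃ p' x' u', StepV g h π β δ p x u p' x' u' := by
  have hls := hc.ls hg hh hπ
  have he := hc.he
  have he' := hc.he'
  have hδm : δ ∈ Set.Icc (0 : ℝ) δ := ⟨hδ.le, le_rfl⟩
  have hz₁ : z δ ∈ e.target := hP.mem δ hδm
  obtain ⟨p', hp'def⟩ : ∃ p', p' = e.symm (z δ) := ⟨_, rfl⟩
  have hp' : p' ∈ e.source := by rw [hp'def]; exact e.map_target hz₁
  have hep' : e p' = z δ := by rw [hp'def]; exact e.right_inv hz₁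
  have hπp : π p ∈ e'.source := hc.maps p hp
  have hπp' : π p' ∈ e'.source := hc.maps p' hp'
  have heπ : e' (π p) = pl (e p) := hc.eq p hp
  have heπ' : e' (π p') = pl (z δ) := by rw [hc.eq p' hp', hep']
  have hpl : pl (z δ) ∈ e'.target := by rw [← heπ']; exact e'.map_source hπp'
  have hsy : e'.symm (pl (z δ)) = π p' := by rw [← heπ']; exact e'.left_inv hπp'
  have ha : ∀ u : E, dch e p' (dsy e (z δ) u) = u := by
    intro u
    rw [hp'def]
    exact dch_dsy he hz₁ u
  have hb : ∀ u : E', dch e' (π p') (dsy e' (pl (z δ)) u) = u := by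
    intro u
    rw [← hsy]
    exact dch_dsy he' hpl u
  have hv1 : locG h e' (pl (z 0)) (v 0) (v 0) = 1 := by
    rw [hz, hv, ← heπ, ← g_loc he' hπp]
    exact hx
  have hk : ∀ i, pl (dch e p (u i)) = 0 := by
    intro i
    have h1 := PC.d hπ.subm hc hp (u i)
    rw [hu i, map_zero] at h1
    exact h1.symm
  have huo' : ONF (locG g e (z 0)) fun i => dch e p (u i) := by
    constructor
    · intro i
      have h1 : g p (u i) (u i) = 1 := huo.1 i
      rw [g_loc he hp] at h1
      rw [hz]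
      exact h1
    · intro i j hij
      have h1 : g p (u i) (u j) = 0 := huo.2 i j hij
      rw [g_loc he hp] at h1
      rw [hz]
      exact h1
  have hg' : ∀ i j, g p' (dsy e (z δ) (R δ (dch e p (u i))) : E)
      (dsy e (z δ) (R δ (dch e p (u j))) : E) = locG g e (z 0) (dch e p (u i))
        (dch e p (u j)) := by
    intro i j
    rw [g_loc he hp', ha, ha, hep']
    exact vpiece_iso hls hP (hk i) (hk j) hδm
  refine ⟨p', dsy e' (pl (z δ)) (v δ), fun i => dsy e (z δ) (R δ (dch e p (u i))),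
    ⟨?_, ?_, ?_, ?_⟩⟩
  · rw [g_loc he' hπp', hb, heπ']
    exact vpiece_unit hls hP hv1 hδm
  · intro i
    have h1 := PC.d hπ.subm hc hp' (dsy e (z δ) (R δ (dch e p (u i))))
    rw [ha, vpiece_ver hls hP (hk i) hδm] at h1
    have h2 := dsy_dch he' hπp' (dpi E E' π p' (dsy e (z δ) (R δ (dch e p (u i)))))
    rw [h1, map_zero] at h2
    exact h2.symm
  · exact ⟨fun i => (hg' i i).trans (huo'.1 i), fun i j hij => (hg' i j).trans (huo'.2 i j hij)⟩
  · intro φ φ' q q' hF
    have e1 : ∀ i, tauM g h π p' (dsy e' (pl (z δ)) (v δ))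
        (dsy e (z δ) (R δ (dch e p (u i)))) =
        tau (locG g e) (locG h e') pl (z δ) (v δ) (R δ (dch e p (u i))) := by
      intro i
      have h1 := tauM_eq hg hh hπ hc hp' (dsy e' (pl (z δ)) (v δ))
        (dsy e (z δ) (R δ (dch e p (u i))))
      rw [hb, ha, hep'] at h1
      exact h1
    have e2 : ∀ i, tauM g h π p x (u i) =
        tau (locG g e) (locG h e') pl (z 0) (v 0) (dch e p (u i)) := by
      intro i
      have h1 := tauM_eq hg hh hπ hc hp x (u i)
      rw [← hv, ← hz] at h1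
      exact h1
    have h1 := vpiece_ineq hls hP hδ.le hf hβ hv1 (StepP_ge hg he hκ)
      (VStepP_ric hh he' hr) hk huo' φ φ' q q' hF
    rw [Finset.sum_congr rfl fun i _ => e1 i, Finset.sum_congr rfl fun i _ => e2 i]
    exact h1

end Pool.Agent.Lib.MP_6fca61_gt
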