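import Pool.Agent.Lib.MP_6fca61_gt.VDefs

/-!
# MP_6fca61_gt (project PW): the trigonometric test function, Ricci version
-/

set_option autoImplicit false
set_option maxSynthPendingDepth 3

open scoped Manifold ContDiff Topology

namespace Pool.Agent.Lib.MP_6fca61_gt


/-- Proof. `β < 0`: choose `N > 0` such that `ω = Real.pi / (N δ)` satisfies `f ω² + β < 0`. On the
`k`-th interval use `φ(t) = sin (ω (k δ + t))`, `q(t) = q₀(k δ + t)`, `q₀(s) = (f ω² + β) s / 2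
+ (f ω² - β) sin (2 ω s) / (4 ω)`, `q₀' = f ω² cos² + β sin²`. Sum over `k < N`:
`0 ≤ q₀(N δ) - q₀(0) = (f ω² + β) N δ / 2 < 0`. -/
theorem vtrig {β δ : ℝ} {f : ℕ} {a : ℕ → ℝ} (hδ : 0 < δ)
    (hineq : ∀ k, ∀ φ φ' q q' : ℝ → ℝ,
      (∀ t ∈ Set.Icc 0 δ, HasDerivAt φ (φ' t) t ∧ HasDerivAt q (q' t) t ∧
        (f : ℝ) * φ' t ^ 2 + β * φ t ^ 2 ≤ q' t) →
      φ δ ^ 2 * a (k + 1) - φ 0 ^ 2 * a k ≤ q δ - q 0) : 0 ≤ β := by
  by_contra hβ
  push Not at hβ
  have hπ := Real.pi_pos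
  obtain ⟨N, hN⟩ := exists_nat_gt (f * Real.pi ^ 2 / (δ ^ 2 * (-β)) + 1)
  have hβ' : 0 < -β := by linarith
  have hq0 : 0 ≤ f * Real.pi ^ 2 / (δ ^ 2 * (-β)) := by positivity
  have hN1 : (1 : ℝ) < N := by linarith
  have hN0 : (0 : ℝ) < N := by linarith
  have hNf : f * Real.pi ^ 2 < N * (δ ^ 2 * (-β)) := by
    rw [← div_lt_iff₀ (by positivity)]
    linarith
  obtain ⟨L, hL⟩ : ∃ L : ℝ, L = N * δ := ⟨_, rfl⟩
  have hL0 : 0 < L := by rw [hL]; positivity
  obtain ⟨w, hw⟩ : ∃ w : ℝ, w = Real.pi / L := ⟨_, rfl⟩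
  have hw0 : 0 < w := by rw [hw]; positivity
  have hwL : w * L = Real.pi := by rw [hw]; field_simp
  have hneg : f * w ^ 2 + β < 0 := by
    have h1 : f * w ^ 2 < -β := by
      rw [hw, div_pow, ← mul_div_assoc, div_lt_iff₀ (by positivity), hL]
      have h2 : N * (δ ^ 2 * (-β)) ≤ -β * (N * δ) ^ 2 := by
        have h3 : (N : ℝ) ≤ N ^ 2 := by nlinarith
        have h4 := mul_le_mul_of_nonneg_right h3 (show 0 ≤ δ ^ 2 * (-β) by positivity)
        linarith [h4, show -β * (N * δ) ^ 2 = (N : ℝ) ^ 2 * (δ ^ 2 * (-β)) by ring]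
      linarith
    linarith
  obtain ⟨q₀, hq₀⟩ : ∃ q₀ : ℝ → ℝ, q₀ = fun s => (f * w ^ 2 + β) * s / 2 +
    (f * w ^ 2 - β) * Real.sin (2 * w * s) / (4 * w) := ⟨_, rfl⟩
  obtain ⟨P, hP⟩ : ∃ P : ℕ → ℝ, P = fun k : ℕ => Real.sin (w * ((k : ℝ) * δ)) := ⟨_, rfl⟩
  have hstep : ∀ k : ℕ, P (k + 1) ^ 2 * a (k + 1) - P k ^ 2 * a k ≤
      q₀ ((k + 1 : ℕ) * δ) - q₀ ((k : ℕ) * δ) := by
    intro k
    have h := hineq k (fun t => Real.sin (w * ((k : ℕ) * δ + t)))
      (fun t => Real.cos (w * ((k : ℕ) * δ + t)) * w)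
      (fun t => q₀ ((k : ℕ) * δ + t))
      (fun t => f * w ^ 2 * Real.cos (w * ((k : ℕ) * δ + t)) ^ 2 +
        β * Real.sin (w * ((k : ℕ) * δ + t)) ^ 2) (by
      intro t ht
      have hlin : ∀ r : ℝ, HasDerivAt (fun t : ℝ => r * ((k : ℕ) * δ + t)) r t := by
        intro r
        have h1 : HasDerivAt (fun t : ℝ => r * ((k : ℕ) * δ + t)) (r * (0 + 1)) t :=
          ((hasDerivAt_const t _).add (hasDerivAt_id t)).const_mul r
        simpa using h1
      refine ⟨?_, ?_, ?_⟩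
      · exact (Real.hasDerivAt_sin _).comp t (hlin w)
      · rw [hq₀]
        have h1 : HasDerivAt (fun t : ℝ => (k : ℕ) * δ + t) 1 t := by
          have := hlin 1
          simpa using this
        have h2 : HasDerivAt (fun t : ℝ => (f * w ^ 2 + β) * ((k : ℕ) * δ + t) / 2)
            ((f * w ^ 2 + β) * 1 / 2) t := (h1.const_mul _).div_const 2
        have h3 : HasDerivAt (fun t : ℝ => (f * w ^ 2 - β) *
            Real.sin (2 * w * ((k : ℕ) * δ + t)) / (4 * w))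
            ((f * w ^ 2 - β) * (Real.cos (2 * w * ((k : ℕ) * δ + t)) * (2 * w)) /
              (4 * w)) t :=
          (((Real.hasDerivAt_sin _).comp t (hlin (2 * w))).const_mul _).div_const _
        refine (h2.add h3).congr_deriv ?_
        have h4 : 2 * w * (((k : ℕ) : ℝ) * δ + t) =
          2 * (w * (((k : ℕ) : ℝ) * δ + t)) := by ring
        rw [h4, Real.cos_two_mul, Real.sin_sq]
        field_simp
        ring
      · refine le_of_eq ?_
        ring)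
    have e1 : (((k : ℕ) : ℝ)) * δ + δ = ((k + 1 : ℕ) : ℝ) * δ := by
      push_cast
      ring
    rw [e1, add_zero] at h
    rw [hP]
    exact h
  have hsum : ∀ k : ℕ, P k ^ 2 * a k - P 0 ^ 2 * a 0 ≤ q₀ ((k : ℕ) * δ) - q₀ 0 := by
    intro k
    induction k with
    | zero => simp
    | succ k ih =>
      have h1 := hstep k
      linarith
  have hfin := hsum N
  have hP0 : P 0 = 0 := by
    rw [hP]
    simp
  have hPm : P N = 0 := by
    rw [hP]
    change Real.sin (w * ((N : ℝ) * δ)) = 0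
    rw [← hL, hwL, Real.sin_pi]
  rw [hP0, hPm, ← hL] at hfin
  have hq : q₀ L - q₀ 0 = (f * w ^ 2 + β) * L / 2 := by
    rw [hq₀]
    change (f * w ^ 2 + β) * L / 2 + (f * w ^ 2 - β) * Real.sin (2 * w * L) / (4 * w) -
      ((f * w ^ 2 + β) * 0 / 2 + (f * w ^ 2 - β) * Real.sin (2 * w * 0) / (4 * w)) = _
    have h1 : 2 * w * L = 2 * Real.pi := by rw [mul_assoc, hwL]
    rw [h1, Real.sin_two_pi]
    simp only [mul_zero, Real.sin_zero, zero_div, add_zero, sub_zero]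
  rw [hq] at hfin
  have h1 : (f * w ^ 2 + β) * L < 0 := mul_neg_of_neg_of_pos hneg hL0
  have h3 : (0 : ℝ) ^ 2 * a N - 0 ^ 2 * a 0 = 0 := by ring
  rw [h3] at hfin
  linarith

end Pool.Agent.Lib.MP_6fca61_gt
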